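import Pool.Agent.R166.HT.Defs

/-!
# HT4 (MP_b5ed04_co): upper bound of the area from the support function

`areaLe : StmtArea`.  (helper258)
-/

set_option autoImplicit false

namespace Pool.Agent.R166.HT

namespace AreaAux

open MeasureTheory Set intervalIntegral Filter Topology

structure Good (c : ℝ → ℝ) : Prop where
  conv : ConvexOn ℝ univ c
  l : c (-1) = 2
  r : c 1 = 2
  low : ∀ m ∈ Icc (-1 : ℝ) 1, 1 + |m| ≤ c m

lemma Good.up {c : ℝ → ℝ} (h : Good c) {a b : ℝ} (ha : -1 ≤ a) (hab : a < b) (hb : b ≤ 1) :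
    c b ≤ c a + (b - a) := by
  have h1a : 0 < 1 - a := by linarith
  set t := (b - a) / (1 - a) with ht
  have ht0 : 0 ≤ t := div_nonneg (by linarith) h1a.le
  have ht1 : t ≤ 1 := (div_le_one h1a).2 (by linarith)
  have hta : t * (1 - a) = b - a := div_mul_cancel₀ _ h1a.ne'
  have := h.conv.2 (mem_univ a) (mem_univ 1) (by linarith : 0 ≤ 1 - t) ht0 (by ring)
  simp only [smul_eq_mul, mul_one, h.r] at this
  have e : (1 - t) * a + t = b := by nlinarith
  rw [e] at this
  have hl := h.low a ⟨ha, by linarith⟩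
  have : t * (2 - c a) ≤ t * (1 - a) := mul_le_mul_of_nonneg_left (by linarith [le_abs_self a]) ht0
  nlinarith

lemma Good.dn {c : ℝ → ℝ} (h : Good c) {a b : ℝ} (ha : -1 ≤ a) (hab : a < b) (hb : b ≤ 1) :
    c a ≤ c b + (b - a) := by
  have h1a : 0 < b + 1 := by linarith
  set t := (b - a) / (b + 1) with ht
  have ht0 : 0 ≤ t := div_nonneg (by linarith) h1a.le
  have ht1 : t ≤ 1 := (div_le_one h1a).2 (by linarith)
  have hta : t * (b + 1) = b - a := div_mul_cancel₀ _ h1a.ne'
  have := h.conv.2 (mem_univ b) (mem_univ (-1)) (by linarith : 0 ≤ 1 - t) ht0 (by ring)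
  simp only [smul_eq_mul, h.l] at this
  have e : (1 - t) * b + t * (-1) = a := by nlinarith
  rw [e] at this
  have hl := h.low b ⟨by linarith, hb⟩
  have : t * (2 - c b) ≤ t * (b + 1) := mul_le_mul_of_nonneg_left (by linarith [neg_abs_le b]) ht0
  nlinarith

lemma Good.lip {c : ℝ → ℝ} (h : Good c) : LipschitzOnWith 1 c (Icc (-1) 1) := by
  apply LipschitzOnWith.of_dist_le_mul
  intro a ha b hb
  simp only [NNReal.coe_one, one_mul, Real.dist_eq]
  rcases lt_trichotomy a b with hab | hab | hab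
  · rw [abs_sub_comm a b, abs_of_pos (by linarith : 0 < b - a), abs_le]
    constructor
    · linarith [h.up ha.1 hab hb.2]
    · linarith [h.dn ha.1 hab hb.2]
  · subst hab; simp
  · rw [abs_of_pos (by linarith : 0 < a - b), abs_le]
    constructor
    · linarith [h.dn hb.1 hab ha.2]
    · linarith [h.up hb.1 hab ha.2]

lemma Good.ac {c : ℝ → ℝ} (h : Good c) : AbsolutelyContinuousOnInterval c (-1) 1 := by
  apply LipschitzOnWith.absolutelyContinuousOnInterval (K := 1)
  rw [uIcc_of_le (by norm_num)]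
  exact h.lip

lemma Good.dle {c : ℝ → ℝ} (h : Good c) {t : ℝ} (ht : t ∈ Ioo (-1 : ℝ) 1) : |deriv c t| ≤ 1 := by
  have := norm_deriv_le_of_lipschitzOn (Icc_mem_nhds ht.1 ht.2) h.lip
  simpa using this

lemma Good.psi {c : ℝ → ℝ} (h : Good c) (x : ℝ) : ∃ m ∈ Icc (-1 : ℝ) 1,
    c m + m * x ≤ 2 - x - ∫ t in (-1 : ℝ)..1, max (-x - deriv c t) 0 := by
  have hc : ContinuousOn (fun m => c m + m * x) (Icc (-1) 1) :=
    h.lip.continuousOn.add (by fun_prop)
  obtain ⟨m, hm, hmin⟩ := isCompact_Icc.exists_isMinOn ⟨0, by norm_num, by norm_num⟩ hc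
  refine ⟨m, hm, ?_⟩
  have hint : IntervalIntegrable (deriv c) volume (-1) 1 := h.ac.intervalIntegrable_deriv
  have hint1 : IntervalIntegrable (deriv c) volume (-1) m :=
    hint.mono_set (by rw [uIcc_of_le hm.1, uIcc_of_le (by norm_num)]; exact Icc_subset_Icc le_rfl hm.2)
  have hac1 : AbsolutelyContinuousOnInterval c (-1) m :=
    LipschitzOnWith.absolutelyContinuousOnInterval (K := 1)
      (by rw [uIcc_of_le hm.1]; exact h.lip.mono (Icc_subset_Icc le_rfl hm.2))
  have hF : ∫ t in (-1 : ℝ)..m, deriv c t = c m - 2 := by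
    rw [hac1.integral_deriv_eq_sub, h.l]
  have hd : ∀ᵐ t, t ∈ uIcc (-1 : ℝ) 1 → DifferentiableAt ℝ c t := h.ac.ae_differentiableAt
  have hint2 : IntervalIntegrable (fun t => max (-x - deriv c t) 0) volume (-1) 1 := by
    have h0 : IntervalIntegrable (fun t => -x - deriv c t) volume (-1) 1 :=
      (_root_.intervalIntegrable_const).sub hint
    rw [intervalIntegrable_iff] at h0 ⊢
    exact h0.pos_part
  have hsplit : ∫ t in (-1 : ℝ)..1, max (-x - deriv c t) 0 =
      (∫ t in (-1 : ℝ)..m, max (-x - deriv c t) 0) + ∫ t in m..1, max (-x - deriv c t) 0 := by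
    rw [integral_add_adjacent_intervals]
    · exact hint2.mono_set (by rw [uIcc_of_le hm.1, uIcc_of_le (by norm_num)]; exact Icc_subset_Icc le_rfl hm.2)
    · exact hint2.mono_set (by rw [uIcc_of_le hm.2, uIcc_of_le (by norm_num)]; exact Icc_subset_Icc hm.1 le_rfl)
  have h1 : ∫ t in (-1 : ℝ)..m, max (-x - deriv c t) 0 = ∫ t in (-1 : ℝ)..m, (-x - deriv c t) := by
    apply intervalIntegral.integral_congr_ae
    have hne : ∀ᵐ t : ℝ, t ≠ m := by simp [ae_iff, measure_singleton]
    filter_upwards [hd, hne] with t ht htm htI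
    rw [uIoc_of_le hm.1] at htI
    have htm' : t < m := lt_of_le_of_ne htI.2 htm
    have hdt := ht (by rw [uIcc_of_le (by norm_num)]; exact ⟨htI.1.le, by linarith [hm.2]⟩)
    have hs := h.conv.deriv_le_slope (mem_univ t) (mem_univ m) htm' hdt
    have hmt := hmin (show t ∈ Icc (-1 : ℝ) 1 from ⟨htI.1.le, by linarith [hm.2]⟩)
    simp only [mem_ofPred_eq] at hmt
    rw [slope_def_field, le_div_iff₀ (by linarith)] at hs
    rw [max_eq_left]
    by_contra hcon
    push Not at hcon
    nlinarith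
  have h2 : ∫ t in m..1, max (-x - deriv c t) 0 = ∫ t in m..1, (0 : ℝ) := by
    apply intervalIntegral.integral_congr_ae
    have hne : ∀ᵐ t : ℝ, t ≠ m := by simp [ae_iff, measure_singleton]
    filter_upwards [hd, hne] with t ht htm htI
    rw [uIoc_of_le hm.2] at htI
    have hdt := ht (by rw [uIcc_of_le (by norm_num)]; exact ⟨by linarith [hm.1, htI.1], htI.2⟩)
    have hs := h.conv.slope_le_deriv (mem_univ m) (mem_univ t) htI.1 hdt
    have hmt := hmin (show t ∈ Icc (-1 : ℝ) 1 from ⟨by linarith [hm.1, htI.1], htI.2⟩)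
    simp only [mem_ofPred_eq] at hmt
    rw [slope_def_field, div_le_iff₀ (by linarith [htI.1])] at hs
    rw [max_eq_right]
    by_contra hcon
    push Not at hcon
    nlinarith [htI.1]
  rw [hsplit, h1, h2, intervalIntegral.integral_sub (by simp) hint1, hF]
  simp
  nlinarith


lemma int_max {p : ℝ} (hp : |p| ≤ 1) : ∫ x in (-1 : ℝ)..1, max (-x - p) 0 = (1 - p) ^ 2 / 2 := by
  obtain ⟨h1, h2⟩ := abs_le.1 hp
  have hcont : Continuous (fun x : ℝ => max (-x - p) 0) := by fun_prop
  have hsplit : ∫ x in (-1 : ℝ)..1, max (-x - p) 0 =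
      (∫ x in (-1 : ℝ)..(-p), max (-x - p) 0) + ∫ x in (-p)..1, max (-x - p) 0 := by
    rw [integral_add_adjacent_intervals] <;> exact hcont.intervalIntegrable _ _
  have e1 : ∫ x in (-1 : ℝ)..(-p), max (-x - p) 0 = ∫ x in (-1 : ℝ)..(-p), (-x - p) := by
    apply intervalIntegral.integral_congr
    intro x hx
    rw [uIcc_of_le (by linarith)] at hx
    exact max_eq_left (by linarith [hx.2])
  have e2 : ∫ x in (-p)..1, max (-x - p) 0 = ∫ x in (-p)..1, (0 : ℝ) := by
    apply intervalIntegral.integral_congr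
    intro x hx
    rw [uIcc_of_le (by linarith)] at hx
    exact max_eq_right (by linarith [hx.1])
  rw [hsplit, e1, e2, intervalIntegral.integral_sub
    ((by fun_prop : Continuous fun x : ℝ => -x).intervalIntegrable _ _)
    ((by fun_prop : Continuous fun _ : ℝ => p).intervalIntegrable _ _),
    intervalIntegral.integral_neg, integral_id]
  simp
  ring

lemma Good.sq_le {c : ℝ → ℝ} (h : Good c) : ∫ t in (-1 : ℝ)..1, (deriv c t) ^ 2 ≤ 2 := by
  have hbd : ∀ᵐ t : ℝ, t ∈ uIoc (-1 : ℝ) 1 → ‖(deriv c t) ^ 2‖ ≤ 1 := by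
    have hne : ∀ᵐ t : ℝ, t ≠ 1 := by simp [ae_iff, measure_singleton]
    filter_upwards [hne] with t ht htI
    rw [uIoc_of_le (by norm_num)] at htI
    rw [norm_pow]
    exact pow_le_one₀ (norm_nonneg _) (h.dle ⟨htI.1, lt_of_le_of_ne htI.2 ht⟩)
  have := intervalIntegral.norm_integral_le_of_norm_le_const_ae hbd
  rw [Real.norm_eq_abs] at this
  have h2 : |(1 : ℝ) - -1| = 2 := by norm_num
  rw [h2] at this
  linarith [le_abs_self (∫ t in (-1 : ℝ)..1, (deriv c t) ^ 2)]

/-- the Legendre-Fubini computation -/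
lemma Good.fub {c : ℝ → ℝ} (h : Good c) :
    IntervalIntegrable (fun x => 2 - x - ∫ t in (-1 : ℝ)..1, max (-x - deriv c t) 0)
      volume (-1) 1 ∧
    ∫ x in (-1 : ℝ)..1, (2 - x - ∫ t in (-1 : ℝ)..1, max (-x - deriv c t) 0) =
      3 - (1 / 2) * ∫ t in (-1 : ℝ)..1, (deriv c t) ^ 2 := by
  have hint : IntervalIntegrable (deriv c) volume (-1) 1 := h.ac.intervalIntegrable_deriv
  have hF : ∫ t in (-1 : ℝ)..1, deriv c t = 0 := by
    rw [h.ac.integral_deriv_eq_sub, h.l, h.r]; ring
  have hmeas : Measurable (deriv c) := measurable_deriv c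
  have hbd : ∀ᵐ t : ℝ, t ∈ uIoc (-1 : ℝ) 1 → |deriv c t| ≤ 1 := by
    have hne : ∀ᵐ t : ℝ, t ≠ 1 := by simp [ae_iff, measure_singleton]
    filter_upwards [hne] with t ht htI
    rw [uIoc_of_le (by norm_num)] at htI
    exact h.dle ⟨htI.1, lt_of_le_of_ne htI.2 ht⟩
  have hJ : IntegrableOn (Function.uncurry fun x t : ℝ => max (-x - deriv c t) 0)
      (uIoc (-1 : ℝ) 1 ×ˢ uIoc (-1 : ℝ) 1) := by
    have : IsFiniteMeasure (volume.restrict (uIoc (-1 : ℝ) 1)) :=
      ⟨by rw [Measure.restrict_apply_univ, uIoc_of_le (by norm_num)]; exact measure_Ioc_lt_top⟩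
    rw [IntegrableOn, Measure.volume_eq_prod, ← Measure.prod_restrict]
    have i1 : Integrable (fun x : ℝ => -x) (volume.restrict (uIoc (-1 : ℝ) 1)) := by
      have := (by fun_prop : Continuous fun x : ℝ => -x).intervalIntegrable (μ := volume) (-1) 1
      rwa [intervalIntegrable_iff] at this
    have i2 : Integrable (deriv c) (volume.restrict (uIoc (-1 : ℝ) 1)) := by
      rwa [intervalIntegrable_iff] at hint
    have i3 := (i1.comp_fst (volume.restrict (uIoc (-1 : ℝ) 1))).sub
      (i2.comp_snd (volume.restrict (uIoc (-1 : ℝ) 1)))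
    exact i3.pos_part
  have hswap := intervalIntegral_intervalIntegral_swap hJ
  have hJ2 : IntervalIntegrable (fun x => ∫ t in (-1 : ℝ)..1, max (-x - deriv c t) 0)
      volume (-1) 1 := by
    rw [intervalIntegrable_iff, IntegrableOn]
    rw [IntegrableOn, Measure.volume_eq_prod, ← Measure.prod_restrict] at hJ
    have := hJ.integral_prod_left
    simpa [intervalIntegral.intervalIntegral_eq_integral_uIoc, Function.uncurry] using this
  have hsq : IntervalIntegrable (fun t => (deriv c t) ^ 2) volume (-1) 1 := by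
    rw [intervalIntegrable_iff]
    refine Integrable.mono' (g := fun _ => (1 : ℝ)) ?_ (hmeas.pow_const 2).aestronglyMeasurable ?_
    · have : IntervalIntegrable (fun _ : ℝ => (1 : ℝ)) volume (-1) 1 := _root_.intervalIntegrable_const
      rwa [intervalIntegrable_iff] at this
    · rw [ae_restrict_iff' measurableSet_uIoc]
      filter_upwards [hbd] with t ht htI
      have := ht htI
      rw [Real.norm_eq_abs, abs_pow]
      exact pow_le_one₀ (abs_nonneg _) this
  have h2x : IntervalIntegrable (fun x : ℝ => 2 - x) volume (-1) 1 :=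
    (by fun_prop : Continuous fun x : ℝ => 2 - x).intervalIntegrable _ _
  refine ⟨h2x.sub hJ2, ?_⟩
  rw [intervalIntegral.integral_sub h2x hJ2, hswap]
  have e1 : ∫ t in (-1 : ℝ)..1, (∫ x in (-1 : ℝ)..1, max (-x - deriv c t) 0) =
      ∫ t in (-1 : ℝ)..1, (1 - deriv c t) ^ 2 / 2 := by
    apply intervalIntegral.integral_congr_ae
    filter_upwards [hbd] with t ht htI
    exact int_max (ht htI)
  have e2 : ∫ t in (-1 : ℝ)..1, (1 - deriv c t) ^ 2 / 2 =
      1 + (1 / 2) * ∫ t in (-1 : ℝ)..1, (deriv c t) ^ 2 := by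
    have : (fun t => (1 - deriv c t) ^ 2 / 2) =
        fun t => (1 / 2 - deriv c t) + (1 / 2) * (deriv c t) ^ 2 := by
      funext t; ring
    rw [this, intervalIntegral.integral_add, intervalIntegral.integral_sub, hF, intervalIntegral.integral_const_mul]
    · simp; norm_num
    · simp
    · exact hint
    · exact (_root_.intervalIntegrable_const).sub hint
    · exact hsq.const_mul _
  rw [e1, e2]
  have e3 : ∫ x in (-1 : ℝ)..1, (2 - x) = 4 := by
    rw [intervalIntegral.integral_sub (by simp) (by simp)]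
    simp; norm_num
  rw [e3]; ring

/-- bound of the area of a strip part -/
lemma Good.strip {c : ℝ → ℝ} (h : Good c) {T : Set P} (hT : MeasurableSet T)
    (h1 : ∀ p ∈ T, |p.1| ≤ 1)
    (h2 : ∀ p ∈ T, ∀ m ∈ Icc (-1 : ℝ) 1, |p.2 - m * p.1| ≤ c m) :
    volume T ≤ ENNReal.ofReal (6 - ∫ t in (-1 : ℝ)..1, (deriv c t) ^ 2) := by
  obtain ⟨hI, hF⟩ := h.fub
  set G : ℝ → ℝ := fun x => 2 - x - ∫ t in (-1 : ℝ)..1, max (-x - deriv c t) 0 with hG
  have hG1 : ∀ x ∈ Icc (-1 : ℝ) 1, 1 ≤ G x := by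
    intro x hx
    obtain ⟨m, hm, hle⟩ := h.psi x
    have := h.low m hm
    have hx' : |x| ≤ 1 := abs_le.2 hx
    have : -(m * x) ≤ |m| := by
      calc -(m * x) ≤ |m * x| := neg_le_abs _
        _ = |m| * |x| := abs_mul _ _
        _ ≤ |m| * 1 := mul_le_mul_of_nonneg_left hx' (abs_nonneg _)
        _ = |m| := mul_one _
    show 1 ≤ 2 - x - ∫ t in (-1 : ℝ)..1, max (-x - deriv c t) 0
    linarith
  have hup : ∀ p ∈ T, p.2 ≤ G p.1 := by
    intro p hp
    obtain ⟨m, hm, hle⟩ := h.psi p.1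
    have := (abs_le.1 (h2 p hp m hm)).2
    show p.2 ≤ 2 - p.1 - ∫ t in (-1 : ℝ)..1, max (-p.1 - deriv c t) 0
    linarith
  have hdn : ∀ p ∈ T, -G (-p.1) ≤ p.2 := by
    intro p hp
    obtain ⟨m, hm, hle⟩ := h.psi (-p.1)
    have := (abs_le.1 (h2 p hp m hm)).1
    show -(2 - -p.1 - ∫ t in (-1 : ℝ)..1, max (-(-p.1) - deriv c t) 0) ≤ p.2
    linarith
  have hInt : IntegrableOn (fun x => G x + G (-x)) (Icc (-1 : ℝ) 1) := by
    have hIn : IntervalIntegrable (fun x => G (-x)) volume (-1) 1 := by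
      have := ((IntervalIntegrable.iff_comp_neg (by simp)).1 hI).symm
      simpa using this
    have := hI.add hIn
    rw [intervalIntegrable_iff_integrableOn_Icc_of_le (by norm_num)] at this
    exact this
  have hval : ∫ x in Icc (-1 : ℝ) 1, (G x + G (-x)) = 6 - ∫ t in (-1 : ℝ)..1, (deriv c t) ^ 2 := by
    have hIn : IntervalIntegrable (fun x => G (-x)) volume (-1) 1 := by
      have := ((IntervalIntegrable.iff_comp_neg (by simp)).1 hI).symm
      simpa using this
    rw [integral_Icc_eq_integral_Ioc, ← intervalIntegral.integral_of_le (by norm_num),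
      intervalIntegral.integral_add hI hIn, intervalIntegral.integral_comp_neg, neg_neg, hF]
    ring
  rw [Measure.volume_eq_prod, Measure.prod_apply hT, ← hval,
    ofReal_integral_eq_lintegral_ofReal hInt]
  · calc ∫⁻ x, volume (Prod.mk x ⁻¹' T)
        ≤ ∫⁻ x, (Icc (-1 : ℝ) 1).indicator (fun x => ENNReal.ofReal (G x + G (-x))) x := by
          apply lintegral_mono
          intro x
          by_cases hx : x ∈ Icc (-1 : ℝ) 1
          · simp only [indicator_of_mem hx]
            calc volume (Prod.mk x ⁻¹' T) ≤ volume (Icc (-G (-x)) (G x)) := by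
                  apply measure_mono
                  intro y hy
                  exact ⟨hdn (x, y) hy, hup (x, y) hy⟩
              _ = ENNReal.ofReal (G x + G (-x)) := by
                  rw [Real.volume_Icc]; congr 1; ring
          · simp only [indicator_of_notMem hx]
            have : Prod.mk x ⁻¹' T = ∅ := by
              apply eq_empty_of_forall_notMem
              intro y hy
              exact hx (abs_le.1 (h1 (x, y) hy))
            rw [this]; simp
      _ = ∫⁻ x in Icc (-1 : ℝ) 1, ENNReal.ofReal (G x + G (-x)) :=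
          lintegral_indicator measurableSet_Icc _
  · rw [Filter.EventuallyLE, ae_restrict_iff' measurableSet_Icc]
    filter_upwards with x hx
    have a := hG1 x hx
    have b := hG1 (-x) ⟨by linarith [hx.2], by linarith [hx.1]⟩
    show 0 ≤ G x + G (-x)
    linarith

/-- the symmetric sets that we use -/
structure Sq (N : Set P) : Prop where
  neg : ∀ x ∈ N, -x ∈ N
  a : ((1, 1) : P) ∈ N
  b : ((-1, 1) : P) ∈ N
  bd : ∀ x ∈ N, |x.1| + |x.2| ≤ 2

lemma Sq.bdd {N : Set P} (h : Sq N) (m : ℝ) : BddAbove ((fun x : P => x.2 - m * x.1) '' N) := by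
  refine ⟨2 + |m| * 2, ?_⟩
  rintro _ ⟨x, hx, rfl⟩
  have h1 := h.bd x hx
  have h2 : |x.1| ≤ 2 := by linarith [abs_nonneg x.2]
  have h3 : x.2 ≤ 2 := by linarith [abs_nonneg x.1, le_abs_self x.2]
  have h4 : -(m * x.1) ≤ |m| * 2 := by
    calc -(m * x.1) ≤ |m * x.1| := neg_le_abs _
      _ = |m| * |x.1| := abs_mul _ _
      _ ≤ |m| * 2 := mul_le_mul_of_nonneg_left h2 (abs_nonneg _)
  show x.2 - m * x.1 ≤ 2 + |m| * 2
  linarith

lemma Sq.le {N : Set P} (h : Sq N) (m : ℝ) {x : P} (hx : x ∈ N) : x.2 - m * x.1 ≤ cT N m :=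
  le_csSup (h.bdd m) ⟨x, hx, rfl⟩

lemma Sq.abs_le {N : Set P} (h : Sq N) (m : ℝ) {x : P} (hx : x ∈ N) :
    |x.2 - m * x.1| ≤ cT N m := by
  rw [_root_.abs_le]
  refine ⟨?_, h.le m hx⟩
  have := h.le m (h.neg x hx)
  simp only [Prod.fst_neg, Prod.snd_neg] at this
  linarith

lemma Sq.cT_le {N : Set P} (h : Sq N) (m C : ℝ) (hC : ∀ x ∈ N, x.2 - m * x.1 ≤ C) :
    cT N m ≤ C := by
  apply csSup_le (Set.Nonempty.image _ ⟨_, h.a⟩)
  rintro _ ⟨x, hx, rfl⟩
  exact hC x hx

lemma Sq.good {N : Set P} (h : Sq N) : Good (cT N) where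
  conv := by
    refine ⟨convex_univ, ?_⟩
    intro a _ b _ s t hs ht hst
    simp only [smul_eq_mul]
    apply h.cT_le
    intro x hx
    have e : x.2 - (s * a + t * b) * x.1 = s * (x.2 - a * x.1) + t * (x.2 - b * x.1) := by
      have : x.2 = (s + t) * x.2 := by rw [hst, one_mul]
      linear_combination this
    rw [e]
    exact add_le_add (mul_le_mul_of_nonneg_left (h.le a hx) hs)
      (mul_le_mul_of_nonneg_left (h.le b hx) ht)
  l := by
    apply le_antisymm
    · apply h.cT_le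
      intro x hx
      linarith [h.bd x hx, le_abs_self x.1, le_abs_self x.2]
    · have := h.le (-1) h.a
      norm_num at this
      exact this
  r := by
    apply le_antisymm
    · apply h.cT_le
      intro x hx
      linarith [h.bd x hx, neg_abs_le x.1, le_abs_self x.2]
    · have := h.le 1 h.b
      norm_num at this
      exact this
  low := by
    intro m _
    have h1 := h.le m h.a
    have h2 := h.le m h.b
    simp only [mul_one, mul_neg, sub_neg_eq_add] at h1 h2
    rcases abs_cases m with ⟨e, _⟩ | ⟨e, _⟩ <;> rw [e] <;> linarith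

lemma Sq.swap {N : Set P} (h : Sq N) : Sq (Prod.swap ⁻¹' N) where
  neg := by
    intro x hx
    exact h.neg _ hx
  a := h.a
  b := by
    have := h.neg _ h.b
    simpa using this
  bd := by
    intro x hx
    have := h.bd _ hx
    simp only [Prod.fst_swap, Prod.snd_swap] at this
    linarith

lemma cT_swap (N : Set P) (m : ℝ) : cT (Prod.swap ⁻¹' N) m = cR N (-m) := by
  unfold cT cR
  congr 1
  ext v
  constructor
  · rintro ⟨x, hx, rfl⟩
    exact ⟨x.swap, hx, by simp; ring⟩
  · rintro ⟨x, hx, rfl⟩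
    exact ⟨x.swap, by simpa using hx, by simp; ring⟩

lemma Sq.square {N : Set P} (h : Sq N) (hc : Convex ℝ N) :
    Icc (-1 : ℝ) 1 ×ˢ Icc (-1 : ℝ) 1 ⊆ N := by
  have top : ∀ x ∈ Icc (-1 : ℝ) 1, ((x, 1) : P) ∈ N := by
    intro x hx
    have := hc h.b h.a (show 0 ≤ (1 - x) / 2 by linarith [hx.2])
      (show 0 ≤ (1 + x) / 2 by linarith [hx.1]) (by ring)
    convert this using 1
    ext <;> simp <;> ring
  have bot : ∀ x ∈ Icc (-1 : ℝ) 1, ((x, -1) : P) ∈ N := by
    intro x hx
    have := h.neg _ (top (-x) ⟨by linarith [hx.2], by linarith [hx.1]⟩)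
    simpa using this
  rintro ⟨x, y⟩ ⟨hx, hy⟩
  simp only at hx hy
  have := hc (bot x hx) (top x hx) (show 0 ≤ (1 - y) / 2 by linarith [hy.2])
      (show 0 ≤ (1 + y) / 2 by linarith [hy.1]) (by ring)
  convert this using 1
  ext <;> simp <;> ring

end AreaAux

open MeasureTheory Set intervalIntegral Filter Topology AreaAux in
/-- HT4 -/
theorem areaLe : StmtArea := by
  intro N hN
  obtain ⟨⟨hconv, hcomp, -⟩, hneg, ha, hb, hbd⟩ := hN
  have hS : Sq N := ⟨hneg, ha, hb, hbd⟩
  have hS' := hS.swap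
  have hmN : MeasurableSet N := hcomp.isClosed.measurableSet
  have hmA : MeasurableSet {p : P | |p.1| ≤ 1} :=
    (isClosed_le (continuous_abs.comp continuous_fst) continuous_const).measurableSet
  have hmB : MeasurableSet {p : P | |p.2| ≤ 1} :=
    (isClosed_le (continuous_abs.comp continuous_snd) continuous_const).measurableSet
  have hT1 : volume (N ∩ {p : P | |p.1| ≤ 1}) ≤
      ENNReal.ofReal (6 - ∫ t in (-1 : ℝ)..1, (deriv (cT N) t) ^ 2) :=
    hS.good.strip (hmN.inter hmA) (fun p hp => hp.2) (fun p hp m _ => hS.abs_le m hp.1)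
  have hT2' : volume (Prod.swap ⁻¹' N ∩ {p : P | |p.1| ≤ 1}) ≤
      ENNReal.ofReal (6 - ∫ t in (-1 : ℝ)..1, (deriv (cT (Prod.swap ⁻¹' N)) t) ^ 2) :=
    hS'.good.strip ((measurable_swap hmN).inter hmA) (fun p hp => hp.2)
      (fun p hp m _ => hS'.abs_le m hp.1)
  have hsw : volume (Prod.swap ⁻¹' N ∩ {p : P | |p.1| ≤ 1}) =
      volume (N ∩ {p : P | |p.2| ≤ 1}) := by
    have : Prod.swap ⁻¹' N ∩ {p : P | |p.1| ≤ 1} =
        Prod.swap ⁻¹' (N ∩ {p : P | |p.2| ≤ 1}) := by
      ext p; simp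
    rw [this]
    exact (Measure.measurePreserving_swap (μ := (volume : Measure ℝ))
      (ν := (volume : Measure ℝ))).measure_preimage (hmN.inter hmB).nullMeasurableSet
  have hder : ∫ t in (-1 : ℝ)..1, (deriv (cT (Prod.swap ⁻¹' N)) t) ^ 2 =
      ∫ t in (-1 : ℝ)..1, (deriv (cR N) t) ^ 2 := by
    have : cT (Prod.swap ⁻¹' N) = fun m => cR N (-m) := funext (cT_swap N)
    rw [this]
    have e : (fun t => (deriv (fun m => cR N (-m)) t) ^ 2) =
        fun t => (fun s => (deriv (cR N) s) ^ 2) (-t) := by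
      funext t
      rw [deriv_comp_neg]; ring
    have := intervalIntegral.integral_comp_neg (a := -1) (b := 1) (fun s => deriv (cR N) s ^ 2)
    rw [e]
    simpa using this
  rw [hsw, hder] at hT2'
  set A : ℝ := ∫ t in (-1 : ℝ)..1, (deriv (cT N) t) ^ 2 with hA
  set B : ℝ := ∫ t in (-1 : ℝ)..1, (deriv (cR N) t) ^ 2 with hB
  have hsq := hS.square hconv
  have hunion : N = (N ∩ {p : P | |p.1| ≤ 1}) ∪ (N ∩ {p : P | |p.2| ≤ 1}) := by
    ext p
    constructor
    · intro hp
      by_cases h : |p.1| ≤ 1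
      · exact Or.inl ⟨hp, h⟩
      · refine Or.inr ⟨hp, ?_⟩
        have := hbd p hp
        push Not at h
        show |p.2| ≤ 1
        linarith
    · rintro (h | h) <;> exact h.1
  have hin : Icc (-1 : ℝ) 1 ×ˢ Icc (-1 : ℝ) 1 ⊆
      (N ∩ {p : P | |p.1| ≤ 1}) ∩ (N ∩ {p : P | |p.2| ≤ 1}) := by
    intro p hp
    exact ⟨⟨hsq hp, abs_le.2 hp.1⟩, ⟨hsq hp, abs_le.2 hp.2⟩⟩
  have h4 : volume (Icc (-1 : ℝ) 1 ×ˢ Icc (-1 : ℝ) 1) = 4 := by
    rw [Measure.volume_eq_prod, Measure.prod_prod, Real.volume_Icc]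
    norm_num
  have h4' : (4 : ENNReal) ≤
      volume ((N ∩ {p : P | |p.1| ≤ 1}) ∩ (N ∩ {p : P | |p.2| ≤ 1})) := by
    rw [← h4]; exact measure_mono hin
  have hui := measure_union_add_inter (μ := (volume : Measure P)) (N ∩ {p : P | |p.1| ≤ 1})
    (hmN.inter hmB)
  rw [← hunion] at hui
  have hfin : volume N ≠ ⊤ := hcomp.measure_lt_top.ne
  have key : volume N + 4 ≤ ENNReal.ofReal (6 - A) + ENNReal.ofReal (6 - B) := by
    calc volume N + 4 ≤ volume N +
          volume ((N ∩ {p : P | |p.1| ≤ 1}) ∩ (N ∩ {p : P | |p.2| ≤ 1})) := by gcongr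
      _ = _ := hui
      _ ≤ _ := add_le_add hT1 hT2'
  have hA6 : A ≤ 2 := hS.good.sq_le
  have hB6 : B ≤ 2 := by
    have := hS'.good.sq_le
    rwa [hder] at this
  rw [← ENNReal.ofReal_add (by linarith) (by linarith)] at key
  have h4r : (4 : ENNReal) = ENNReal.ofReal 4 := by norm_num
  have hN : volume N = ENNReal.ofReal (area N) := (ENNReal.ofReal_toReal hfin).symm
  have hN0 : 0 ≤ area N := ENNReal.toReal_nonneg
  rw [hN, h4r, ← ENNReal.ofReal_add hN0 (by norm_num),
    ENNReal.ofReal_le_ofReal_iff (by linarith)] at key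
  linarith

end Pool.Agent.R166.HT
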