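import Pool.Agent.R166.HT.Defs

/-!
HT2: the Brunn-Minkowski inequality for `K` and `-K` in the plane, with the case of equality.
The proof is the classical transport proof along horizontal sections, in every direction.
-/

set_option autoImplicit false

namespace Pool.Agent.R166.HT.BM

open MeasureTheory Set Filter Topology
open scoped ENNReal

noncomputable section

/-- Horizontal section. -/
def Sec (K : Set P) (s : ℝ) : Set ℝ := {r | (r, s) ∈ K}

/-- Its length. -/
def len (K : Set P) (s : ℝ) : ℝ := (volume (Sec K s)).toReal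

lemma isCompact_Sec {K : Set P} (hK : IsCompact K) (s : ℝ) : IsCompact (Sec K s) := by
  have h1 : Sec K s = Prod.fst '' (K ∩ (Prod.snd ⁻¹' {s})) := by
    ext r
    simp only [Sec, mem_ofPred_eq, mem_image, mem_inter_iff, mem_preimage, mem_singleton_iff,
      Prod.exists, exists_and_right, exists_eq_right]
  rw [h1]
  exact (hK.inter_right (isClosed_singleton.preimage continuous_snd)).image continuous_fst

lemma convex_Sec {K : Set P} (hK : Convex ℝ K) (s : ℝ) : Convex ℝ (Sec K s) := by
  intro x hx y hy a b ha hb hab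
  have := hK hx hy ha hb hab
  simp only [Sec, mem_ofPred_eq] at *
  have h2 : a • ((x, s) : P) + b • ((y, s) : P) = (a • x + b • y, s) := by
    ext
    · simp
    · simp only [Prod.smul_mk, Prod.mk_add_mk, smul_eq_mul]
      rw [← add_mul, hab, one_mul]
  rwa [h2] at this

lemma Sec_eq {K : Set P} (hc : IsCompact K) (hv : Convex ℝ K) {s : ℝ} (hs : (Sec K s).Nonempty) :
    Sec K s = Icc (sInf (Sec K s)) (sSup (Sec K s)) :=
  eq_Icc_of_connected_compact ⟨hs, (convex_Sec hv s).isPreconnected⟩ (isCompact_Sec hc s)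

lemma volume_Sec {K : Set P} (hc : IsCompact K) (s : ℝ) :
    volume (Sec K s) = ENNReal.ofReal (len K s) :=
  (ENNReal.ofReal_toReal (isCompact_Sec hc s).measure_lt_top.ne).symm

lemma exists_ends {K : Set P} (hc : IsCompact K) (hv : Convex ℝ K) {s : ℝ}
    (hs : (Sec K s).Nonempty) : ∃ a b : ℝ, (a, s) ∈ K ∧ (b, s) ∈ K ∧ a ≤ b ∧ len K s = b - a := by
  have h1 := Sec_eq hc hv hs
  set a := sInf (Sec K s)
  set b := sSup (Sec K s)
  have hab : a ≤ b := by
    rw [h1] at hs
    exact nonempty_Icc.1 hs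
  refine ⟨a, b, ?_, ?_, hab, ?_⟩
  · have : a ∈ Sec K s := by rw [h1]; exact left_mem_Icc.2 hab
    exact this
  · have : b ∈ Sec K s := by rw [h1]; exact right_mem_Icc.2 hab
    exact this
  · unfold len
    rw [h1, Real.volume_Icc, ENNReal.toReal_ofReal (by linarith)]

lemma le_len {K : Set P} (hc : IsCompact K) (hv : Convex ℝ K) {s a b : ℝ}
    (ha : (a, s) ∈ K) (hb : (b, s) ∈ K) : b - a ≤ len K s := by
  rcases le_or_gt b a with h | h
  · have : 0 ≤ len K s := ENNReal.toReal_nonneg
    linarith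
  · have h1 : Icc a b ⊆ Sec K s := (convex_Sec hv s).ordConnected.out ha hb
    have h2 := measure_mono (μ := volume) h1
    rw [Real.volume_Icc, volume_Sec hc] at h2
    exact (ENNReal.ofReal_le_ofReal_iff ENNReal.toReal_nonneg).1 h2

lemma len_nonneg (K : Set P) (s : ℝ) : 0 ≤ len K s := ENNReal.toReal_nonneg

lemma convex_relBall {K : Set P} (hv : Convex ℝ K) : Convex ℝ (relBall K) := by
  rintro _ ⟨x, hx, y, hy, rfl⟩ _ ⟨x', hx', y', hy', rfl⟩ a b ha hb hab
  refine ⟨a • x + b • x', hv hx hx' ha hb hab, a • y + b • y', hv hy hy' ha hb hab, ?_⟩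
  module

lemma compact_relBall {K : Set P} (hc : IsCompact K) : IsCompact (relBall K) := by
  have : relBall K = (fun p : P × P => (1 / 2 : ℝ) • (p.1 - p.2)) '' (K ×ˢ K) := by
    ext z
    constructor
    · rintro ⟨x, hx, y, hy, rfl⟩; exact ⟨(x, y), ⟨hx, hy⟩, rfl⟩
    · rintro ⟨⟨x, y⟩, ⟨hx, hy⟩, rfl⟩; exact ⟨x, hx, y, hy, rfl⟩
  rw [this]
  exact (hc.prod hc).image (by fun_prop)

/-- The one-dimensional Brunn-Minkowski inequality for the sections. -/
lemma len_relBall {K : Set P} (hc : IsCompact K) (hv : Convex ℝ K) {s t : ℝ}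
    (hs : (Sec K s).Nonempty) (ht : (Sec K t).Nonempty) :
    (len K s + len K t) / 2 ≤ len (relBall K) ((s - t) / 2) := by
  obtain ⟨a, b, ha, hb, _, h1⟩ := exists_ends hc hv hs
  obtain ⟨a', b', ha', hb', _, h2⟩ := exists_ends hc hv ht
  have h3 : ((a - b') / 2, (s - t) / 2) ∈ relBall K :=
    ⟨(a, s), ha, (b', t), hb', by ext <;> simp <;> ring⟩
  have h4 : ((b - a') / 2, (s - t) / 2) ∈ relBall K :=
    ⟨(b, s), hb, (a', t), ha', by ext <;> simp <;> ring⟩
  have h5 := le_len (compact_relBall hc) (convex_relBall hv) h3 h4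
  rw [h1, h2]
  linarith

lemma volume_eq {K : Set P} (hc : IsCompact K) :
    volume K = ∫⁻ s, ENNReal.ofReal (len K s) := by
  rw [Measure.volume_eq_prod, Measure.prod_apply_symm hc.measurableSet]
  exact lintegral_congr fun s => volume_Sec hc s

lemma measurable_len {K : Set P} (hc : IsCompact K) : Measurable (len K) := by
  have := measurable_measure_prodMk_right (μ := (volume : Measure ℝ)) hc.measurableSet
  exact this.ennreal_toReal

lemma exists_bound {K : Set P} (hc : IsCompact K) : ∃ C : ℝ, 0 < C ∧ ∀ s, len K s ≤ C := by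
  obtain ⟨R, hR⟩ := hc.isBounded.subset_closedBall (0 : P)
  refine ⟨2 * |R| + 1, by positivity, fun s => ?_⟩
  have h1 : Sec K s ⊆ Icc (-|R|) |R| := by
    intro r hr
    have h2 := hR hr
    rw [mem_closedBall_zero_iff] at h2
    have h3 : |r| ≤ |R| := by
      calc |r| = ‖((r, s) : P).1‖ := rfl
        _ ≤ ‖((r, s) : P)‖ := norm_fst_le _
        _ ≤ R := h2
        _ ≤ |R| := le_abs_self R
    exact abs_le.1 h3
  have h2 := measure_mono (μ := volume) h1
  rw [Real.volume_Icc, volume_Sec hc] at h2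
  have h3 := (ENNReal.ofReal_le_ofReal_iff (by linarith [abs_nonneg R])).1 h2
  linarith

/-- The data of the projection. -/
lemma exists_proj {K : Set P} (hK : IsBody K) : ∃ α β : ℝ, α < β ∧
    (∀ s, (Sec K s).Nonempty ↔ s ∈ Icc α β) ∧ ∃ s₀ ∈ Ioo α β, 0 < len K s₀ := by
  obtain ⟨hv, hc, hi⟩ := hK
  have h1 : Prod.snd '' K = Icc (sInf (Prod.snd '' K)) (sSup (Prod.snd '' K)) := by
    refine eq_Icc_of_connected_compact ⟨(hi.mono interior_subset).image _, ?_⟩
      (hc.image continuous_snd)
    exact (hv.isPreconnected).image _ continuous_snd.continuousOn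
  set α := sInf (Prod.snd '' K)
  set β := sSup (Prod.snd '' K)
  have h2 : ∀ s, (Sec K s).Nonempty ↔ s ∈ Icc α β := by
    intro s
    rw [← h1]
    constructor
    · rintro ⟨r, hr⟩; exact ⟨(r, s), hr, rfl⟩
    · rintro ⟨⟨r, s'⟩, hr, rfl⟩; exact ⟨r, hr⟩
  obtain ⟨⟨r₀, s₀⟩, hrs⟩ := hi
  rw [mem_interior_iff_mem_nhds, Metric.mem_nhds_iff] at hrs
  obtain ⟨ε, hε, hball⟩ := hrs
  have hmem : ∀ r s : ℝ, |r - r₀| < ε → |s - s₀| < ε → (r, s) ∈ K := by
    intro r s hr hs
    apply hball
    rw [Metric.mem_ball, Prod.dist_eq]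
    exact max_lt hr hs
  have h3 : s₀ - ε / 2 ∈ Icc α β := (h2 _).1 ⟨r₀, hmem _ _ (by simpa using hε) (by
    rw [show s₀ - ε / 2 - s₀ = -(ε / 2) by ring, abs_neg, abs_of_pos (by linarith)]; linarith)⟩
  have h4 : s₀ + ε / 2 ∈ Icc α β := (h2 _).1 ⟨r₀, hmem _ _ (by simpa using hε) (by
    rw [show s₀ + ε / 2 - s₀ = (ε / 2) by ring, abs_of_pos (by linarith)]; linarith)⟩
  refine ⟨α, β, by linarith [h3.1, h4.2], h2, s₀, ⟨by linarith [h3.1], by linarith [h4.2]⟩, ?_⟩
  have h5 := le_len hc hv (s := s₀) (a := r₀ - ε / 2) (b := r₀ + ε / 2)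
    (hmem _ _ (by rw [show r₀ - ε / 2 - r₀ = -(ε / 2) by ring, abs_neg, abs_of_pos (by linarith)]; linarith)
      (by simpa using hε))
    (hmem _ _ (by rw [show r₀ + ε / 2 - r₀ = (ε / 2) by ring, abs_of_pos (by linarith)]; linarith)
      (by simpa using hε))
  linarith

lemma concave_len {K : Set P} (hc : IsCompact K) (hv : Convex ℝ K) {α β : ℝ}
    (h : ∀ s, (Sec K s).Nonempty ↔ s ∈ Icc α β) : ConcaveOn ℝ (Icc α β) (len K) := by
  refine ⟨convex_Icc α β, fun s hs t ht x y hx hy hxy => ?_⟩
  obtain ⟨a, b, ha, hb, _, h1⟩ := exists_ends hc hv ((h s).2 hs)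
  obtain ⟨a', b', ha', hb', _, h2⟩ := exists_ends hc hv ((h t).2 ht)
  have h3 : ((x * a + y * a', x * s + y * t) : P) ∈ K := by
    have := hv ha ha' hx hy hxy
    simpa using this
  have h4 : ((x * b + y * b', x * s + y * t) : P) ∈ K := by
    have := hv hb hb' hx hy hxy
    simpa using this
  have h5 := le_len hc hv h3 h4
  simp only [smul_eq_mul]
  rw [h1, h2]
  linarith

lemma len_pos {K : Set P} (hc : IsCompact K) (hv : Convex ℝ K) {α β : ℝ}
    (h : ∀ s, (Sec K s).Nonempty ↔ s ∈ Icc α β) {s₀ : ℝ} (hs₀ : s₀ ∈ Ioo α β)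
    (hp : 0 < len K s₀) {s : ℝ} (hs : s ∈ Ioo α β) : 0 < len K s := by
  have hcc := concave_len hc hv h
  have key : ∀ e ∈ Icc α β, ∀ l : ℝ, 0 < l → l ≤ 1 → s = (1 - l) * e + l * s₀ → 0 < len K s := by
    intro e he l hl hl1 hse
    have := hcc.2 he (Ioo_subset_Icc_self hs₀) (sub_nonneg.2 hl1) hl.le (by ring)
    simp only [smul_eq_mul] at this
    rw [← hse] at this
    have h1 := len_nonneg K e
    have h2 : 0 ≤ (1 - l) * len K e := mul_nonneg (by linarith) h1
    have h3 : 0 < l * len K s₀ := mul_pos hl hp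
    linarith
  have hαβ : α < β := hs.1.trans hs.2
  rcases le_total s s₀ with h1 | h1
  · refine key α (left_mem_Icc.2 hαβ.le) ((s - α) / (s₀ - α)) ?_ ?_ ?_
    · exact div_pos (by linarith [hs.1]) (by linarith [hs₀.1])
    · rw [div_le_one (by linarith [hs₀.1])]; linarith
    · have : s₀ - α ≠ 0 := by linarith [hs₀.1]
      field_simp
      ring
  · refine key β (right_mem_Icc.2 hαβ.le) ((β - s) / (β - s₀)) ?_ ?_ ?_
    · exact div_pos (by linarith [hs.2]) (by linarith [hs₀.2])
    · rw [div_le_one (by linarith [hs₀.2])]; linarith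
    · have : β - s₀ ≠ 0 := by linarith [hs₀.2]
      field_simp
      ring

/-- The positive extension of the section length. -/
def ft (K : Set P) (α β s : ℝ) : ℝ := if s ∈ Ioo α β then len K s else 1

/-- Its primitive. -/
def F (K : Set P) (α β x : ℝ) : ℝ := ∫ t in α..x, ft K α β t

/-- Everything we need about the projection. -/
structure Pr (K : Set P) (α β : ℝ) : Prop where
  c : IsCompact K
  v : Convex ℝ K
  lt : α < β
  sec : ∀ s, (Sec K s).Nonempty ↔ s ∈ Icc α β
  pos : ∀ s ∈ Ioo α β, 0 < len K s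

lemma exists_Pr {K : Set P} (hK : IsBody K) : ∃ α β, Pr K α β := by
  obtain ⟨α, β, h1, h2, s₀, hs₀, h3⟩ := exists_proj hK
  exact ⟨α, β, hK.2.1, hK.1, h1, h2, fun s hs => len_pos hK.2.1 hK.1 h2 hs₀ h3 hs⟩

section
variable {K : Set P} {α β : ℝ} (h : Pr K α β)
include h

lemma cont_len : ContinuousOn (len K) (Ioo α β) :=
  ((concave_len h.c h.v h.sec).subset Ioo_subset_Icc_self (convex_Ioo α β)).continuousOn isOpen_Ioo

lemma len_zero {s : ℝ} (hs : s ∉ Icc α β) : len K s = 0 := by
  have : Sec K s = ∅ := by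
    by_contra hne
    exact hs ((h.sec s).1 (nonempty_iff_ne_empty.2 hne))
  simp [len, this]

lemma ft_pos (s : ℝ) : 0 < ft K α β s := by
  unfold ft
  split_ifs with hs
  · exact h.pos s hs
  · exact one_pos

lemma measurable_ft : Measurable (ft K α β) :=
  Measurable.ite measurableSet_Ioo (measurable_len h.c) measurable_const

lemma intervalIntegrable_ft (a b : ℝ) : IntervalIntegrable (ft K α β) volume a b := by
  obtain ⟨C, hC, hb⟩ := exists_bound h.c
  rw [intervalIntegrable_iff]
  refine Measure.integrableOn_of_bounded (M := max C 1) (by simp)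
    (measurable_ft h).aestronglyMeasurable (ae_of_all _ fun s => ?_)
  rw [Real.norm_eq_abs, abs_of_pos (ft_pos h s)]
  unfold ft
  split_ifs
  · exact (hb s).trans (le_max_left _ _)
  · exact le_max_right _ _

lemma continuous_F : Continuous (F K α β) :=
  intervalIntegral.continuous_primitive (intervalIntegrable_ft h) α

lemma strictMono_F : StrictMono (F K α β) := by
  intro x y hxy
  have h1 := intervalIntegral.integral_interval_sub_left (intervalIntegrable_ft h α y)
    (intervalIntegrable_ft h α x)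
  have h2 := intervalIntegral.intervalIntegral_pos_of_pos (intervalIntegrable_ft h x y)
    (ft_pos h) hxy
  unfold F
  linarith

omit h in
lemma F_left : F K α β α = 0 := intervalIntegral.integral_same

lemma F_ge {x : ℝ} (hx : β ≤ x) : F K α β x = F K α β β + (x - β) := by
  have h1 := intervalIntegral.integral_add_adjacent_intervals (intervalIntegrable_ft h α β)
    (intervalIntegrable_ft h β x)
  have h2 : ∫ t in β..x, ft K α β t = ∫ t in β..x, (1 : ℝ) := by
    refine intervalIntegral.integral_congr fun t ht => ?_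
    rw [uIcc_of_le hx] at ht
    unfold ft
    rw [if_neg fun hm => absurd hm.2 (not_lt.2 ht.1)]
  rw [h2, intervalIntegral.integral_const, smul_eq_mul, mul_one] at h1
  exact h1.symm

omit h in
lemma F_le {x : ℝ} (hx : x ≤ α) : F K α β x = x - α := by
  unfold F
  rw [intervalIntegral.integral_symm]
  have h2 : ∫ t in x..α, ft K α β t = ∫ t in x..α, (1 : ℝ) := by
    refine intervalIntegral.integral_congr fun t ht => ?_
    rw [uIcc_of_le hx] at ht
    unfold ft
    rw [if_neg fun hm => absurd hm.1 (not_lt.2 ht.2)]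
  rw [h2, intervalIntegral.integral_const, smul_eq_mul]
  ring

lemma surj_F : Function.Surjective (F K α β) := by
  refine (continuous_F h).surjective ?_ ?_
  · have h1 : Tendsto (fun x : ℝ => F K α β β + (x - β)) atTop atTop :=
      tendsto_atTop_add_const_left _ _ (tendsto_atTop_add_const_right _ _ tendsto_id)
    refine h1.congr' ?_
    filter_upwards [eventually_ge_atTop β] with x hx
    exact (F_ge h hx).symm
  · have h1 : Tendsto (fun x : ℝ => x - α) atBot atBot :=
      tendsto_atBot_add_const_right _ _ tendsto_id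
    refine h1.congr' ?_
    filter_upwards [eventually_le_atBot α] with x hx
    exact (F_le hx).symm

/-- The inverse. -/
def E : ℝ ≃o ℝ := (strictMono_F h).orderIsoOfSurjective _ (surj_F h)

/-- The quantile function. -/
def X (u : ℝ) : ℝ := (E h).symm u

lemma F_X (u : ℝ) : F K α β (X h u) = u := (E h).apply_symm_apply u

lemma X_F (x : ℝ) : X h (F K α β x) = x := (E h).symm_apply_apply x

lemma continuous_X : Continuous (X h) := (E h).symm.continuous

lemma strictMono_X : StrictMono (X h) := (E h).symm.strictMono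

lemma area_eq : F K α β β = area K := by
  have h1 : volume K = ∫⁻ s in Ioo α β, ENNReal.ofReal (len K s) := by
    rw [volume_eq h.c, ← lintegral_indicator measurableSet_Ioo]
    refine lintegral_congr_ae ?_
    have h2 : ∀ᵐ s : ℝ, s ∉ ({α, β} : Set ℝ) :=
      measure_eq_zero_iff_ae_notMem.1 ((Set.toFinite {α, β}).measure_zero _)
    filter_upwards [h2] with s hs
    by_cases hm : s ∈ Ioo α β
    · rw [indicator_of_mem hm]
    · rw [indicator_of_notMem hm, len_zero h, ENNReal.ofReal_zero]
      intro h3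
      simp only [mem_insert_iff, mem_singleton_iff, not_or] at hs
      exact hm ⟨lt_of_le_of_ne h3.1 (Ne.symm hs.1), lt_of_le_of_ne h3.2 hs.2⟩
  unfold area F
  rw [h1, intervalIntegral.integral_of_le h.lt.le, integral_Ioc_eq_integral_Ioo,
    integral_eq_lintegral_of_nonneg_ae (ae_of_all _ fun s => (ft_pos h s).le)
      (measurable_ft h).aestronglyMeasurable]
  congr 1
  refine setLIntegral_congr_fun measurableSet_Ioo fun s hs => ?_
  simp only [ft]
  rw [if_pos hs]

lemma area_pos : 0 < area K := by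
  rw [← area_eq h, ← F_left]
  exact strictMono_F h h.lt

lemma X_mem {u : ℝ} (hu : u ∈ Ioo 0 (area K)) : X h u ∈ Ioo α β := by
  constructor
  · rw [← (strictMono_F h).lt_iff_lt, F_X, F_left]; exact hu.1
  · rw [← (strictMono_F h).lt_iff_lt, F_X, area_eq h]; exact hu.2

lemma hasDerivAt_F {x : ℝ} (hx : x ∈ Ioo α β) : HasDerivAt (F K α β) (len K x) x := by
  have h1 : ContinuousAt (ft K α β) x := by
    have h2 : ContinuousAt (len K) x := (cont_len h).continuousAt (isOpen_Ioo.mem_nhds hx)
    refine h2.congr ?_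
    filter_upwards [isOpen_Ioo.mem_nhds hx] with s hs
    simp only [ft]
    rw [if_pos hs]
  have h3 := intervalIntegral.integral_hasDerivAt_right (intervalIntegrable_ft h α x)
    ((measurable_ft h).stronglyMeasurable.stronglyMeasurableAtFilter) h1
  have h4 : ft K α β x = len K x := by simp only [ft]; rw [if_pos hx]
  rw [h4] at h3
  exact h3

lemma hasDerivAt_X {u : ℝ} (hu : u ∈ Ioo 0 (area K)) :
    HasDerivAt (X h) (len K (X h u))⁻¹ u := by
  have hx := X_mem h hu
  exact HasDerivAt.of_local_left_inverse (continuous_X h).continuousAt (hasDerivAt_F h hx)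
    (h.pos _ hx).ne' (Eventually.of_forall (F_X h))

omit h in
lemma refl_mem {u : ℝ} (hu : u ∈ Ioo 0 (area K)) : area K - u ∈ Ioo 0 (area K) :=
  ⟨by linarith [hu.2], by linarith [hu.1]⟩

lemma hasDerivAt_X' {u : ℝ} (hu : u ∈ Ioo 0 (area K)) :
    HasDerivAt (fun u => X h (area K - u)) (-(len K (X h (area K - u)))⁻¹) u := by
  have h1 := hasDerivAt_X h (refl_mem hu)
  have h2 : HasDerivAt (fun u : ℝ => area K - u) (-1) u := by
    simpa using (hasDerivAt_id u).const_sub (area K)
  have h3 := h1.comp u h2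
  rw [mul_neg_one] at h3
  exact h3

/-- The transport estimate. -/
lemma transport : ∫⁻ u in Ioo 0 (area K), (1 + ENNReal.ofReal
    ((len K (X h u) - len K (X h (area K - u))) ^ 2 /
      (4 * len K (X h u) * len K (X h (area K - u))))) ≤ volume (relBall K) := by
  set A := area K with hA
  set s : ℝ → ℝ := fun u => (X h u - X h (A - u)) / 2 with hs
  set s' : ℝ → ℝ := fun u => ((len K (X h u))⁻¹ + (len K (X h (A - u)))⁻¹) / 2 with hs'
  have hd : ∀ u ∈ Ioo 0 A, HasDerivWithinAt s (s' u) (Ioo 0 A) u := by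
    intro u hu
    have h1 := ((hasDerivAt_X h hu).sub (hasDerivAt_X' h hu)).div_const 2
    have h2 : s' u = ((len K (X h u))⁻¹ - -(len K (X h (area K - u)))⁻¹) / 2 := by
      simp only [hs', hA]; ring
    rw [h2]
    exact h1.hasDerivWithinAt
  have hinj : InjOn s (Ioo 0 A) := by
    have : StrictMono s := by
      intro u v huv
      have h1 := strictMono_X h huv
      have h2 := strictMono_X h (show A - v < A - u by linarith)
      simp only [hs]
      linarith
    exact this.injective.injOn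
  rw [volume_eq (compact_relBall h.c)]
  refine le_trans ?_ (setLIntegral_le_lintegral (s '' Ioo 0 A) _)
  rw [lintegral_image_eq_lintegral_abs_deriv_mul measurableSet_Ioo hd hinj]
  refine setLIntegral_mono' measurableSet_Ioo fun u hu => ?_
  have hx1 := X_mem h hu
  have hx2 := X_mem h (refl_mem hu)
  have hp := h.pos _ hx1
  have hq := h.pos _ hx2
  have h1 := len_relBall h.c h.v ((h.sec _).2 (Ioo_subset_Icc_self hx1))
    ((h.sec _).2 (Ioo_subset_Icc_self hx2))
  rw [← hA] at hq h1
  set p := len K (X h u) with hpdef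
  set q := len K (X h (A - u)) with hqdef
  have h2 : s' u = (p⁻¹ + q⁻¹) / 2 := rfl
  have h3 : 0 < s' u := by rw [h2]; positivity
  rw [abs_of_pos h3, ← ENNReal.ofReal_mul h3.le, ← ENNReal.ofReal_one,
    ← ENNReal.ofReal_add zero_le_one (by positivity)]
  refine ENNReal.ofReal_le_ofReal ?_
  have h4 : 1 + (p - q) ^ 2 / (4 * p * q) = s' u * ((p + q) / 2) := by
    rw [h2]; field_simp; ring
  rw [h4]
  exact mul_le_mul_of_nonneg_left h1 h3.le

lemma vol_le : volume K ≤ volume (relBall K) := by
  refine le_trans ?_ (transport h)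
  have h1 : volume K = ∫⁻ u in Ioo 0 (area K), (1 : ℝ≥0∞) := by
    rw [lintegral_one, Measure.restrict_apply_univ, Real.volume_Ioo, sub_zero]
    exact (ENNReal.ofReal_toReal h.c.measure_lt_top.ne).symm
  rw [h1]
  exact lintegral_mono fun u => le_self_add

lemma area_le : area K ≤ area (relBall K) :=
  ENNReal.toReal_mono (compact_relBall h.c).measure_lt_top.ne (vol_le h)

/-- In the case of equality the section lengths at opposite quantiles agree. -/
lemma eq_len (heq : area (relBall K) ≤ area K) {u : ℝ} (hu : u ∈ Ioo 0 (area K)) :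
    len K (X h u) = len K (X h (area K - u)) := by
  set A := area K with hA
  set D : ℝ → ℝ≥0∞ := fun u => ENNReal.ofReal
    ((len K (X h u) - len K (X h (A - u))) ^ 2 / (4 * len K (X h u) * len K (X h (A - u)))) with hD
  have hXc := continuous_X h
  have hXc' : Continuous fun u => X h (A - u) := hXc.comp (by fun_prop)
  have hm : Measurable D := by
    have h1 : Measurable fun u => len K (X h u) := (measurable_len h.c).comp hXc.measurable
    have h2 : Measurable fun u => len K (X h (A - u)) := (measurable_len h.c).comp hXc'.measurable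
    exact ENNReal.measurable_ofReal.comp
      (((h1.sub h2).pow_const 2).div ((measurable_const.mul h1).mul h2))
  have h1 : ∫⁻ u in Ioo 0 A, D u = 0 := by
    have h2 := transport h
    rw [← hA] at h2
    have h3 : ∫⁻ u in Ioo 0 A, (1 + D u) = ENNReal.ofReal A + ∫⁻ u in Ioo 0 A, D u := by
      rw [lintegral_add_left measurable_const, lintegral_one, Measure.restrict_apply_univ,
        Real.volume_Ioo, sub_zero]
    have h4 : volume (relBall K) ≤ ENNReal.ofReal A := by
      rw [← ENNReal.ofReal_toReal (compact_relBall h.c).measure_lt_top.ne]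
      exact ENNReal.ofReal_le_ofReal heq
    have h5 : ENNReal.ofReal A + ∫⁻ u in Ioo 0 A, D u ≤ ENNReal.ofReal A + 0 := by
      rw [← h3, add_zero]
      exact h2.trans h4
    have h6 := (ENNReal.add_le_add_iff_left ENNReal.ofReal_ne_top).1 h5
    exact le_antisymm h6 bot_le
  rw [lintegral_eq_zero_iff hm] at h1
  have h2 : volume ({u | len K (X h u) ≠ len K (X h (A - u))} ∩ Ioo 0 A) = 0 := by
    rw [← Measure.restrict_apply' measurableSet_Ioo]
    have h3 : ∀ᵐ u ∂(volume.restrict (Ioo 0 A)), u ∈ Ioo 0 A := ae_restrict_mem measurableSet_Ioo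
    rw [measure_eq_zero_iff_ae_notMem]
    filter_upwards [h1, h3] with u hu1 hu2
    simp only [ne_eq, not_not]
    have hp := h.pos _ (X_mem h hu2)
    have hq := h.pos _ (X_mem h (refl_mem hu2))
    rw [← hA] at hq
    have h4 : (len K (X h u) - len K (X h (A - u))) ^ 2 /
        (4 * len K (X h u) * len K (X h (A - u))) ≤ 0 := ENNReal.ofReal_eq_zero.1 hu1
    have h5 : (len K (X h u) - len K (X h (A - u))) ^ 2 ≤ 0 := by
      by_contra hcon
      push Not at hcon
      exact absurd h4 (not_le.2 (by positivity))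
    nlinarith [sq_nonneg (len K (X h u) - len K (X h (A - u)))]
  have h3 : IsOpen ({u | len K (X h u) ≠ len K (X h (A - u))} ∩ Ioo 0 A) := by
    rw [inter_comm]
    have hc1 : ContinuousOn (fun u => len K (X h u)) (Ioo 0 A) :=
      (cont_len h).comp hXc.continuousOn fun u hu => X_mem h hu
    have hc2 : ContinuousOn (fun u => len K (X h (A - u))) (Ioo 0 A) :=
      (cont_len h).comp hXc'.continuousOn fun u hu => X_mem h (refl_mem hu)
    have h4 : Ioo 0 A ∩ {u | len K (X h u) ≠ len K (X h (A - u))} =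
        Ioo 0 A ∩ (fun u => len K (X h u) - len K (X h (A - u))) ⁻¹' {0}ᶜ := by
      ext u
      simp only [mem_inter_iff, mem_ofPred_eq, mem_preimage, mem_compl_iff, mem_singleton_iff,
        sub_eq_zero, ne_eq]
    rw [h4]
    exact (hc1.sub hc2).isOpen_inter_preimage isOpen_Ioo isOpen_compl_singleton
  have h4 := (h3.measure_eq_zero_iff volume).1 h2
  by_contra hne
  have : u ∈ ({u | len K (X h u) ≠ len K (X h (A - u))} ∩ Ioo 0 A) := ⟨hne, hu⟩
  rw [h4] at this
  exact this

lemma X_add (heq : area (relBall K) ≤ area K) {u : ℝ} (hu : u ∈ Icc 0 (area K)) :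
    X h u + X h (area K - u) = α + β := by
  set A := area K with hA
  have hA0 : 0 < A := area_pos h
  have hc : Continuous fun u => X h u + X h (A - u) := by
    have := continuous_X h
    fun_prop
  have h1 : ∀ v ∈ Ioo 0 A, X h v + X h (A - v) = X h (A / 2) + X h (A - A / 2) := by
    intro v hv
    have hd : DifferentiableOn ℝ (fun u => X h u + X h (A - u)) (Ioo 0 A) := fun w hw =>
      ((hasDerivAt_X h hw).add (hasDerivAt_X' h hw)).differentiableAt.differentiableWithinAt
    refine isOpen_Ioo.is_const_of_deriv_eq_zero isPreconnected_Ioo hd ?_ hv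
      ⟨by linarith, by linarith⟩
    intro w hw
    have h2 := ((hasDerivAt_X h hw).add (hasDerivAt_X' h hw)).deriv
    have h3 := eq_len h heq hw
    rw [h3] at h2
    simp only [Pi.zero_apply]
    rw [add_neg_cancel] at h2
    exact h2
  have h2 : ∀ v ∈ Icc 0 A, X h v + X h (A - v) = X h (A / 2) + X h (A - A / 2) := by
    intro v hv
    have hcl : IsClosed {v | X h v + X h (A - v) = X h (A / 2) + X h (A - A / 2)} :=
      isClosed_eq hc continuous_const
    have h3 : closure (Ioo 0 A) ⊆ {v | X h v + X h (A - v) = X h (A / 2) + X h (A - A / 2)} :=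
      hcl.closure_subset_iff.2 h1
    rw [closure_Ioo hA0.ne] at h3
    exact h3 hv
  rw [h2 u hu, ← h2 0 (left_mem_Icc.2 hA0.le), sub_zero]
  congr 1
  · rw [← F_left (K := K) (α := α) (β := β)]; exact X_F h α
  · rw [hA, ← area_eq h]; exact X_F h β

lemma len_symm (heq : area (relBall K) ≤ area K) {x : ℝ} (hx : x ∈ Ioo α β) :
    len K (α + β - x) = len K x := by
  have hu : F K α β x ∈ Ioo 0 (area K) := by
    constructor
    · rw [← F_left (K := K) (α := α) (β := β)]; exact strictMono_F h hx.1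
    · rw [← area_eq h]; exact strictMono_F h hx.2
  have h1 := eq_len h heq hu
  have h2 := X_add h heq (Ioo_subset_Icc_self hu)
  rw [X_F] at h1 h2
  rw [← h2, h1]
  congr 1
  ring

lemma len_symm_ae (heq : area (relBall K) ≤ area K) :
    ∀ᵐ x : ℝ, len K (α + β - x) = len K x := by
  have h2 : ∀ᵐ s : ℝ, s ∉ ({α, β} : Set ℝ) :=
    measure_eq_zero_iff_ae_notMem.1 ((Set.toFinite {α, β}).measure_zero _)
  filter_upwards [h2] with s hs
  simp only [mem_insert_iff, mem_singleton_iff, not_or] at hs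
  by_cases hm : s ∈ Ioo α β
  · exact len_symm h heq hm
  · have h3 : s ∉ Icc α β := fun h3 =>
      hm ⟨lt_of_le_of_ne h3.1 (Ne.symm hs.1), lt_of_le_of_ne h3.2 hs.2⟩
    rw [len_zero h h3, len_zero h]
    intro h4
    exact h3 ⟨by linarith [h4.2], by linarith [h4.1]⟩

lemma moment (heq : area (relBall K) ≤ area K) :
    ∫ y in K, (y.2 - (α + β) / 2) = 0 := by
  set m := (α + β) / 2 with hm
  have hint : Integrable (K.indicator fun y : P => y.2 - m) := by
    rw [integrable_indicator_iff h.c.measurableSet]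
    exact (Continuous.continuousOn (by fun_prop)).integrableOn_compact h.c
  rw [← integral_indicator h.c.measurableSet]
  rw [Measure.volume_eq_prod] at hint ⊢
  rw [integral_prod_symm _ hint]
  have h1 : ∀ s : ℝ, ∫ r : ℝ, K.indicator (fun y : P => y.2 - m) (r, s) = (s - m) * len K s := by
    intro s
    have h2 : (fun r : ℝ => K.indicator (fun y : P => y.2 - m) (r, s)) =
        (Sec K s).indicator fun _ => s - m := by
      funext r
      by_cases hr : (r, s) ∈ K
      · rw [indicator_of_mem hr, indicator_of_mem (show r ∈ Sec K s from hr)]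
      · rw [indicator_of_notMem hr, indicator_of_notMem (show r ∉ Sec K s from hr)]
    rw [h2, integral_indicator (isCompact_Sec h.c s).measurableSet, setIntegral_const]
    simp only [smul_eq_mul, Measure.real, len]
    ring
  simp_rw [h1]
  have h2 := integral_sub_left_eq_self (fun s : ℝ => (s - m) * len K s) volume (α + β)
  have h3 : ∫ s : ℝ, (α + β - s - m) * len K (α + β - s) = ∫ s : ℝ, -((s - m) * len K s) := by
    refine integral_congr_ae ?_
    filter_upwards [len_symm_ae h heq] with s hs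
    simp only [hs]
    rw [hm]
    ring
  rw [h3, integral_neg] at h2
  linarith

end

/-- The theorem in the vertical direction. -/
lemma dir_vert {K : Set P} (hK : IsBody K) (heq : area (relBall K) ≤ area K) :
    ∃ p ∈ K, ∃ q ∈ K, (∀ x ∈ K, p.2 ≤ x.2 ∧ x.2 ≤ q.2) ∧
      ∫ y in K, (y.2 - (p.2 + q.2) / 2) = 0 := by
  obtain ⟨α, β, h⟩ := exists_Pr hK
  obtain ⟨r, hr⟩ := (h.sec α).2 (left_mem_Icc.2 h.lt.le)
  obtain ⟨r', hr'⟩ := (h.sec β).2 (right_mem_Icc.2 h.lt.le)
  refine ⟨(r, α), hr, (r', β), hr', ?_, moment h heq⟩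
  rintro ⟨x, s⟩ hx
  exact (h.sec s).1 ⟨x, hx⟩

/-- The linear change of coordinates. -/
def chL (a b : ℝ) (h : 0 < a ^ 2 + b ^ 2) : P ≃ₗ[ℝ] P where
  toFun x := (b * x.1 - a * x.2, a * x.1 + b * x.2)
  map_add' x y := by ext <;> simp <;> ring
  map_smul' c x := by ext <;> simp <;> ring
  invFun y := ((b * y.1 + a * y.2) / (a ^ 2 + b ^ 2), (-a * y.1 + b * y.2) / (a ^ 2 + b ^ 2))
  left_inv x := by
    have := h.ne'
    ext <;> simp <;> field_simp <;> ring
  right_inv y := by
    have := h.ne'
    ext <;> simp <;> field_simp <;> ring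

lemma dir {K : Set P} (hK : IsBody K) (heq : area (relBall K) ≤ area K) (a b : ℝ)
    (hab : 0 < a ^ 2 + b ^ 2) :
    ∃ p ∈ K, ∃ q ∈ K, (∀ x ∈ K, a * p.1 + b * p.2 ≤ a * x.1 + b * x.2 ∧
        a * x.1 + b * x.2 ≤ a * q.1 + b * q.2) ∧
      ∫ y in K, (a * y.1 + b * y.2 - ((a * p.1 + b * p.2) + (a * q.1 + b * q.2)) / 2) = 0 := by
  set e : P ≃L[ℝ] P := (chL a b hab).toContinuousLinearEquiv with he
  have he2 : ∀ x : P, (e x).2 = a * x.1 + b * x.2 := fun x => rfl
  obtain ⟨hv, hc, hi⟩ := hK
  have hK' : IsBody (e '' K) := by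
    refine ⟨hv.linear_image (chL a b hab).toLinearMap, hc.image e.continuous, ?_⟩
    have : e '' interior K = interior (e '' K) := e.toHomeomorph.image_interior K
    rw [← this]
    exact hi.image _
  have hrel : relBall (e '' K) = e '' relBall K := by
    ext z
    constructor
    · rintro ⟨_, ⟨x, hx, rfl⟩, _, ⟨y, hy, rfl⟩, rfl⟩
      exact ⟨(1 / 2 : ℝ) • (x - y), ⟨x, hx, y, hy, rfl⟩, by simp⟩
    · rintro ⟨_, ⟨x, hx, y, hy, rfl⟩, rfl⟩
      exact ⟨e x, ⟨x, hx, rfl⟩, e y, ⟨y, hy, rfl⟩, by simp⟩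
  have harea : ∀ S : Set P, area (e '' S) =
      |LinearMap.det ((e : P →L[ℝ] P) : P →ₗ[ℝ] P)| * area S := by
    intro S
    unfold area
    have := Measure.addHaar_image_continuousLinearEquiv (volume : Measure P) e S
    rw [this, ENNReal.toReal_mul, ENNReal.toReal_ofReal (abs_nonneg _)]
    rfl
  have heq' : area (relBall (e '' K)) ≤ area (e '' K) := by
    rw [hrel, harea, harea]
    exact mul_le_mul_of_nonneg_left heq (abs_nonneg _)
  obtain ⟨_, ⟨p, hp, rfl⟩, _, ⟨q, hq, rfl⟩, h1, h2⟩ := dir_vert hK' heq'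
  refine ⟨p, hp, q, hq, fun x hx => ?_, ?_⟩
  · have := h1 (e x) ⟨x, hx, rfl⟩
    simpa only [he2] using this
  · have h3 := integral_image_eq_integral_abs_det_fderiv_smul (volume : Measure P)
      hc.measurableSet (f := e) (f' := fun _ => (e : P →L[ℝ] P))
      (fun x _ => e.hasFDerivAt.hasFDerivWithinAt) e.injective.injOn
      (fun y => y.2 - ((e p).2 + (e q).2) / 2)
    rw [h2, integral_smul] at h3
    have hdet : |(e : P →L[ℝ] P).det| ≠ 0 := by
      have h4 : IsUnit (LinearMap.det ((chL a b hab) : P →ₗ[ℝ] P)) :=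
        LinearEquiv.isUnit_det' (chL a b hab)
      have h5 : (e : P →L[ℝ] P).det = LinearMap.det ((chL a b hab) : P →ₗ[ℝ] P) := rfl
      rw [h5]
      exact abs_ne_zero.2 h4.ne_zero
    have h6 := (smul_eq_zero.1 h3.symm).resolve_left hdet
    simpa only [he2] using h6

/-- The centroid. -/
def cen (K : Set P) : P := ((∫ y in K, y.1) / area K, (∫ y in K, y.2) / area K)

lemma cen_eq {K : Set P} (hK : IsBody K) (a b m : ℝ)
    (h : ∫ y in K, (a * y.1 + b * y.2 - m) = 0) : a * (cen K).1 + b * (cen K).2 = m := by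
  obtain ⟨α, β, hP⟩ := exists_Pr hK
  have hA := area_pos hP
  have hi : ∀ w : P → ℝ, Continuous w → IntegrableOn w K := fun w hw =>
    hw.continuousOn.integrableOn_compact hK.2.1
  have h1 : ∫ y in K, (a * y.1 + b * y.2 - m) =
      a * (∫ y in K, y.1) + b * (∫ y in K, y.2) - m * area K := by
    rw [integral_sub (hi _ (by fun_prop)) (hi _ (by fun_prop)),
      integral_add (hi _ (by fun_prop)) (hi _ (by fun_prop)), integral_const_mul,
      integral_const_mul, setIntegral_const]
    simp only [smul_eq_mul, Measure.real, area]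
    ring
  rw [h1] at h
  unfold cen
  field_simp
  linarith

lemma symm_of_eq {K : Set P} (hK : IsBody K) (heq : area (relBall K) ≤ area K) :
    ∀ x ∈ K, (2 : ℝ) • cen K - x ∈ K := by
  intro x hx
  by_contra hne
  obtain ⟨f, u, hf1, hf2⟩ := geometric_hahn_banach_closed_point hK.1 hK.2.1.isClosed hne
  have hf : ∀ y : P, f y = f (1, 0) * y.1 + f (0, 1) * y.2 := by
    intro y
    have : y = y.1 • ((1, 0) : P) + y.2 • ((0, 1) : P) := by ext <;> simp
    conv_lhs => rw [this]
    rw [map_add, map_smul, map_smul, smul_eq_mul, smul_eq_mul]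
    ring
  set a := f (1, 0) with ha
  set b := f (0, 1) with hb
  have hab : 0 < a ^ 2 + b ^ 2 := by
    by_contra hcon
    push Not at hcon
    have h1 : a = 0 := by nlinarith [sq_nonneg a, sq_nonneg b]
    have h2 : b = 0 := by nlinarith [sq_nonneg a, sq_nonneg b]
    have h3 := hf1 x hx
    rw [hf, h1, h2] at h3 hf2
    linarith
  obtain ⟨p, hp, q, hq, h1, h2⟩ := dir hK heq a b hab
  have h3 := cen_eq hK a b _ h2
  have h4 := hf1 q hq
  have h5 := (h1 x hx).1
  rw [hf] at h4 hf2
  simp only [Prod.fst_sub, Prod.snd_sub, Prod.smul_fst, Prod.smul_snd, smul_eq_mul] at hf2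
  nlinarith

/-- HT2. -/
theorem bmEq : StmtBM := by
  intro K hK
  obtain ⟨α, β, hP⟩ := exists_Pr hK
  refine ⟨area_le hP, fun heq => ⟨cen K, ?_⟩⟩
  have hs := symm_of_eq hK heq
  ext x
  constructor
  · intro hx
    refine ⟨(1 / 2 : ℝ) • (x - ((2 : ℝ) • cen K - x)), ⟨x, hx, _, hs x hx, rfl⟩, ?_⟩
    simp only
    module
  · rintro ⟨_, ⟨y, hy, z, hz, rfl⟩, rfl⟩
    have h1 := hK.1 hy (hs z hz) (show (0 : ℝ) ≤ 1 / 2 by norm_num)
      (show (0 : ℝ) ≤ 1 / 2 by norm_num) (by norm_num)
    have h2 : (1 / 2 : ℝ) • y + (1 / 2 : ℝ) • ((2 : ℝ) • cen K - z) =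
        cen K + (1 / 2 : ℝ) • (y - z) := by module
    rw [h2] at h1
    exact h1

end

end Pool.Agent.R166.HT.BM

namespace Pool.Agent.R166.HT

/-- HT2. -/
theorem bmEq : StmtBM := BM.bmEq

end Pool.Agent.R166.HT
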