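import Mathlib

/-!
# MP_b5ed04_co (Holmes-Thompson translative convex hull constant): definitions and statements

All sets are subsets of the plane `P = ℝ × ℝ` with Lebesgue measure.
-/

set_option autoImplicit false

namespace Pool.Agent.R166.HT

open MeasureTheory Set

abbrev P := ℝ × ℝ

def cross (x y : P) : ℝ := x.1 * y.2 - x.2 * y.1

/-- plane convex body -/
def IsBody (K : Set P) : Prop := Convex ℝ K ∧ IsCompact K ∧ (interior K).Nonempty

/-- `(K - K) / 2` -/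
def relBall (K : Set P) : Set P := {z | ∃ x ∈ K, ∃ y ∈ K, z = (1 / 2 : ℝ) • (x - y)}

/-- the polar body -/
def polar (M : Set P) : Set P := {y | ∀ x ∈ M, x.1 * y.1 + x.2 * y.2 ≤ 1}

/-- Lebesgue measure as a real number -/
noncomputable def area (A : Set P) : ℝ := (volume A).toReal

/-- Holmes-Thompson area of `A` for the norm with unit ball `M` -/
noncomputable def volHT (M A : Set P) : ℝ := area A * area (polar M) / Real.pi

/-- the translate `p + K` -/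
def shift (p : P) (K : Set P) : Set P := (fun x => p + x) '' K

def hulls (K : Set P) : Set ℝ :=
  {v | ∃ p : P, (shift p K ∩ K).Nonempty ∧ v = volHT (relBall K) (convexHull ℝ (K ∪ shift p K))}

noncomputable def cHT (K : Set P) : ℝ := sSup (hulls K)

/-- the golden ratio -/
noncomputable def g : ℝ := (1 + √5) / 2

/-- `θ = arctan (g ^ (-3/2))` -/
noncomputable def th : ℝ := Real.arctan (1 / (g * √g))

/-- `M_0`: the square with vertices `(±1/√2, ±1/√2)` with its edges replaced by arcs of the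
ellipses with half axes `a = g` and `b`, `b^2 = a^2 / (2 a^2 - 1) = 1 / g` -/
noncomputable def M0 : Set P :=
  {p | |p.1| ≤ 1 / √2 ∧ p.1 ^ 2 / g ^ 2 + g * p.2 ^ 2 ≤ 1} ∪
  {p | |p.2| ≤ 1 / √2 ∧ p.2 ^ 2 / g ^ 2 + g * p.1 ^ 2 ≤ 1}

/-- `√2 M_0` -/
noncomputable def N0 : Set P :=
  {p | |p.1| ≤ 1 ∧ p.1 ^ 2 / g ^ 2 + g * p.2 ^ 2 ≤ 2} ∪
  {p | |p.2| ≤ 1 ∧ p.2 ^ 2 / g ^ 2 + g * p.1 ^ 2 ≤ 2}

/-- normalised symmetric bodies: `(±1, 1) ∈ N`, `N` contained in the square `|x| + |y| ≤ 2` -/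
def Nrm (N : Set P) : Prop :=
  IsBody N ∧ (∀ x ∈ N, -x ∈ N) ∧ ((1, 1) : P) ∈ N ∧ ((-1, 1) : P) ∈ N ∧
    ∀ x ∈ N, |x.1| + |x.2| ≤ 2

/-- support function in the directions `(-m, 1)` -/
noncomputable def cT (N : Set P) (m : ℝ) : ℝ := sSup ((fun x : P => x.2 - m * x.1) '' N)

/-- support function in the directions `(1, m)` -/
noncomputable def cR (N : Set P) (m : ℝ) : ℝ := sSup ((fun x : P => x.1 + m * x.2) '' N)

/-- the support function of `N0` -/
noncomputable def c0 (m : ℝ) : ℝ :=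
  if |m| ≤ 1 / g ^ 3 then √(2 * g ^ 2 * m ^ 2 + 2 / g) else 1 + |m|

/-- HT1: the area of the convex hull of `K` and of a translate -/
def StmtHull : Prop := ∀ K : Set P, IsBody K → ∀ z y₀ : P, y₀ ∈ relBall K →
  (∀ y ∈ relBall K, |cross z y| ≤ |cross z y₀|) →
  area (convexHull ℝ (K ∪ shift ((2 : ℝ) • z) K)) = area K + 4 * |cross z y₀|

/-- HT2: Brunn-Minkowski for `K` and `-K` with the case of equality -/
def StmtBM : Prop := ∀ K : Set P, IsBody K → area K ≤ area (relBall K) ∧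
  (area (relBall K) ≤ area K → ∃ v : P, K = shift v (relBall K))

/-- HT3: the area of the polar body from the support function -/
def StmtPolar : Prop := ∀ N : Set P, Nrm N →
  area (polar N) = (∫ m in (-1 : ℝ)..1, 1 / (cT N m) ^ 2) + ∫ m in (-1 : ℝ)..1, 1 / (cR N m) ^ 2

/-- HT4: the area from the support function -/
def StmtArea : Prop := ∀ N : Set P, Nrm N →
  area N ≤ 8 - (∫ m in (-1 : ℝ)..1, (deriv (cT N) m) ^ 2) -
    ∫ m in (-1 : ℝ)..1, (deriv (cR N) m) ^ 2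

/-- HT5: the one-dimensional inequality, with uniqueness -/
def StmtOne : Prop := ∀ c : ℝ → ℝ, LipschitzOnWith 1 c (Icc (-1) 1) →
  (∀ m ∈ Icc (-1 : ℝ) 1, 1 + |m| ≤ c m ∧ c m ≤ 2) →
  (∫ m in (-1 : ℝ)..1, (1 / (c m) ^ 2 - (deriv c m) ^ 2 / (4 * g))) ≤ 2 * th / √g ∧
  ((∫ m in (-1 : ℝ)..1, (1 / (c m) ^ 2 - (deriv c m) ^ 2 / (4 * g))) = 2 * th / √g →
    ∀ m ∈ Icc (-1 : ℝ) 1, c m = c0 m)

/-- HT6: the body `N0` -/
def StmtN0 : Prop := Nrm N0 ∧ area N0 = 8 * (√g * th) ∧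
  (∀ m ∈ Icc (-1 : ℝ) 1, cT N0 m = c0 m ∧ cR N0 m = c0 m) ∧
  (∀ p : P, (∀ m ∈ Icc (-1 : ℝ) 1, |p.2 - m * p.1| ≤ c0 m ∧ |p.1 + m * p.2| ≤ c0 m) → p ∈ N0) ∧
  (∫ m in (-1 : ℝ)..1, 1 / (c0 m) ^ 2) = (√g * th + 1) / g

end Pool.Agent.R166.HT
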