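import Pool.Agent.R166.HT.N0b
import Pool.Agent.R166.HT.Area
import Pool.Agent.R166.HT.BM

set_option autoImplicit false

namespace Pool.Agent.R166.HT

open MeasureTheory Set AreaAux

/-- the maximal value times `π` -/
noncomputable def Val : ℝ := 16 * (1 + √g * th) ^ 2 / g

lemma th_nonneg : 0 ≤ th := by
  unfold th
  have := g_pos
  have := r_pos
  exact (Real.arctan_pos.2 (by positivity)).le

lemma Val_pos : 0 < Val := by
  unfold Val
  have := g_pos
  have := r_pos
  have := th_nonneg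
  positivity

lemma Nrm.sq {N : Set P} (h : Nrm N) : Sq N := ⟨h.2.1, h.2.2.1, h.2.2.2.1, h.2.2.2.2⟩

lemma cR_eq (N : Set P) (m : ℝ) : cR N m = cT (Prod.swap ⁻¹' N) (-m) := by
  rw [cT_swap]; simp

lemma Good.le2 {c : ℝ → ℝ} (h : Good c) {m : ℝ} (hm : m ∈ Icc (-1 : ℝ) 1) : c m ≤ 2 := by
  have := h.conv.2 (mem_univ (-1)) (mem_univ 1) (by linarith [hm.2] : 0 ≤ (1 - m) / 2)
    (by linarith [hm.1] : 0 ≤ (1 + m) / 2) (by ring)
  simp only [smul_eq_mul, h.l, h.r] at this
  have e : (1 - m) / 2 * -1 + (1 + m) / 2 * 1 = m := by ring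
  rw [e] at this
  linarith

lemma Good.neg {c : ℝ → ℝ} (h : Good c) : Good (fun m => c (-m)) where
  conv := by
    refine ⟨convex_univ, ?_⟩
    intro a _ b _ s t hs ht hst
    have := h.conv.2 (mem_univ (-a)) (mem_univ (-b)) hs ht hst
    simp only [smul_eq_mul] at this ⊢
    convert this using 2
    ring
  l := by simp [h.r]
  r := by simp [h.l]
  low := by
    intro m hm
    have := h.low (-m) ⟨by linarith [hm.2], by linarith [hm.1]⟩
    rwa [abs_neg] at this

lemma goodT {N : Set P} (h : Nrm N) : Good (cT N) := h.sq.good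

lemma goodR {N : Set P} (h : Nrm N) : Good (cR N) := by
  have : cR N = fun m => cT (Prod.swap ⁻¹' N) (-m) := funext (cR_eq N)
  rw [this]
  exact Good.neg h.sq.swap.good

lemma subset_eq {N N' : Set P} (hN : IsCompact N) (hN' : IsBody N') (hsub : N ⊆ N')
    (harea : area N' ≤ area N) : N = N' := by
  apply Subset.antisymm hsub
  intro p hp
  by_contra hpN
  have hopen : IsOpen Nᶜ := hN.isClosed.isOpen_compl
  have hcl : p ∈ closure (interior N') := by
    rw [hN'.1.closure_interior_eq_closure_of_nonempty_interior hN'.2.2]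
    exact subset_closure hp
  have hne : (Nᶜ ∩ interior N').Nonempty := mem_closure_iff.1 hcl _ hopen hpN
  have hpos : 0 < volume (Nᶜ ∩ interior N') :=
    (hopen.inter isOpen_interior).measure_pos volume hne
  have h1 : volume N + volume (Nᶜ ∩ interior N') ≤ volume N' := by
    rw [← measure_union (by
      rw [Set.disjoint_left]; intro x hx hx'; exact hx'.1 hx)
      (hopen.inter isOpen_interior).measurableSet]
    exact measure_mono (union_subset hsub (inter_subset_right.trans interior_subset))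
  have hf : volume N ≠ ⊤ := hN.measure_lt_top.ne
  have hf' : volume N' ≠ ⊤ := hN'.2.1.measure_lt_top.ne
  have hle : volume N' ≤ volume N := (ENNReal.toReal_le_toReal hf' hf).1 harea
  have h2 : volume N + volume (Nᶜ ∩ interior N') ≤ volume N + 0 := by
    rw [add_zero]; exact h1.trans hle
  have h3 := (ENNReal.add_le_add_iff_left hf).1 h2
  exact absurd hpos (not_lt.2 h3)

/-- the main inequality for normalised bodies -/
lemma core (hPolar : StmtPolar) {N : Set P} (hN : Nrm N) :
    (area N + 8) * area (polar N) ≤ Val ∧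
    (Val ≤ (area N + 8) * area (polar N) → N = N0) := by
  have hg := g_pos
  have hr := r_pos
  have hr2 := r_sq
  have hgT := goodT hN
  have hgR := goodR hN
  have hA := areaLe N hN
  have hP := hPolar N hN
  have hbT : ∀ m ∈ Icc (-1 : ℝ) 1, 1 + |m| ≤ cT N m ∧ cT N m ≤ 2 := fun m hm =>
    ⟨hgT.low m hm, Good.le2 hgT hm⟩
  have hbR : ∀ m ∈ Icc (-1 : ℝ) 1, 1 + |m| ≤ cR N m ∧ cR N m ≤ 2 := fun m hm =>
    ⟨hgR.low m hm, Good.le2 hgR hm⟩
  obtain ⟨hT1, hT2⟩ := one (cT N) hgT.lip hbT
  obtain ⟨hR1, hR2⟩ := one (cR N) hgR.lip hbR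
  have hposT : ∀ m ∈ Icc (-1 : ℝ) 1, 0 < cT N m := fun m hm => by
    linarith [(hbT m hm).1, abs_nonneg m]
  have hposR : ∀ m ∈ Icc (-1 : ℝ) 1, 0 < cR N m := fun m hm => by
    linarith [(hbR m hm).1, abs_nonneg m]
  have hsT : (∫ m in (-1 : ℝ)..1, (1 / (cT N m) ^ 2 - (deriv (cT N) m) ^ 2 / (4 * g))) =
      (∫ m in (-1 : ℝ)..1, 1 / (cT N m) ^ 2) -
        (∫ m in (-1 : ℝ)..1, (deriv (cT N) m) ^ 2) / (4 * g) := by
    rw [intervalIntegral.integral_sub (int_inv (by norm_num) hgT.lip.continuousOn hposT)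
      ((int_sq (by norm_num) hgT.lip).div_const _), intervalIntegral.integral_div]
  have hsR : (∫ m in (-1 : ℝ)..1, (1 / (cR N m) ^ 2 - (deriv (cR N) m) ^ 2 / (4 * g))) =
      (∫ m in (-1 : ℝ)..1, 1 / (cR N m) ^ 2) -
        (∫ m in (-1 : ℝ)..1, (deriv (cR N) m) ^ 2) / (4 * g) := by
    rw [intervalIntegral.integral_sub (int_inv (by norm_num) hgR.lip.continuousOn hposR)
      ((int_sq (by norm_num) hgR.lip).div_const _), intervalIntegral.integral_div]
  rw [hsT] at hT1 hT2
  rw [hsR] at hR1 hR2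
  set T := ∫ m in (-1 : ℝ)..1, (deriv (cT N) m) ^ 2
  set R := ∫ m in (-1 : ℝ)..1, (deriv (cR N) m) ^ 2
  have hBT0 : 0 ≤ ∫ m in (-1 : ℝ)..1, 1 / (cT N m) ^ 2 :=
    intervalIntegral.integral_nonneg (by norm_num) (fun m _ => by positivity)
  have hBR0 : 0 ≤ ∫ m in (-1 : ℝ)..1, 1 / (cR N m) ^ 2 :=
    intervalIntegral.integral_nonneg (by norm_num) (fun m _ => by positivity)
  have hBTe : (∀ m ∈ Icc (-1 : ℝ) 1, cT N m = c0 m) →
      (∫ m in (-1 : ℝ)..1, 1 / (cT N m) ^ 2) = (√g * th + 1) / g := by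
    intro h
    rw [← int_c0]
    apply intervalIntegral.integral_congr
    intro m hm
    rw [uIcc_of_le (by norm_num)] at hm
    simp only [h m hm]
  have hBRe : (∀ m ∈ Icc (-1 : ℝ) 1, cR N m = c0 m) →
      (∫ m in (-1 : ℝ)..1, 1 / (cR N m) ^ 2) = (√g * th + 1) / g := by
    intro h
    rw [← int_c0]
    apply intervalIntegral.integral_congr
    intro m hm
    rw [uIcc_of_le (by norm_num)] at hm
    simp only [h m hm]
  set BT := ∫ m in (-1 : ℝ)..1, 1 / (cT N m) ^ 2
  set BR := ∫ m in (-1 : ℝ)..1, 1 / (cR N m) ^ 2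
  set Y := area (polar N) with hY
  set X := area N + 8 with hX
  have hY0 : 0 ≤ Y := ENNReal.toReal_nonneg
  have hX0 : 0 < X := by have : 0 ≤ area N := ENNReal.toReal_nonneg; linarith
  set U := (16 - T - R) / 4 with hU
  have hXU : X ≤ 4 * U := by rw [hU]; linarith
  have hS : U / g + Y ≤ 4 * (√g * th + 1) / g := by
    have e1 : 4 * (√g * th + 1) / g = 4 / g + (2 * th / √g + 2 * th / √g) := by
      have : √g * th / g = th / √g := by
        rw [div_eq_div_iff hg.ne' hr.ne']
        linear_combination th * hr2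
      calc 4 * (√g * th + 1) / g = 4 * (√g * th / g) + 4 / g := by ring
        _ = _ := by rw [this]; ring
    rw [e1, hU, hP]
    have e2 : (16 - T - R) / 4 / g = 4 / g - T / (4 * g) - R / (4 * g) := by
      field_simp
      ring
    rw [e2]
    linarith
  have hVal : Val = g * (4 * (√g * th + 1) / g) ^ 2 := by
    unfold Val; field_simp; ring
  have hS0 : 0 < 4 * (√g * th + 1) / g := by
    have := th_nonneg
    positivity
  have hUY : 4 * U * Y ≤ g * (U / g + Y) ^ 2 := by
    have : g * (U / g + Y) ^ 2 - 4 * U * Y = g * (U / g - Y) ^ 2 := by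
      field_simp; ring
    nlinarith [sq_nonneg (U / g - Y), mul_nonneg hg.le (sq_nonneg (U / g - Y))]
  have hU0 : 0 < U := by linarith
  have hUYp : 0 ≤ U / g + Y := by positivity
  have hsq : g * (U / g + Y) ^ 2 ≤ Val := by
    rw [hVal]
    have := pow_le_pow_left₀ hUYp hS 2
    exact mul_le_mul_of_nonneg_left this hg.le
  have hXY : X * Y ≤ 4 * U * Y := mul_le_mul_of_nonneg_right hXU hY0
  refine ⟨by linarith, fun hge => ?_⟩
  -- equality
  have hSeq : U / g + Y = 4 * (√g * th + 1) / g := by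
    by_contra hne
    have hlt : U / g + Y < 4 * (√g * th + 1) / g := lt_of_le_of_ne hS hne
    have : (U / g + Y) ^ 2 < (4 * (√g * th + 1) / g) ^ 2 := pow_lt_pow_left₀ hlt hUYp (by norm_num)
    have h2 : g * (U / g + Y) ^ 2 < Val := by
      rw [hVal]; exact mul_lt_mul_of_pos_left this hg
    linarith
  have hTe : BT - T / (4 * g) = 2 * th / √g ∧ BR - R / (4 * g) = 2 * th / √g := by
    have e1 : 4 * (√g * th + 1) / g = 4 / g + (2 * th / √g + 2 * th / √g) := by
      have : √g * th / g = th / √g := by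
        rw [div_eq_div_iff hg.ne' hr.ne']
        linear_combination th * hr2
      calc 4 * (√g * th + 1) / g = 4 * (√g * th / g) + 4 / g := by ring
        _ = _ := by rw [this]; ring
    rw [e1, hU, hP] at hSeq
    have e2 : (16 - T - R) / 4 / g = 4 / g - T / (4 * g) - R / (4 * g) := by
      field_simp
      ring
    rw [e2] at hSeq
    constructor <;> linarith
  have hcT := hT2 hTe.1
  have hcR := hR2 hTe.2
  have hsub : N ⊆ N0 := by
    intro p hp
    apply sub_N0
    intro m hm
    refine ⟨?_, ?_⟩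
    · rw [← hcT m hm]; exact hN.sq.abs_le m hp
    · rw [← hcR m hm, cR_eq]
      have h1 : p.swap ∈ Prod.swap ⁻¹' N := by simpa using hp
      have := hN.sq.swap.abs_le (-m) h1
      simpa using this
  have hYv : Y = 2 * ((√g * th + 1) / g) := by
    rw [hP, hBTe hcT, hBRe hcR]; ring
  have hYp : 0 < Y := by
    rw [hYv]; have := th_nonneg; positivity
  have hXv : 8 * (1 + √g * th) ≤ X := by
    have h1 : 8 * (1 + √g * th) * Y = Val := by
      rw [hYv]; unfold Val; field_simp; ring
    rw [← h1] at hge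
    exact le_of_mul_le_mul_right hge hYp
  apply subset_eq hN.1.2.1 N0_nrm.1 hsub
  rw [area_N0]
  linarith

end Pool.Agent.R166.HT
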