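import Pool.Agent.R166.HT.Fin

set_option autoImplicit false

namespace Pool.Agent.R166.HT

open MeasureTheory Set AreaAux

/-! ### linear maps of the plane -/

/-- the linear map with matrix `!![a, b; c, d]` -/
noncomputable def lin (a b c d : ℝ) : P →ₗ[ℝ] P :=
  Matrix.toLin (Module.Basis.finTwoProd ℝ) (Module.Basis.finTwoProd ℝ) !![a, b; c, d]

lemma lin_apply (a b c d : ℝ) (x : P) : lin a b c d x = (a * x.1 + b * x.2, c * x.1 + d * x.2) :=
  Matrix.toLin_finTwoProd_apply a b c d x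

lemma det_lin (a b c d : ℝ) : LinearMap.det (lin a b c d) = a * d - b * c := by
  unfold lin
  rw [LinearMap.det_toLin, Matrix.det_fin_two_of]

lemma exists_lin (L : P →ₗ[ℝ] P) : ∃ a b c d : ℝ, L = lin a b c d := by
  refine ⟨(L (1, 0)).1, (L (0, 1)).1, (L (1, 0)).2, (L (0, 1)).2, ?_⟩
  apply LinearMap.ext
  rintro ⟨x, y⟩
  rw [lin_apply]
  have : ((x, y) : P) = x • (1, 0) + y • (0, 1) := by simp
  rw [this, map_add, map_smul, map_smul]
  simp only [Prod.smul_mk, smul_eq_mul, mul_one, mul_zero, Prod.mk_add_mk, add_zero, zero_add]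
  ext
  · simp; ring
  · simp; ring

lemma area_lin (a b c d : ℝ) (M : Set P) :
    area (lin a b c d '' M) = |a * d - b * c| * area M := by
  unfold area
  rw [Measure.addHaar_image_linearMap, det_lin, ENNReal.toReal_mul,
    ENNReal.toReal_ofReal (abs_nonneg _)]

lemma polar_lin (a b c d : ℝ) (M : Set P) :
    polar (lin a b c d '' M) = lin a c b d ⁻¹' polar M := by
  ext y
  unfold polar
  constructor
  · intro h x hx
    have := h _ ⟨x, hx, rfl⟩
    rw [lin_apply] at this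
    rw [lin_apply]
    simp only at this ⊢
    linarith
  · rintro h _ ⟨x, hx, rfl⟩
    have := h x hx
    rw [lin_apply] at this
    rw [lin_apply]
    simp only at this ⊢
    linarith

lemma area_polar_lin {a b c d : ℝ} (hD : a * d - b * c ≠ 0) (M : Set P) :
    area (polar (lin a b c d '' M)) = area (polar M) / |a * d - b * c| := by
  unfold area
  rw [polar_lin, Measure.addHaar_preimage_linearMap _ (by rw [det_lin]; intro h; apply hD; linarith),
    det_lin, ENNReal.toReal_mul, ENNReal.toReal_ofReal (abs_nonneg _), abs_inv,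
    mul_comm c b]
  field_simp

lemma cross_lin (a b c d : ℝ) (x y : P) :
    cross (lin a b c d x) (lin a b c d y) = (a * d - b * c) * cross x y := by
  unfold cross
  rw [lin_apply, lin_apply]
  simp only
  ring

lemma area_shift (v : P) (K : Set P) : area (shift v K) = area K := by
  unfold area shift
  congr 1
  rw [image_add_left, measure_preimage_add]

lemma relBall_shift_lin (L : P →ₗ[ℝ] P) (v : P) (K : Set P) :
    relBall ((fun x => v + L x) '' K) = L '' relBall K := by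
  ext z
  constructor
  · rintro ⟨_, ⟨x, hx, rfl⟩, _, ⟨y, hy, rfl⟩, rfl⟩
    refine ⟨(1 / 2 : ℝ) • (x - y), ⟨x, hx, y, hy, rfl⟩, ?_⟩
    rw [map_smul, map_sub]
    congr 1
    simp
  · rintro ⟨_, ⟨x, hx, y, hy, rfl⟩, rfl⟩
    refine ⟨_, ⟨x, hx, rfl⟩, _, ⟨y, hy, rfl⟩, ?_⟩
    rw [map_smul, map_sub]
    congr 1
    simp

lemma relBall_sym {M : Set P} (hc : Convex ℝ M) (hs : ∀ x ∈ M, -x ∈ M) : relBall M = M := by
  ext z
  constructor
  · rintro ⟨x, hx, y, hy, rfl⟩
    have := hc hx (hs y hy) (by norm_num : (0 : ℝ) ≤ 1 / 2) (by norm_num : (0 : ℝ) ≤ 1 / 2)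
      (by norm_num)
    convert this using 1
    rw [smul_sub, smul_neg, sub_eq_add_neg]
  · intro hz
    refine ⟨z, hz, -z, hs z hz, ?_⟩
    rw [sub_neg_eq_add, ← two_smul ℝ z, smul_smul]
    norm_num

lemma rel_neg {K : Set P} {z : P} (hz : z ∈ relBall K) : -z ∈ relBall K := by
  obtain ⟨x, hx, y, hy, rfl⟩ := hz
  exact ⟨y, hy, x, hx, by rw [← smul_neg, neg_sub]⟩

lemma rel_compact {K : Set P} (hc : IsCompact K) : IsCompact (relBall K) := BM.compact_relBall hc

lemma rel_convex {K : Set P} (hc : Convex ℝ K) : Convex ℝ (relBall K) := BM.convex_relBall hc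

lemma rel_nonempty {K : Set P} (h : IsBody K) : (relBall K).Nonempty := by
  obtain ⟨x, hx⟩ := h.2.2
  exact ⟨_, x, interior_subset hx, x, interior_subset hx, rfl⟩

lemma cross_cont : Continuous (fun p : P × P => |cross p.1 p.2|) := by
  unfold cross
  fun_prop

/-- for every `z` there is a point of `relBall K` maximising `|cross z ·|` -/
lemma exists_max1 {K : Set P} (h : IsBody K) (z : P) :
    ∃ y₀ ∈ relBall K, ∀ y ∈ relBall K, |cross z y| ≤ |cross z y₀| := by
  have hc : Continuous (fun y : P => |cross z y|) :=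
    cross_cont.comp (Continuous.prodMk_right z)
  obtain ⟨y₀, h1, h2⟩ := (rel_compact h.2.1).exists_isMaxOn (rel_nonempty h) hc.continuousOn
  exact ⟨y₀, h1, fun y hy => h2 hy⟩

lemma exists_max2 {K : Set P} (h : IsBody K) :
    ∃ z₀ ∈ relBall K, ∃ y₀ ∈ relBall K, ∀ z ∈ relBall K, ∀ y ∈ relBall K,
      |cross z y| ≤ |cross z₀ y₀| := by
  obtain ⟨⟨z₀, y₀⟩, h1, h2⟩ := ((rel_compact h.2.1).prod (rel_compact h.2.1)).exists_isMaxOn
    ((rel_nonempty h).prod (rel_nonempty h)) cross_cont.continuousOn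
  exact ⟨z₀, h1.1, y₀, h1.2, fun z hz y hy => h2 (show (z, y) ∈ _ from ⟨hz, hy⟩)⟩

lemma mem_hulls_iff {K : Set P} {p : P} :
    (shift p K ∩ K).Nonempty ↔ (1 / 2 : ℝ) • p ∈ relBall K := by
  constructor
  · rintro ⟨_, ⟨y, hy, rfl⟩, hx⟩
    exact ⟨_, hx, y, hy, by simp⟩
  · rintro ⟨x, hx, y, hy, h⟩
    have h2 : p = x - y := by
      have := congrArg (fun t => (2 : ℝ) • t) h
      simp only [smul_smul] at this
      norm_num at this
      exact this
    refine ⟨x, ⟨y, hy, ?_⟩, hx⟩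
    simp [h2]

lemma hull_val (hHull : StmtHull) {K : Set P} (h : IsBody K) {z y₀ : P} (hy₀ : y₀ ∈ relBall K)
    (hmax : ∀ y ∈ relBall K, |cross z y| ≤ |cross z y₀|) :
    volHT (relBall K) (convexHull ℝ (K ∪ shift ((2 : ℝ) • z) K)) =
      (area K + 4 * |cross z y₀|) * area (polar (relBall K)) / Real.pi := by
  unfold volHT
  rw [hHull K h z y₀ hy₀ hmax]

/-- the greatest element of `hulls K` -/
lemma greatest (hHull : StmtHull) {K : Set P} (h : IsBody K) {z₀ y₀ : P} (hz₀ : z₀ ∈ relBall K)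
    (hy₀ : y₀ ∈ relBall K)
    (hmax : ∀ z ∈ relBall K, ∀ y ∈ relBall K, |cross z y| ≤ |cross z₀ y₀|) :
    IsGreatest (hulls K) ((area K + 4 * |cross z₀ y₀|) * area (polar (relBall K)) / Real.pi) := by
  constructor
  · refine ⟨(2 : ℝ) • z₀, mem_hulls_iff.2 (by rw [smul_smul]; norm_num; exact hz₀), ?_⟩
    rw [hull_val hHull h hy₀ (hmax z₀ hz₀)]
  · rintro _ ⟨p, hp, rfl⟩
    have hz := mem_hulls_iff.1 hp
    set z := (1 / 2 : ℝ) • p with hzdef
    have hpz : p = (2 : ℝ) • z := by rw [hzdef, smul_smul]; norm_num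
    obtain ⟨y₁, hy₁, hm₁⟩ := exists_max1 h z
    rw [hpz, hull_val hHull h hy₁ hm₁]
    have h1 := hmax z hz y₁ hy₁
    have h2 : 0 ≤ area (polar (relBall K)) := ENNReal.toReal_nonneg
    have := Real.pi_pos
    gcongr

/-- normalisation: the image of `relBall K` under a linear map is normalised -/
lemma normalise {K : Set P} (h : IsBody K) :
    ∃ z₀ ∈ relBall K, ∃ y₀ ∈ relBall K, (∀ z ∈ relBall K, ∀ y ∈ relBall K,
      |cross z y| ≤ |cross z₀ y₀|) ∧ 0 < cross z₀ y₀ ∧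
    ∃ a b c d : ℝ, a * d - b * c = 2 / cross z₀ y₀ ∧ Nrm (lin a b c d '' relBall K) := by
  obtain ⟨z₀, hz₀, y₁, hy₁, hmax⟩ := exists_max2 h
  -- choose the sign
  obtain ⟨y₀, hy₀, hcr, hpos0⟩ : ∃ y₀ ∈ relBall K, |cross z₀ y₀| = |cross z₀ y₁| ∧
      0 ≤ cross z₀ y₀ := by
    rcases le_total 0 (cross z₀ y₁) with h0 | h0
    · exact ⟨y₁, hy₁, rfl, h0⟩
    · refine ⟨-y₁, rel_neg hy₁, ?_, ?_⟩
      · have : cross z₀ (-y₁) = - cross z₀ y₁ := by unfold cross; simp; ring
        rw [this, abs_neg]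
      · have : cross z₀ (-y₁) = - cross z₀ y₁ := by unfold cross; simp; ring
        rw [this]; linarith
  rw [← hcr] at hmax
  -- positivity
  have hpos : 0 < cross z₀ y₀ := by
    rcases hpos0.lt_or_eq with h0 | h0
    · exact h0
    exfalso
    obtain ⟨x, hx⟩ := h.2.2
    have hx' := interior_subset hx
    rw [mem_interior_iff_mem_nhds, Metric.mem_nhds_iff] at hx
    obtain ⟨ε, hε, hball⟩ := hx
    have h1 : x + (ε / 2, 0) ∈ K := by
      apply hball
      rw [Metric.mem_ball, dist_eq_norm]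
      simp only [add_sub_cancel_left, Prod.norm_def, Real.norm_eq_abs, abs_zero]
      rw [abs_of_pos (by linarith)]
      rw [max_eq_left (by linarith)]
      linarith
    have h2 : x + (0, ε / 2) ∈ K := by
      apply hball
      rw [Metric.mem_ball, dist_eq_norm]
      simp only [add_sub_cancel_left, Prod.norm_def, Real.norm_eq_abs, abs_zero]
      rw [abs_of_pos (by linarith)]
      rw [max_eq_right (by linarith)]
      linarith
    have h3 := hmax _ ⟨_, h1, x, hx', rfl⟩ _ ⟨_, h2, x, hx', rfl⟩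
    rw [← h0] at h3
    unfold cross at h3
    simp only [add_sub_cancel_left, Prod.smul_mk, smul_eq_mul, mul_zero, abs_zero] at h3
    have h4 := abs_nonpos_iff.1 h3
    nlinarith
  refine ⟨z₀, hz₀, y₀, hy₀, hmax, hpos, ?_⟩
  set Δ := cross z₀ y₀ with hΔ
  have hΔe : z₀.1 * y₀.2 - z₀.2 * y₀.1 = Δ := rfl
  refine ⟨(y₀.2 + z₀.2) / Δ, -(y₀.1 + z₀.1) / Δ, (y₀.2 - z₀.2) / Δ, (z₀.1 - y₀.1) / Δ, ?_, ?_⟩
  · have : (y₀.2 + z₀.2) / Δ * ((z₀.1 - y₀.1) / Δ) - -(y₀.1 + z₀.1) / Δ * ((y₀.2 - z₀.2) / Δ) =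
        2 * (z₀.1 * y₀.2 - z₀.2 * y₀.1) / Δ ^ 2 := by
      field_simp; ring
    rw [this, hΔe]
    field_simp
  set B := lin ((y₀.2 + z₀.2) / Δ) (-(y₀.1 + z₀.1) / Δ) ((y₀.2 - z₀.2) / Δ) ((z₀.1 - y₀.1) / Δ)
    with hB
  have hBz : B z₀ = (1, 1) := by
    rw [hB, lin_apply]
    ext
    · simp only
      field_simp
      linarith
    · simp only
      field_simp
      linarith
  have hBy : B y₀ = (-1, 1) := by
    rw [hB, lin_apply]
    ext
    · simp only
      field_simp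
      linarith
    · simp only
      field_simp
      linarith
  have hsym : ∀ x ∈ B '' relBall K, -x ∈ B '' relBall K := by
    rintro _ ⟨x, hx, rfl⟩
    exact ⟨-x, rel_neg hx, by rw [map_neg]⟩
  have hm1 : ((1, 1) : P) ∈ B '' relBall K := ⟨z₀, hz₀, hBz⟩
  have hm2 : ((-1, 1) : P) ∈ B '' relBall K := ⟨y₀, hy₀, hBy⟩
  have hconv : Convex ℝ (B '' relBall K) := (rel_convex h.1).linear_image B
  have hcomp : IsCompact (B '' relBall K) :=
    (rel_compact h.2.1).image (LinearMap.continuous_of_finiteDimensional B)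
  have hbd : ∀ x ∈ B '' relBall K, |x.1| + |x.2| ≤ 2 := by
    rintro _ ⟨x, hx, rfl⟩
    have hdet : (y₀.2 + z₀.2) / Δ * ((z₀.1 - y₀.1) / Δ) -
        -(y₀.1 + z₀.1) / Δ * ((y₀.2 - z₀.2) / Δ) = 2 / Δ := by
      have : (y₀.2 + z₀.2) / Δ * ((z₀.1 - y₀.1) / Δ) - -(y₀.1 + z₀.1) / Δ * ((y₀.2 - z₀.2) / Δ) =
          2 * (z₀.1 * y₀.2 - z₀.2 * y₀.1) / Δ ^ 2 := by
        field_simp; ring
      rw [this, hΔe]
      field_simp
    have e1 : cross (B x) (1, 1) = 2 / Δ * cross x z₀ := by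
      rw [← hBz, hB, cross_lin, hdet]
    have e2 : cross (B x) (-1, 1) = 2 / Δ * cross x y₀ := by
      rw [← hBy, hB, cross_lin, hdet]
    have hΔa : |Δ| = Δ := abs_of_pos hpos
    have h1 : |cross (B x) (1, 1)| ≤ 2 := by
      rw [e1, abs_mul, abs_of_pos (by positivity)]
      have := hmax x hx z₀ hz₀
      rw [hΔa] at this
      calc 2 / Δ * |cross x z₀| ≤ 2 / Δ * Δ := by gcongr
        _ = 2 := by field_simp
    have h2 : |cross (B x) (-1, 1)| ≤ 2 := by
      rw [e2, abs_mul, abs_of_pos (by positivity)]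
      have := hmax x hx y₀ hy₀
      rw [hΔa] at this
      calc 2 / Δ * |cross x y₀| ≤ 2 / Δ * Δ := by gcongr
        _ = 2 := by field_simp
    unfold cross at h1 h2
    simp only [mul_one, mul_neg, sub_neg_eq_add] at h1 h2
    rw [abs_le] at h1 h2
    rcases abs_cases (B x).1 with hx' | hx' <;> rcases abs_cases (B x).2 with hy' | hy' <;>
      linarith
  have hsq : Sq (B '' relBall K) := ⟨hsym, hm1, hm2, hbd⟩
  refine ⟨⟨hconv, hcomp, ?_⟩, hsym, hm1, hm2, hbd⟩
  refine ⟨(0, 0), ?_⟩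
  rw [mem_interior]
  refine ⟨Ioo (-1 : ℝ) 1 ×ˢ Ioo (-1 : ℝ) 1, ?_, isOpen_Ioo.prod isOpen_Ioo, ?_⟩
  · exact (prod_mono Ioo_subset_Icc_self Ioo_subset_Icc_self).trans (hsq.square hconv)
  · constructor <;> constructor <;> norm_num

end Pool.Agent.R166.HT
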