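import Pool.Agent.R166.HT.Fin2

set_option autoImplicit false

namespace Pool.Agent.R166.HT

open MeasureTheory Set AreaAux

/-! ### the body `M0` -/

lemma s2 : √(2 : ℝ) ^ 2 = 2 := Real.sq_sqrt (by norm_num)
lemma s2p : 0 < √(2 : ℝ) := Real.sqrt_pos.2 (by norm_num)

/-- the homothety with factor `√2` -/
noncomputable def sc : P →ₗ[ℝ] P := lin (√2) 0 0 (√2)

lemma sc_apply (x : P) : sc x = (√2 * x.1, √2 * x.2) := by
  unfold sc; rw [lin_apply]; simp

lemma mem_M0 (x : P) : x ∈ M0 ↔ sc x ∈ N0 := by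
  have h2 := s2
  have hp := s2p
  have hg := g_pos
  have e1 : ∀ t : ℝ, |√2 * t| ≤ 1 ↔ |t| ≤ 1 / √2 := by
    intro t
    rw [abs_mul, abs_of_pos hp, le_div_iff₀ hp, mul_comm]
  have e2 : ∀ s t : ℝ, (√2 * s) ^ 2 / g ^ 2 + g * (√2 * t) ^ 2 ≤ 2 ↔
      s ^ 2 / g ^ 2 + g * t ^ 2 ≤ 1 := by
    intro s t
    have : (√2 * s) ^ 2 / g ^ 2 + g * (√2 * t) ^ 2 = 2 * (s ^ 2 / g ^ 2 + g * t ^ 2) := by
      rw [mul_pow, mul_pow, h2]; ring
    rw [this]
    constructor <;> intro h <;> linarith
  rw [sc_apply]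
  constructor
  · rintro (⟨h1, h3⟩ | ⟨h1, h3⟩)
    · exact Or.inl ⟨(e1 _).2 h1, (e2 _ _).2 h3⟩
    · exact Or.inr ⟨(e1 _).2 h1, (e2 _ _).2 h3⟩
  · rintro (⟨h1, h3⟩ | ⟨h1, h3⟩)
    · exact Or.inl ⟨(e1 _).1 h1, (e2 _ _).1 h3⟩
    · exact Or.inr ⟨(e1 _).1 h1, (e2 _ _).1 h3⟩

lemma sc_M0 : sc '' M0 = N0 := by
  ext y
  constructor
  · rintro ⟨x, hx, rfl⟩
    exact (mem_M0 x).1 hx
  · intro hy
    have h2 := s2
    have hp := s2p
    refine ⟨(y.1 / √2, y.2 / √2), ?_, ?_⟩
    · rw [mem_M0, sc_apply]
      convert hy using 1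
      ext <;> simp <;> field_simp
    · rw [sc_apply]
      ext <;> simp <;> field_simp

lemma M0_sc : M0 = lin (1 / √2) 0 0 (1 / √2) '' N0 := by
  rw [← sc_M0, image_image]
  have : (fun x => lin (1 / √2) 0 0 (1 / √2) (sc x)) = id := by
    funext x
    have hp := s2p
    rw [sc_apply, lin_apply]
    ext <;> simp
  rw [this, image_id]

lemma M0_body : IsBody M0 := by
  have hc : Continuous (sc : P → P) := LinearMap.continuous_of_finiteDimensional sc
  refine ⟨?_, ?_, ?_⟩
  · rw [M0_sc]; exact N0_convex.linear_image _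
  · rw [M0_sc]; exact N0_compact.image (LinearMap.continuous_of_finiteDimensional _)
  · obtain ⟨x, hx⟩ := N0_interior
    have hx0 := interior_subset hx
    rw [← sc_M0] at hx0
    obtain ⟨y, hy, rfl⟩ := hx0
    refine ⟨y, ?_⟩
    rw [mem_interior]
    refine ⟨sc ⁻¹' interior N0, ?_, isOpen_interior.preimage hc, hx⟩
    intro z hz
    rw [mem_M0]
    exact interior_subset hz

lemma M0_neg {x : P} (hx : x ∈ M0) : -x ∈ M0 := by
  rw [mem_M0] at hx ⊢
  rw [map_neg]
  exact N0_neg hx

lemma area_M0 : area M0 = 4 * (√g * th) := by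
  rw [M0_sc, area_lin, area_N0]
  have hp := s2p
  have h2 := s2
  have : |1 / √2 * (1 / √2) - 0 * 0| = (1 : ℝ) / 2 := by
    rw [abs_of_pos (by rw [zero_mul, sub_zero]; positivity)]
    field_simp
    linarith
  rw [this]; ring

lemma area_polar_M0 (hPolar : StmtPolar) : area (polar M0) = 4 * (√g * th + 1) / g := by
  have hp := s2p
  have h2 := s2
  have h1 : 1 / √2 * (1 / √2) - 0 * 0 = (1 : ℝ) / 2 := by
    rw [zero_mul, sub_zero]
    field_simp
    linarith
  rw [M0_sc, area_polar_lin (by rw [h1]; norm_num), h1, hPolar N0 N0_nrm]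
  have hT : (∫ m in (-1 : ℝ)..1, 1 / (cT N0 m) ^ 2) = (√g * th + 1) / g := by
    rw [← int_c0]
    apply intervalIntegral.integral_congr
    intro m hm
    rw [uIcc_of_le (by norm_num)] at hm
    simp only [cT_N0 hm]
  have hR : (∫ m in (-1 : ℝ)..1, 1 / (cR N0 m) ^ 2) = (√g * th + 1) / g := by
    rw [← int_c0]
    apply intervalIntegral.integral_congr
    intro m hm
    rw [uIcc_of_le (by norm_num)] at hm
    simp only [cR_N0 hm]
  rw [hT, hR, abs_of_pos (by norm_num)]
  ring

lemma corner_M0 {s t : ℝ} (hs : s ^ 2 = 1) (ht : t ^ 2 = 1) : ((s / √2, t / √2) : P) ∈ M0 := by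
  rw [mem_M0, sc_apply]
  have hp := s2p
  have := corner hs ht
  convert this using 1
  ext <;> simp <;> field_simp

lemma M0_sum {x : P} (hx : x ∈ M0) : |x.1| + |x.2| ≤ √2 := by
  rw [mem_M0, sc_apply] at hx
  have h := N0_sum hx
  have hp := s2p
  have h2 := s2
  simp only [abs_mul, abs_of_pos hp] at h
  nlinarith

/-- the upper bound -/
lemma upper (hHull : StmtHull) (hPolar : StmtPolar) {K : Set P} (h : IsBody K) :
    IsGreatest (hulls K) (cHT K) ∧ cHT K ≤ Val / Real.pi ∧
    (Val / Real.pi ≤ cHT K → ∃ (L : P ≃ₗ[ℝ] P) (v : P), K = (fun x => v + L x) '' M0) := by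
  obtain ⟨z₀, hz₀, y₀, hy₀, hmax, hpos, a, b, c, d, hdet, hN⟩ := normalise h
  have hgr := greatest hHull h hz₀ hy₀ hmax
  have hval : cHT K = (area K + 4 * |cross z₀ y₀|) * area (polar (relBall K)) / Real.pi :=
    hgr.csSup_eq
  set Δ := cross z₀ y₀ with hΔ
  rw [abs_of_pos hpos] at hgr hval
  obtain ⟨hBM1, hBM2⟩ := bmEq K h
  have hD : a * d - b * c ≠ 0 := by rw [hdet]; positivity
  have hDa : |a * d - b * c| = 2 / Δ := by rw [hdet, abs_of_pos (by positivity)]
  have hA : area (lin a b c d '' relBall K) = 2 / Δ * area (relBall K) := by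
    rw [area_lin, hDa]
  have hPl : area (polar (lin a b c d '' relBall K)) = area (polar (relBall K)) / (2 / Δ) := by
    rw [area_polar_lin hD, hDa]
  obtain ⟨hc1, hc2⟩ := core hPolar hN
  have hpi := Real.pi_pos
  have hpn : 0 ≤ area (polar (lin a b c d '' relBall K)) := ENNReal.toReal_nonneg
  have hkey : (area K + 4 * Δ) * area (polar (relBall K)) =
      (2 / Δ * area K + 8) * area (polar (lin a b c d '' relBall K)) := by
    rw [hPl]
    field_simp
    ring
  have hle : (2 / Δ * area K + 8) * area (polar (lin a b c d '' relBall K)) ≤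
      (area (lin a b c d '' relBall K) + 8) * area (polar (lin a b c d '' relBall K)) := by
    rw [hA]
    have : 2 / Δ * area K ≤ 2 / Δ * area (relBall K) :=
      mul_le_mul_of_nonneg_left hBM1 (by positivity)
    exact mul_le_mul_of_nonneg_right (by linarith) hpn
  refine ⟨hval ▸ hgr, ?_, fun hge => ?_⟩
  · rw [hval, hkey]
    gcongr
    linarith
  · rw [hval, hkey] at hge
    have hge2 : Val ≤ (2 / Δ * area K + 8) * area (polar (lin a b c d '' relBall K)) := by
      rwa [div_le_div_iff_of_pos_right hpi] at hge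
    have hN0 := hc2 (hge2.trans hle)
    have hVp := Val_pos
    have hpp : 0 < area (polar (lin a b c d '' relBall K)) := by
      rcases hpn.lt_or_eq with h0 | h0
      · exact h0
      · rw [← h0, mul_zero] at hge2; linarith
    have hareas : area (relBall K) ≤ area K := by
      have h1 : (area (lin a b c d '' relBall K) + 8) * area (polar (lin a b c d '' relBall K)) ≤
          (2 / Δ * area K + 8) * area (polar (lin a b c d '' relBall K)) := hc1.trans hge2
      have h2 := le_of_mul_le_mul_right h1 hpp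
      rw [hA] at h2
      have h3 : 2 / Δ * area (relBall K) ≤ 2 / Δ * area K := by linarith
      exact le_of_mul_le_mul_left h3 (by positivity)
    obtain ⟨v, hv⟩ := hBM2 hareas
    -- invert the linear map
    have hu : IsUnit (LinearMap.det (lin a b c d)) := by
      rw [det_lin]; exact hD.isUnit
    set B := LinearEquiv.ofIsUnitDet (f := lin a b c d) (v := Module.Basis.finTwoProd ℝ)
      (v' := Module.Basis.finTwoProd ℝ) (by
        have : LinearMap.toMatrix (Module.Basis.finTwoProd ℝ) (Module.Basis.finTwoProd ℝ)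
          (lin a b c d) = !![a, b; c, d] := by
          unfold lin; exact LinearMap.toMatrix_toLin _ _ _
        rw [this, Matrix.det_fin_two_of]
        exact hD.isUnit) with hB
    have hBapp : ∀ x, B x = lin a b c d x := fun x => rfl
    have hSu : IsUnit ((LinearMap.toMatrix (Module.Basis.finTwoProd ℝ)
        (Module.Basis.finTwoProd ℝ) sc).det) := by
      have : LinearMap.toMatrix (Module.Basis.finTwoProd ℝ) (Module.Basis.finTwoProd ℝ)
          sc = !![√2, 0; 0, √2] := by
          unfold sc lin; exact LinearMap.toMatrix_toLin _ _ _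
      rw [this, Matrix.det_fin_two_of]
      have hp := s2p
      have : √2 * √2 - 0 * 0 ≠ (0 : ℝ) := by
        rw [zero_mul, sub_zero]; positivity
      exact this.isUnit
    set S := LinearEquiv.ofIsUnitDet hSu with hS
    have hSapp : ∀ x, S x = sc x := fun x => rfl
    refine ⟨S.trans B.symm, v, ?_⟩
    have hrel : relBall K = (fun x => (S.trans B.symm) x) '' M0 := by
      have h1 : lin a b c d '' relBall K = sc '' M0 := by rw [hN0, sc_M0]
      ext x
      constructor
      · intro hx
        have : lin a b c d x ∈ sc '' M0 := by rw [← h1]; exact ⟨x, hx, rfl⟩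
        obtain ⟨y, hy, hyx⟩ := this
        refine ⟨y, hy, ?_⟩
        simp only [LinearEquiv.trans_apply]
        rw [LinearEquiv.symm_apply_eq, hBapp, hSapp, hyx]
      · rintro ⟨y, hy, rfl⟩
        have : sc y ∈ lin a b c d '' relBall K := by rw [h1]; exact ⟨y, hy, rfl⟩
        obtain ⟨x, hx, hxy⟩ := this
        have : (S.trans B.symm) y = x := by
          simp only [LinearEquiv.trans_apply]
          rw [LinearEquiv.symm_apply_eq, hBapp, hSapp, hxy]
        show (S.trans B.symm) y ∈ relBall K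
        rw [this]; exact hx
    rw [hv]
    nth_rw 1 [hrel]
    unfold shift
    rw [image_image]

/-- the value at the affine images of `M0` -/
lemma lower (hHull : StmtHull) (hPolar : StmtPolar) (L : P ≃ₗ[ℝ] P) (v : P) :
    IsBody ((fun x => v + L x) '' M0) ∧ Val / Real.pi ≤ cHT ((fun x => v + L x) '' M0) := by
  set K := (fun x => v + L x) '' M0 with hK
  have hKs : K = shift v (L '' M0) := by
    unfold shift; rw [image_image]
  have hLc : Continuous (L : P → P) := LinearMap.continuous_of_finiteDimensional (L : P →ₗ[ℝ] P)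
  have hLsc : Continuous (L.symm : P → P) :=
    LinearMap.continuous_of_finiteDimensional (L.symm : P →ₗ[ℝ] P)
  have hbody : IsBody K := by
    refine ⟨?_, ?_, ?_⟩
    · rw [hKs]
      have h1 : Convex ℝ (L '' M0) := M0_body.1.linear_image (L : P →ₗ[ℝ] P)
      unfold shift
      exact h1.translate v
    · exact M0_body.2.1.image (continuous_const.add hLc)
    · obtain ⟨x, hx⟩ := M0_body.2.2
      refine ⟨v + L x, ?_⟩
      rw [mem_interior]
      refine ⟨(fun y => L.symm (y - v)) ⁻¹' interior M0, ?_,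
        isOpen_interior.preimage (hLsc.comp (continuous_id.sub continuous_const)), ?_⟩
      · intro y hy
        refine ⟨L.symm (y - v), interior_subset hy, ?_⟩
        simp
      · simpa using hx
  refine ⟨hbody, ?_⟩
  obtain ⟨a, b, c, d, hL⟩ := exists_lin (L : P →ₗ[ℝ] P)
  have hLa : ∀ x, L x = lin a b c d x := fun x => by
    have := congrArg (fun f : P →ₗ[ℝ] P => f x) hL
    simpa using this
  have hD : a * d - b * c ≠ 0 := by
    have h1 : LinearMap.det (L : P →ₗ[ℝ] P) ≠ 0 := (LinearEquiv.isUnit_det' L).ne_zero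
    rwa [hL, det_lin] at h1
  have hrel : relBall K = lin a b c d '' M0 := by
    have h1 := relBall_shift_lin (L : P →ₗ[ℝ] P) v M0
    have h2 : relBall M0 = M0 := relBall_sym M0_body.1 (fun x hx => M0_neg hx)
    rw [h2, hL] at h1
    rw [hK, ← h1]
    congr 1
    ext x
    simp only [hLa]
  have hareaK : area K = |a * d - b * c| * area M0 := by
    rw [hKs, area_shift]
    have : (L '' M0 : Set P) = lin a b c d '' M0 := by
      ext x
      constructor
      · rintro ⟨y, hy, rfl⟩; exact ⟨y, hy, (hLa y).symm⟩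
      · rintro ⟨y, hy, rfl⟩; exact ⟨y, hy, hLa y⟩
    rw [this, area_lin]
  have hp := s2p
  have h2s := s2
  set z : P := (1 / √2, 1 / √2)
  set y : P := (-1 / √2, 1 / √2)
  have hz : z ∈ M0 := corner_M0 (by norm_num) (by norm_num)
  have hy : y ∈ M0 := corner_M0 (by norm_num) (by norm_num)
  have hcr : cross z y = 1 := by
    unfold cross
    simp only [z, y]
    field_simp
    linarith
  have hmaxz : ∀ x ∈ M0, |cross z x| ≤ 1 := by
    intro x hx
    have h1 := M0_sum hx
    have h3 : cross z x = (x.2 - x.1) / √2 := by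
      unfold cross; simp only [z]; ring
    rw [h3, abs_div, abs_of_pos hp, div_le_one hp]
    have := abs_sub x.2 x.1
    calc |x.2 - x.1| ≤ |x.2| + |x.1| := abs_sub _ _
      _ ≤ √2 := by linarith
  have hmax : ∀ w ∈ relBall K, |cross (lin a b c d z) w| ≤
      |cross (lin a b c d z) (lin a b c d y)| := by
    rw [hrel]
    rintro _ ⟨x, hx, rfl⟩
    rw [cross_lin, cross_lin, abs_mul, abs_mul, hcr, abs_one, mul_one]
    exact mul_le_of_le_one_right (abs_nonneg _) (hmaxz x hx)
  have hyr : lin a b c d y ∈ relBall K := by rw [hrel]; exact ⟨y, hy, rfl⟩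
  have hzr : lin a b c d z ∈ relBall K := by rw [hrel]; exact ⟨z, hz, rfl⟩
  have hval := hull_val hHull hbody hyr hmax
  have hin : volHT (relBall K) (convexHull ℝ (K ∪ shift ((2 : ℝ) • lin a b c d z) K)) ∈
      hulls K := ⟨_, mem_hulls_iff.2 (by rw [smul_smul]; norm_num; exact hzr), rfl⟩
  have hle := (upper hHull hPolar hbody).1.2 hin
  rw [hval, cross_lin, hcr, mul_one, hareaK, hrel, area_polar_lin hD] at hle
  refine le_trans (le_of_eq ?_) hle
  congr 1
  have hDp : 0 < |a * d - b * c| := abs_pos.2 hD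
  rw [area_M0, area_polar_M0 hPolar]
  unfold Val
  have hg := g_pos
  field_simp
  ring

/-- MP_b5ed04_co, given the two remaining area formulas -/
theorem main (hHull : StmtHull) (hPolar : StmtPolar) :
    (∀ K : Set P, IsBody K → IsGreatest (hulls K) (cHT K)) ∧ IsBody M0 ∧
    cHT M0 = 16 * (1 + √g * th) ^ 2 / (Real.pi * g) ∧
    ∀ K : Set P, IsBody K → ((∀ K' : Set P, IsBody K' → cHT K' ≤ cHT K) ↔
      ∃ (L : P ≃ₗ[ℝ] P) (v : P), K = (fun x => v + L x) '' M0) := by
  have h0 : (fun x => (0 : P) + (LinearEquiv.refl ℝ P) x) '' M0 = M0 := by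
    simp
  refine ⟨fun K hK => (upper hHull hPolar hK).1, M0_body, ?_, fun K hK => ⟨fun hmax => ?_, ?_⟩⟩
  · have h1 := (lower hHull hPolar (LinearEquiv.refl ℝ P) 0).2
    rw [h0] at h1
    have h2 := (upper hHull hPolar M0_body).2.1
    rw [le_antisymm h2 h1]
    unfold Val
    have := g_pos
    have := Real.pi_pos
    field_simp
  · have h1 := (lower hHull hPolar (LinearEquiv.refl ℝ P) 0).2
    rw [h0] at h1
    exact (upper hHull hPolar hK).2.2 (h1.trans (hmax M0 M0_body))
  · rintro ⟨L, v, rfl⟩ K' hK'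
    exact (upper hHull hPolar hK').2.1.trans (lower hHull hPolar L v).2

end Pool.Agent.R166.HT
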