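import Pool.Agent.R166.HT.Defs

/-!
# HT1: the area of the convex hull of a body and of a translate (helper916)
-/

set_option autoImplicit false

namespace Pool.Agent.R166.HT.Hull

open MeasureTheory Set

theorem sec_vol (C : Set ℝ) (hC : IsCompact C) (hcv : Convex ℝ C) (hne : C.Nonempty) :
    volume {r : ℝ | ∃ u ∈ C, ∃ t ∈ Icc (0 : ℝ) 1, r = u + 2 * t} = volume C + 2 := by
  have h1 : C = Icc (sInf C) (sSup C) :=
    eq_Icc_of_connected_compact ⟨hne, hcv.isPreconnected⟩ hC
  obtain ⟨a, b, hab, h2⟩ : ∃ a b, a ≤ b ∧ C = Icc a b :=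
    ⟨sInf C, sSup C, by
      obtain ⟨x, hx⟩ := hne
      rw [h1] at hx
      exact hx.1.trans hx.2, h1⟩
  have h3 : {r : ℝ | ∃ u ∈ C, ∃ t ∈ Icc (0 : ℝ) 1, r = u + 2 * t} = Icc a (b + 2) := by
    ext r
    simp only [mem_ofPred_eq, h2]
    constructor
    · rintro ⟨u, ⟨hu1, hu2⟩, t, ⟨ht1, ht2⟩, rfl⟩
      constructor <;> linarith
    · rintro ⟨hr1, hr2⟩
      by_cases hr : r ≤ b
      · exact ⟨r, ⟨hr1, hr⟩, 0, ⟨le_rfl, zero_le_one⟩, by ring⟩
      · refine ⟨b, ⟨hab, le_rfl⟩, (r - b) / 2, ⟨by linarith, by linarith⟩, by ring⟩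
  rw [h3, h2, Real.volume_Icc, Real.volume_Icc, show b + 2 - a = (b - a) + 2 by ring,
    ENNReal.ofReal_add (by linarith) (by norm_num)]
  norm_num

theorem core (K : Set P) (hK : IsCompact K) (hcv : Convex ℝ K) (s0 s1 : ℝ)
    (hI : Prod.snd '' K = Icc s0 s1) :
    volume {p : P | ∃ x ∈ K, ∃ t ∈ Icc (0 : ℝ) 1, p = (x.1 + 2 * t, x.2)} =
      volume K + 2 * ENNReal.ofReal (s1 - s0) := by
  set S : Set P := {p : P | ∃ x ∈ K, ∃ t ∈ Icc (0 : ℝ) 1, p = (x.1 + 2 * t, x.2)} with hS
  have hSc : IsCompact S := by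
    have : S = (fun q : P × ℝ => ((q.1.1 + 2 * q.2, q.1.2) : P)) '' (K ×ˢ Icc (0 : ℝ) 1) := by
      ext p
      constructor
      · rintro ⟨x, hx, t, ht, rfl⟩
        exact ⟨(x, t), ⟨hx, ht⟩, rfl⟩
      · rintro ⟨⟨x, t⟩, ⟨hx, ht⟩, rfl⟩
        exact ⟨x, hx, t, ht, rfl⟩
    rw [this]
    exact (hK.prod isCompact_Icc).image (by fun_prop)
  rw [Measure.volume_eq_prod, Measure.prod_apply_symm hSc.measurableSet,
    Measure.prod_apply_symm hK.measurableSet]
  have key : ∀ s : ℝ, volume ((fun x => (x, s)) ⁻¹' S) =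
      volume ((fun x => (x, s)) ⁻¹' K) + (Icc s0 s1).indicator (fun _ => (2 : ENNReal)) s := by
    intro s
    by_cases hs : s ∈ Icc s0 s1
    · rw [indicator_of_mem hs]
      have hne : ((fun x : ℝ => (x, s)) ⁻¹' K).Nonempty := by
        rw [← hI] at hs
        obtain ⟨x, hx, rfl⟩ := hs
        exact ⟨x.1, hx⟩
      have hc : IsCompact ((fun x : ℝ => (x, s)) ⁻¹' K) := by
        have : (fun x : ℝ => (x, s)) ⁻¹' K = Prod.fst '' (K ∩ {p | p.2 = s}) := by
          ext x
          constructor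
          · intro hx
            exact ⟨(x, s), ⟨hx, rfl⟩, rfl⟩
          · rintro ⟨⟨a, b⟩, ⟨ha, hb⟩, rfl⟩
            have hb' : b = s := hb
            subst hb'
            exact ha
        rw [this]
        exact (hK.inter_right (isClosed_eq continuous_snd continuous_const)).image continuous_fst
      have hv : Convex ℝ ((fun x : ℝ => (x, s)) ⁻¹' K) := by
        intro x hx y hy a b ha hb hab
        have := hcv hx hy ha hb hab
        have e : a • ((x, s) : P) + b • ((y, s) : P) = (a • x + b • y, s) := by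
          ext
          · simp
          · simp only [Prod.snd_add, Prod.smul_snd, smul_eq_mul]
            rw [← add_mul, hab, one_mul]
        rw [e] at this
        exact this
      rw [← sec_vol _ hc hv hne]
      congr 1
      ext r
      constructor
      · rintro ⟨x, hx, t, ht, h⟩
        have h1 := congrArg Prod.fst h
        have h2 := congrArg Prod.snd h
        simp only at h1 h2
        refine ⟨x.1, ?_, t, ht, h1⟩
        show (x.1, s) ∈ K
        rw [h2]
        exact hx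
      · rintro ⟨u, hu, t, ht, rfl⟩
        exact ⟨(u, s), hu, t, ht, rfl⟩
    · rw [indicator_of_notMem hs]
      have e1 : (fun x : ℝ => (x, s)) ⁻¹' K = ∅ := by
        ext x
        simp only [mem_preimage, mem_empty_iff_false, iff_false]
        intro hx
        apply hs
        rw [← hI]
        exact ⟨_, hx, rfl⟩
      have e2 : (fun x : ℝ => (x, s)) ⁻¹' S = ∅ := by
        ext x
        simp only [mem_preimage, mem_empty_iff_false, iff_false]
        rintro ⟨y, hy, t, _, h⟩
        apply hs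
        rw [← hI]
        have h2 := congrArg Prod.snd h
        simp only at h2
        exact ⟨y, hy, h2.symm⟩
      rw [e1, e2]
      simp
  simp_rw [key]
  rw [lintegral_add_right _ (measurable_const.indicator measurableSet_Icc),
    lintegral_indicator_const measurableSet_Icc, Real.volume_Icc]

theorem hull_eq (K : Set P) (hcv : Convex ℝ K) (z : P) :
    convexHull ℝ (K ∪ shift ((2 : ℝ) • z) K) =
      {p | ∃ x ∈ K, ∃ t ∈ Icc (0 : ℝ) 1, p = x + t • ((2 : ℝ) • z)} := by
  apply subset_antisymm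
  · apply convexHull_min
    · rintro p (hp | ⟨x, hx, rfl⟩)
      · exact ⟨p, hp, 0, ⟨le_rfl, zero_le_one⟩, by simp⟩
      · exact ⟨x, hx, 1, ⟨zero_le_one, le_rfl⟩, by simp [add_comm]⟩
    · rintro p ⟨x, hx, t, ht, rfl⟩ q ⟨y, hy, u, hu, rfl⟩ a b ha hb hab
      refine ⟨a • x + b • y, hcv hx hy ha hb hab, a * t + b * u, ⟨?_, ?_⟩, ?_⟩
      · have := ht.1; have := hu.1; positivity
      · have h1 := mul_le_mul_of_nonneg_left ht.2 ha
        have h2 := mul_le_mul_of_nonneg_left hu.2 hb
        linarith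
      · ext
        · simp only [Prod.fst_add, Prod.smul_fst, smul_eq_mul]; ring
        · simp only [Prod.snd_add, Prod.smul_snd, smul_eq_mul]; ring
  · rintro p ⟨x, hx, t, ht, rfl⟩
    have h1 : x ∈ convexHull ℝ (K ∪ shift ((2 : ℝ) • z) K) :=
      subset_convexHull ℝ _ (Or.inl hx)
    have h2 : (2 : ℝ) • z + x ∈ convexHull ℝ (K ∪ shift ((2 : ℝ) • z) K) :=
      subset_convexHull ℝ _ (Or.inr ⟨x, hx, rfl⟩)
    have h3 := (convex_convexHull ℝ (K ∪ shift ((2 : ℝ) • z) K)) h1 h2
      (sub_nonneg.mpr ht.2) ht.1 (by ring)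
    have e : (1 - t) • x + t • ((2 : ℝ) • z + x) = x + t • ((2 : ℝ) • z) := by
      rw [smul_add, sub_smul, one_smul]
      abel
    rw [e] at h3
    exact h3

/-- the linear map -/
noncomputable def L (z : P) : P →ₗ[ℝ] P :=
  Matrix.toLin (Module.Basis.finTwoProd ℝ) (Module.Basis.finTwoProd ℝ)
    !![z.1 / (z.1 ^ 2 + z.2 ^ 2), z.2 / (z.1 ^ 2 + z.2 ^ 2); -z.2, z.1]

theorem L_apply (z x : P) : L z x = (z.1 / (z.1 ^ 2 + z.2 ^ 2) * x.1 +
    z.2 / (z.1 ^ 2 + z.2 ^ 2) * x.2, -z.2 * x.1 + z.1 * x.2) := by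
  rw [L, Matrix.toLin_finTwoProd_apply]

theorem L_det (z : P) (hz : z ≠ 0) : LinearMap.det (L z) = 1 := by
  have h : z.1 ^ 2 + z.2 ^ 2 ≠ 0 := by
    intro h
    apply hz
    have h1 := sq_nonneg z.1
    have h2 := sq_nonneg z.2
    ext
    · exact pow_eq_zero_iff (two_ne_zero) |>.mp (by linarith)
    · exact pow_eq_zero_iff (two_ne_zero) |>.mp (by linarith)
  rw [L, LinearMap.det_toLin, Matrix.det_fin_two_of]
  field_simp
  ring

theorem vol_L (z : P) (hz : z ≠ 0) (A : Set P) : volume (L z '' A) = volume A := by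
  rw [Measure.addHaar_image_linearMap, L_det z hz]
  simp

end Pool.Agent.R166.HT.Hull

namespace Pool.Agent.R166.HT

open MeasureTheory Set Hull

theorem hull : StmtHull := by
  intro K hK z y₀ hy₀ hmax
  obtain ⟨hcv, hc, hint⟩ := hK
  have hne : K.Nonempty := hint.mono interior_subset
  by_cases hz : z = 0
  · subst hz
    have e1 : shift ((2 : ℝ) • (0 : P)) K = K := by
      unfold shift; simp
    have e2 : cross 0 y₀ = 0 := by simp [cross]
    rw [e1, union_self, hcv.convexHull_eq, e2]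
    simp
  · have h : z.1 ^ 2 + z.2 ^ 2 ≠ 0 := by
      intro h
      apply hz
      have h1 := sq_nonneg z.1
      have h2 := sq_nonneg z.2
      ext
      · exact pow_eq_zero_iff (two_ne_zero) |>.mp (by linarith)
      · exact pow_eq_zero_iff (two_ne_zero) |>.mp (by linarith)
    set K' : Set P := L z '' K with hK'
    have hcont : Continuous (L z) := LinearMap.continuous_of_finiteDimensional _
    have hK'c : IsCompact K' := hc.image hcont
    have hK'v : Convex ℝ K' := hcv.linear_image (L z)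
    have hI0 : IsCompact (Prod.snd '' K') := hK'c.image continuous_snd
    have hIv : Convex ℝ (Prod.snd '' K') := hK'v.linear_image (LinearMap.snd ℝ ℝ ℝ)
    have hIne : (Prod.snd '' K').Nonempty := (hne.image _).image _
    have hI : Prod.snd '' K' = Icc (sInf (Prod.snd '' K')) (sSup (Prod.snd '' K')) :=
      eq_Icc_of_connected_compact ⟨hIne, hIv.isPreconnected⟩ hI0
    obtain ⟨s0, s1, h01, hI⟩ : ∃ s0 s1, s0 ≤ s1 ∧ Prod.snd '' K' = Icc s0 s1 :=
      ⟨_, _, by
        obtain ⟨x, hx⟩ := hIne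
        rw [hI] at hx
        exact hx.1.trans hx.2, hI⟩
    have hcr : ∀ x, (L z x).2 = cross z x := by
      intro x; rw [L_apply]; simp only [cross]; ring
    have hLz : L z z = (1, 0) := by
      rw [L_apply]
      ext
      · simp only; field_simp
      · simp only; ring
    -- the difference `s1 - s0`
    have hd : s1 - s0 = 2 * |cross z y₀| := by
      apply le_antisymm
      · obtain ⟨_, ⟨x1, hx1, rfl⟩, e1⟩ : s1 ∈ Prod.snd '' K' := by rw [hI]; exact ⟨h01, le_rfl⟩
        obtain ⟨_, ⟨x0, hx0, rfl⟩, e0⟩ : s0 ∈ Prod.snd '' K' := by rw [hI]; exact ⟨le_rfl, h01⟩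
        rw [hcr] at e1 e0
        have h1 := hmax ((1 / 2 : ℝ) • (x1 - x0)) ⟨x1, hx1, x0, hx0, rfl⟩
        have e : cross z ((1 / 2 : ℝ) • (x1 - x0)) = (cross z x1 - cross z x0) / 2 := by
          simp only [cross, Prod.smul_fst, Prod.smul_snd, Prod.fst_sub, Prod.snd_sub, smul_eq_mul]
          ring
        rw [e, e1, e0, abs_of_nonneg (by linarith)] at h1
        linarith
      · obtain ⟨x, hx, y, hy, rfl⟩ := hy₀
        have e : cross z ((1 / 2 : ℝ) • (x - y)) = (cross z x - cross z y) / 2 := by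
          simp only [cross, Prod.smul_fst, Prod.smul_snd, Prod.fst_sub, Prod.snd_sub, smul_eq_mul]
          ring
        have m1 : cross z x ∈ Icc s0 s1 := by
          rw [← hI]; exact ⟨L z x, ⟨x, hx, rfl⟩, hcr x⟩
        have m2 : cross z y ∈ Icc s0 s1 := by
          rw [← hI]; exact ⟨L z y, ⟨y, hy, rfl⟩, hcr y⟩
        rw [e, abs_div, abs_of_pos (by norm_num : (0 : ℝ) < 2)]
        have := abs_le.mpr (show -(s1 - s0) ≤ cross z x - cross z y ∧
          cross z x - cross z y ≤ s1 - s0 by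
            constructor <;> linarith [m1.1, m1.2, m2.1, m2.2])
        linarith
    have hS : L z '' {p | ∃ x ∈ K, ∃ t ∈ Icc (0 : ℝ) 1, p = x + t • ((2 : ℝ) • z)} =
        {p : P | ∃ x ∈ K', ∃ t ∈ Icc (0 : ℝ) 1, p = (x.1 + 2 * t, x.2)} := by
      ext p
      constructor
      · rintro ⟨_, ⟨x, hx, t, ht, rfl⟩, rfl⟩
        refine ⟨L z x, ⟨x, hx, rfl⟩, t, ht, ?_⟩
        rw [map_add, map_smul, map_smul, hLz]
        ext
        · simp only [Prod.fst_add, Prod.smul_fst, smul_eq_mul]; ring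
        · simp only [Prod.snd_add, Prod.smul_snd, smul_eq_mul]; ring
      · rintro ⟨_, ⟨x, hx, rfl⟩, t, ht, rfl⟩
        refine ⟨_, ⟨x, hx, t, ht, rfl⟩, ?_⟩
        rw [map_add, map_smul, map_smul, hLz]
        ext
        · simp only [Prod.fst_add, Prod.smul_fst, smul_eq_mul]; ring
        · simp only [Prod.snd_add, Prod.smul_snd, smul_eq_mul]; ring
    have hvol : volume (convexHull ℝ (K ∪ shift ((2 : ℝ) • z) K)) =
        volume K + 2 * ENNReal.ofReal (s1 - s0) := by
      rw [hull_eq K hcv z, ← vol_L z hz, hS, core K' hK'c hK'v s0 s1 hI, hK', vol_L z hz]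
    unfold area
    rw [hvol, ENNReal.toReal_add hc.measure_lt_top.ne
      (ENNReal.mul_ne_top (by norm_num) ENNReal.ofReal_ne_top), ENNReal.toReal_mul,
      ENNReal.toReal_ofReal (by linarith), hd]
    norm_num
    ring

end Pool.Agent.R166.HT
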