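import Pool.Agent.R166.HT.One5

set_option autoImplicit false

namespace Pool.Agent.R166.HT

open MeasureTheory Set

lemma c0_sq_in {m : ℝ} (hm : |m| ≤ e) : c0 m = √(2 * g ^ 2 * m ^ 2 + 2 / g) := by
  unfold c0; rw [if_pos (by rwa [← e_inv])]

lemma c0_out {m : ℝ} (hm : e ≤ |m|) : c0 m = 1 + |m| := by
  unfold c0
  split_ifs with h
  · rw [← e_inv] at h
    have : |m| = e := le_antisymm h hm
    have hm2 : m ^ 2 = e ^ 2 := by rw [← sq_abs, this]
    rw [hm2, this]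
    have hg := g_pos
    have he := e_lo
    rw [Real.sqrt_eq_iff_mul_self_eq (by positivity) (by linarith)]
    have h1 : 2 / g = 2 * (g - 1) := by rw [← inv_g]; ring
    rw [h1]
    unfold e
    linear_combination (8 * g ^ 2 - 16 * g + 6) * g_sq
  · rfl

lemma one_add_le_c0 (m : ℝ) : 1 + |m| ≤ c0 m := by
  rcases le_total |m| e with h | h
  · rw [c0_sq_in h]
    apply Real.le_sqrt_of_sq_le
    have hg := g_pos
    have h1 : 2 / g = 2 * (g - 1) := by rw [← inv_g]; ring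
    rw [h1, ← sq_abs m]
    have h2 : (1 + |m|) ^ 2 = 2 * g ^ 2 * |m| ^ 2 + 2 * (g - 1) - (2 * g + 1) * (|m| - e) ^ 2 := by
      unfold e
      linear_combination (8 * g - 2 * |m| ^ 2 - 8 * |m| - 12) * g_sq
    rw [h2]
    have : 0 ≤ (2 * g + 1) * (|m| - e) ^ 2 := by positivity
    linarith
  · rw [c0_out h]

lemma g3 : g ^ 3 = 2 * g + 1 := by linear_combination (g + 1) * g_sq

lemma lemA {x y : ℝ} (hx : |x| ≤ 1) (h : x ^ 2 / g ^ 2 + g * y ^ 2 ≤ 2) (m : ℝ) :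
    |y - m * x| ≤ c0 m := by
  have hg := g_pos
  have he := e_lo
  have key : ∀ m : ℝ, |m| ≤ e → |y - m * x| ≤ c0 m := by
    intro m hm
    rw [c0_sq_in hm]
    apply Real.abs_le_sqrt
    have h1 : (x ^ 2 / (2 * g ^ 2) + g * y ^ 2 / 2) * (2 * g ^ 2 * m ^ 2 + 2 / g) -
        (y - m * x) ^ 2 = (x + g ^ 3 * m * y) ^ 2 / g ^ 3 := by
      field_simp
      ring
    have h2 : 0 ≤ (x + g ^ 3 * m * y) ^ 2 / g ^ 3 := by positivity
    have h3 : x ^ 2 / (2 * g ^ 2) + g * y ^ 2 / 2 ≤ 1 := by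
      have : x ^ 2 / (2 * g ^ 2) = x ^ 2 / g ^ 2 / 2 := by field_simp
      rw [this]; linarith
    have h4 : 0 ≤ 2 * g ^ 2 * m ^ 2 + 2 / g := by positivity
    nlinarith
  rcases le_total |m| e with hm | hm
  · exact key m hm
  · rw [c0_out hm]
    have hce : ∀ s : ℝ, |s| = e → c0 s = 1 + e := fun s hs => by rw [c0_out hs.ge, hs]
    rcases le_total 0 m with h0 | h0
    · have h1 := key e (by rw [abs_of_pos (by linarith)])
      rw [hce e (abs_of_pos (by linarith))] at h1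
      rw [abs_of_nonneg h0] at hm ⊢
      have h2 : y - m * x = (y - e * x) - (m - e) * x := by ring
      rw [h2]
      have h3 : |(m - e) * x| ≤ m - e := by
        rw [abs_mul, abs_of_nonneg (by linarith : 0 ≤ m - e)]
        nlinarith [abs_nonneg x]
      calc |y - e * x - (m - e) * x| ≤ |y - e * x| + |(m - e) * x| := abs_sub _ _
        _ ≤ (1 + e) + (m - e) := add_le_add h1 h3
        _ = 1 + m := by ring
    · have h1 := key (-e) (by rw [abs_neg, abs_of_pos (by linarith)])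
      rw [hce (-e) (by rw [abs_neg, abs_of_pos (by linarith)])] at h1
      rw [abs_of_nonpos h0] at hm ⊢
      have h2 : y - m * x = (y - (-e) * x) + (-m - e) * x := by ring
      rw [h2]
      have h3 : |(-m - e) * x| ≤ -m - e := by
        rw [abs_mul, abs_of_nonneg (by linarith : 0 ≤ -m - e)]
        nlinarith [abs_nonneg x]
      calc |y - -e * x + (-m - e) * x| ≤ |y - -e * x| + |(-m - e) * x| := abs_add_le _ _
        _ ≤ (1 + e) + (-m - e) := add_le_add h1 h3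
        _ = 1 + -m := by ring

lemma sum_le {x y : ℝ} (hx : |x| ≤ 1) (h : x ^ 2 / g ^ 2 + g * y ^ 2 ≤ 2) : |x| + |y| ≤ 2 := by
  have h1 := lemA hx h 1
  have h2 := lemA hx h (-1)
  have he := e_hi
  rw [c0_out (by norm_num; linarith)] at h1
  rw [c0_out (by norm_num; linarith)] at h2
  norm_num at h1 h2
  rw [abs_le] at h1 h2
  rcases abs_cases x with hx' | hx' <;> rcases abs_cases y with hy' | hy' <;> linarith

lemma lemB {x y : ℝ} (hx : |x| ≤ 1) (h : x ^ 2 / g ^ 2 + g * y ^ 2 ≤ 2) {m : ℝ}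
    (hm : m ∈ Icc (-1 : ℝ) 1) : |x + m * y| ≤ c0 m := by
  refine le_trans ?_ (one_add_le_c0 m)
  have h1 := sum_le hx h
  have h2 : |m| ≤ 1 := abs_le.2 hm
  have h3 : |x + m * y| ≤ |x| + |m| * |y| := by
    rw [← abs_mul]; exact abs_add_le _ _
  have h4 := abs_nonneg m
  nlinarith

lemma N0_sub {p : P} (hp : p ∈ N0) {m : ℝ} (hm : m ∈ Icc (-1 : ℝ) 1) :
    |p.2 - m * p.1| ≤ c0 m ∧ |p.1 + m * p.2| ≤ c0 m := by
  rcases hp with ⟨h1, h2⟩ | ⟨h1, h2⟩
  · exact ⟨lemA h1 h2 m, lemB h1 h2 hm⟩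
  · have hA := lemA h1 h2 (-m)
    have hB := lemB h1 h2 (m := -m) ⟨by linarith [hm.2], by linarith [hm.1]⟩
    rw [c0_even] at hA hB
    constructor
    · convert hB using 2; ring
    · convert hA using 2; ring

lemma upper_in {x y : ℝ} (hx : |x| ≤ 1) (hy : 0 ≤ y)
    (h : ∀ m ∈ Icc (-1 : ℝ) 1, |y - m * x| ≤ c0 m) : x ^ 2 / g ^ 2 + g * y ^ 2 ≤ 2 := by
  have hg := g_pos
  have hg1 := g_lo
  have hx2 : x ^ 2 ≤ 1 := by rw [← sq_abs]; nlinarith [abs_nonneg x]
  have hgg : 1 / g ^ 2 + g = 2 := by rw [inv_g2]; ring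
  have hxg : x ^ 2 / g ^ 2 ≤ 1 / g ^ 2 := by gcongr
  set Y := (2 - x ^ 2 / g ^ 2) / g with hY
  have hY1 : 1 ≤ Y := by
    rw [hY, le_div_iff₀ hg]; linarith
  set y0 := √Y with hy0
  have hy02 : y0 ^ 2 = Y := Real.sq_sqrt (by linarith)
  have hy01 : 1 ≤ y0 := by
    rw [hy0]; exact Real.one_le_sqrt.2 hY1
  have hgY : g * Y = 2 - x ^ 2 / g ^ 2 := by rw [hY]; field_simp
  set m := -x / (g ^ 3 * y0) with hm
  have hg3 : 0 < g ^ 3 := by positivity
  have hme : |m| ≤ e := by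
    rw [hm, abs_div, abs_neg, abs_of_pos (by positivity : 0 < g ^ 3 * y0), e_inv,
      div_le_div_iff₀ (by positivity) hg3]
    nlinarith [abs_nonneg x]
  have hm1 : m ∈ Icc (-1 : ℝ) 1 := abs_le.1 (hme.trans (by linarith [e_hi]))
  have hc : c0 m = 2 / (g * y0) := by
    rw [c0_sq_in hme, Real.sqrt_eq_iff_mul_self_eq (by positivity) (by positivity)]
    have : x ^ 2 = g ^ 2 * (2 - g * y0 ^ 2) := by
      rw [hy02, hgY]; field_simp; ring
    rw [hm]
    field_simp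
    rw [this]
    ring
  have h1 := (abs_le.1 (h m hm1)).2
  rw [hc] at h1
  have h2 : y - m * x ≤ 2 / (g * y0) := h1
  have h3 : y ≤ y0 := by
    have h4 : 2 / (g * y0) + m * x = y0 := by
      have : x ^ 2 = g ^ 2 * (2 - g * y0 ^ 2) := by
        rw [hy02, hgY]; field_simp; ring
      rw [hm]
      field_simp
      rw [this]
      ring
    linarith
  have h5 : y ^ 2 ≤ Y := by
    rw [← hy02]; exact pow_le_pow_left₀ hy h3 2
  nlinarith

lemma upper_in' {x y : ℝ} (hx : |x| ≤ 1)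
    (h : ∀ m ∈ Icc (-1 : ℝ) 1, |y - m * x| ≤ c0 m) : x ^ 2 / g ^ 2 + g * y ^ 2 ≤ 2 := by
  rcases le_total 0 y with hy | hy
  · exact upper_in hx hy h
  · have := upper_in (x := -x) (y := -y) (by rwa [abs_neg]) (by linarith) (fun m hm => by
      have := h m hm
      rw [← abs_neg] at this
      convert this using 2; ring)
    simpa using this

lemma sub_N0 {p : P} (h : ∀ m ∈ Icc (-1 : ℝ) 1, |p.2 - m * p.1| ≤ c0 m ∧
    |p.1 + m * p.2| ≤ c0 m) : p ∈ N0 := by
  have h1 := (h 1 (by norm_num)).1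
  have h2 := (h (-1) (by norm_num)).1
  have he := e_hi
  rw [c0_out (by norm_num; linarith)] at h1
  rw [c0_out (by norm_num; linarith)] at h2
  norm_num at h1 h2
  rw [abs_le] at h1 h2
  by_cases hx : |p.1| ≤ 1
  · exact Or.inl ⟨hx, upper_in' hx (fun m hm => (h m hm).1)⟩
  · have hy : |p.2| ≤ 1 := by
      push Not at hx
      rcases abs_cases p.1 with hx' | hx' <;> rcases abs_cases p.2 with hy' | hy' <;> linarith
    refine Or.inr ⟨hy, upper_in' hy (fun m hm => ?_)⟩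
    have := (h (-m) ⟨by linarith [hm.2], by linarith [hm.1]⟩).2
    rw [c0_even] at this
    convert this using 2; ring

lemma N0_eq : N0 = {p : P | ∀ m ∈ Icc (-1 : ℝ) 1, |p.2 - m * p.1| ≤ c0 m ∧
    |p.1 + m * p.2| ≤ c0 m} :=
  Subset.antisymm (fun _ hp _ hm => N0_sub hp hm) (fun _ hp => sub_N0 hp)

lemma N0_convex : Convex ℝ N0 := by
  rw [N0_eq]
  intro p hp q hq a b ha hb hab m hm
  have h1 := hp m hm
  have h2 := hq m hm
  simp only [Prod.snd_add, Prod.smul_snd, Prod.fst_add, Prod.smul_fst, smul_eq_mul]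
  rw [abs_le, abs_le] at h1 h2 ⊢
  have hb' : b = 1 - a := by linarith
  subst hb'
  constructor
  · constructor <;> nlinarith [h1.1.1, h1.1.2, h2.1.1, h2.1.2]
  · constructor <;> nlinarith [h1.2.1, h1.2.2, h2.2.1, h2.2.2]

lemma N0_closed : IsClosed N0 := by
  rw [N0_eq]
  have : {p : P | ∀ m ∈ Icc (-1 : ℝ) 1, |p.2 - m * p.1| ≤ c0 m ∧ |p.1 + m * p.2| ≤ c0 m} =
      ⋂ m ∈ Icc (-1 : ℝ) 1, ({p : P | |p.2 - m * p.1| ≤ c0 m} ∩ {p : P | |p.1 + m * p.2| ≤ c0 m}) := by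
    ext p; simp
  rw [this]
  refine isClosed_biInter (fun m _ => IsClosed.inter ?_ ?_)
  · exact isClosed_le (by fun_prop) (by fun_prop)
  · exact isClosed_le (by fun_prop) (by fun_prop)

lemma N0_sum {p : P} (hp : p ∈ N0) : |p.1| + |p.2| ≤ 2 := by
  rcases hp with ⟨h1, h2⟩ | ⟨h1, h2⟩
  · exact sum_le h1 h2
  · have := sum_le h1 h2; linarith

lemma N0_compact : IsCompact N0 := by
  apply IsCompact.of_isClosed_subset ((isCompact_Icc (a := (-2 : ℝ)) (b := 2)).prod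
    (isCompact_Icc (a := (-2 : ℝ)) (b := 2))) N0_closed
  intro p hp
  have h := N0_sum hp
  have h1 := abs_nonneg p.1
  have h2 := abs_nonneg p.2
  exact ⟨abs_le.1 (by linarith), abs_le.1 (by linarith)⟩

lemma N0_interior : (interior N0).Nonempty := by
  refine ⟨(0, 0), ?_⟩
  rw [mem_interior]
  refine ⟨Ioo (-1 / 2 : ℝ) (1 / 2) ×ˢ Ioo (-1 / 2 : ℝ) (1 / 2), ?_, isOpen_Ioo.prod isOpen_Ioo, ?_⟩
  · rintro ⟨x, y⟩ ⟨hx, hy⟩
    simp only [mem_Ioo] at hx hy
    left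
    have hx1 : |x| ≤ 1 := abs_le.2 ⟨by linarith [hx.1], by linarith [hx.2]⟩
    refine ⟨hx1, ?_⟩
    simp only
    have hg := g_hi
    have hg0 := g_lo
    have h1 : x ^ 2 / g ^ 2 ≤ 1 := by
      rw [div_le_one (by positivity)]
      nlinarith
    have h2 : y ^ 2 ≤ 1 / 4 := by nlinarith
    nlinarith
  · constructor <;> constructor <;> norm_num

lemma N0_neg {p : P} (hp : p ∈ N0) : -p ∈ N0 := by
  rcases hp with ⟨h1, h2⟩ | ⟨h1, h2⟩
  · left; exact ⟨by simpa using h1, by simpa using h2⟩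
  · right; exact ⟨by simpa using h1, by simpa using h2⟩

/-- rotation by a right angle -/
lemma N0_rot {x y : ℝ} (hp : (x, y) ∈ N0) : (y, -x) ∈ N0 := by
  rcases hp with ⟨h1, h2⟩ | ⟨h1, h2⟩
  · right; exact ⟨by simpa using h1, by simpa using h2⟩
  · left; exact ⟨by simpa using h1, by simpa using h2⟩

lemma corner {s t : ℝ} (hs : s ^ 2 = 1) (ht : t ^ 2 = 1) : ((s, t) : P) ∈ N0 := by
  left
  refine ⟨?_, ?_⟩
  · simp only
    rw [abs_le]
    constructor <;> nlinarith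
  · simp only
    rw [hs, ht, inv_g2]; linarith

lemma N0_nrm : Nrm N0 := ⟨⟨N0_convex, N0_compact, N0_interior⟩, fun _ hx => N0_neg hx,
  corner (by norm_num) (by norm_num), corner (by norm_num) (by norm_num), fun _ hp => N0_sum hp⟩

/-- the point of `N0` at which the support function is attained -/
lemma exists_max {m : ℝ} (_hm : m ∈ Icc (-1 : ℝ) 1) : ∃ x y : ℝ, (x, y) ∈ N0 ∧ y - m * x = c0 m := by
  have hg := g_pos
  rcases le_total |m| e with h | h
  · have hc2 : 0 < 2 * g ^ 2 * m ^ 2 + 2 / g := by positivity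
    have hcp : 0 < c0 m := by rw [c0_sq_in h]; exact Real.sqrt_pos.2 hc2
    have hcs : c0 m ^ 2 = 2 * g ^ 2 * m ^ 2 + 2 / g := by
      rw [c0_sq_in h, Real.sq_sqrt hc2.le]
    refine ⟨-2 * g ^ 2 * m / c0 m, 2 / (g * c0 m), Or.inl ⟨?_, ?_⟩, ?_⟩
    · simp only
      rw [abs_div, abs_of_pos hcp, div_le_one hcp]
      apply abs_le_of_sq_le_sq _ hcp.le
      rw [hcs]
      have hm2 : m ^ 2 ≤ e ^ 2 := by rw [← sq_abs m]; exact pow_le_pow_left₀ (abs_nonneg m) h 2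
      have h1 : 2 / g = 2 * (g - 1) := by rw [← inv_g]; ring
      rw [h1]
      have h2 : (-2 * g ^ 2 * m) ^ 2 - (2 * g ^ 2 * m ^ 2 + 2 * (g - 1)) =
          2 * (g - 1) * ((2 * g + 1) ^ 2 * m ^ 2 - 1) := by
        linear_combination (4 * g ^ 2 * m ^ 2 - 4 * g * m ^ 2 - 2 * m ^ 2) * g_sq
      have h3 : (2 * g + 1) ^ 2 * m ^ 2 ≤ 1 := by
        have h4 : (2 * g + 1) * e = 1 := by unfold e; linear_combination 4 * g_sq
        have h5 : (2 * g + 1) ^ 2 * e ^ 2 = 1 := by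
          calc (2 * g + 1) ^ 2 * e ^ 2 = ((2 * g + 1) * e) ^ 2 := by ring
            _ = 1 := by rw [h4]; norm_num
        nlinarith [sq_nonneg (2 * g + 1)]
      have h6 := g_lo
      nlinarith
    · simp only
      rw [div_pow, div_pow, mul_pow g, hcs]
      refine le_of_eq ?_
      field_simp
    · have : 2 / (g * c0 m) - m * (-2 * g ^ 2 * m / c0 m) =
          (2 * g ^ 2 * m ^ 2 + 2 / g) / c0 m := by
        field_simp
        ring
      rw [this, ← hcs]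
      field_simp
  · rw [c0_out h]
    rcases le_total 0 m with h0 | h0
    · exact ⟨-1, 1, corner (by norm_num) (by norm_num), by rw [abs_of_nonneg h0]; ring⟩
    · exact ⟨1, 1, corner (by norm_num) (by norm_num), by rw [abs_of_nonpos h0]; ring⟩

lemma cT_N0 {m : ℝ} (hm : m ∈ Icc (-1 : ℝ) 1) : cT N0 m = c0 m := by
  obtain ⟨x, y, hxy, h⟩ := exists_max hm
  unfold cT
  apply IsGreatest.csSup_eq
  constructor
  · exact ⟨(x, y), hxy, h⟩
  · rintro _ ⟨p, hp, rfl⟩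
    exact (abs_le.1 (N0_sub hp hm).1).2

lemma cR_N0 {m : ℝ} (hm : m ∈ Icc (-1 : ℝ) 1) : cR N0 m = c0 m := by
  obtain ⟨x, y, hxy, h⟩ := exists_max hm
  unfold cR
  apply IsGreatest.csSup_eq
  constructor
  · refine ⟨(y, -x), N0_rot hxy, ?_⟩
    simp only
    rw [← h]; ring
  · rintro _ ⟨p, hp, rfl⟩
    exact (abs_le.1 (N0_sub hp hm).2).2

end Pool.Agent.R166.HT
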