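import Pool.Agent.R166.HT.N0a

set_option autoImplicit false

namespace Pool.Agent.R166.HT

open MeasureTheory Set

/-! ### the area of `N0` -/

noncomputable def F0 (x : ℝ) : ℝ := √(2 - x ^ 2 / g ^ 2) / √g

lemma F0_cont : Continuous F0 := by unfold F0; fun_prop

lemma u_pos {x : ℝ} (hx : x ∈ Icc (-1 : ℝ) 1) : 1 ≤ 2 - x ^ 2 / g ^ 2 := by
  have hg := g_lo
  have h1 : x ^ 2 ≤ 1 := by nlinarith [hx.1, hx.2]
  have h2 : x ^ 2 / g ^ 2 ≤ 1 := by
    rw [div_le_one (by positivity)]
    nlinarith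
  linarith

lemma F0_one {x : ℝ} (hx : x ∈ Icc (-1 : ℝ) 1) : 1 ≤ F0 x := by
  unfold F0
  rw [one_le_div r_pos]
  apply Real.sqrt_le_sqrt
  have hg := g_pos
  have h1 : x ^ 2 ≤ 1 := by nlinarith [hx.1, hx.2]
  have h2 : x ^ 2 / g ^ 2 ≤ 1 / g ^ 2 := by gcongr
  have h3 := inv_g2
  linarith

lemma mem_F0 {x y : ℝ} (hx : x ∈ Icc (-1 : ℝ) 1) :
    x ^ 2 / g ^ 2 + g * y ^ 2 ≤ 2 ↔ |y| ≤ F0 x := by
  have hg := g_pos
  have hr := r_pos
  have hu := u_pos hx
  unfold F0
  have hyr : |y| * √g = |y * √g| := by rw [abs_mul, abs_of_pos hr]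
  rw [le_div_iff₀ hr, hyr]
  constructor
  · intro h
    apply Real.abs_le_sqrt
    rw [mul_pow, r_sq]
    linarith
  · intro h
    have h1 := Real.sq_sqrt (by linarith : 0 ≤ 2 - x ^ 2 / g ^ 2)
    have h2 : (y * √g) ^ 2 ≤ 2 - x ^ 2 / g ^ 2 := by
      rw [← h1, ← sq_abs (y * √g)]
      exact pow_le_pow_left₀ (abs_nonneg _) h 2
    rw [mul_pow, r_sq] at h2
    linarith

lemma int_F0 : ∫ x in (-1 : ℝ)..1, F0 x = 2 * √g * th + 1 := by
  have hg := g_pos
  have hr := r_pos
  have hr2 := r_sq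
  set G : ℝ → ℝ := fun x => 1 / √g * (x / 2 * √(2 - x ^ 2 / g ^ 2) +
    g * Real.arcsin (x / (√2 * g))) with hG
  have h2p : 0 < √(2 : ℝ) := Real.sqrt_pos.2 (by norm_num)
  have h2s : √(2 : ℝ) ^ 2 = 2 := Real.sq_sqrt (by norm_num)
  have hder : ∀ x ∈ uIcc (-1 : ℝ) 1, HasDerivAt G (F0 x) x := by
    intro x hx
    rw [uIcc_of_le (by norm_num)] at hx
    have hu := u_pos hx
    have hup : 0 < 2 - x ^ 2 / g ^ 2 := by linarith
    have hsp : 0 < √(2 - x ^ 2 / g ^ 2) := Real.sqrt_pos.2 hup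
    have hss : √(2 - x ^ 2 / g ^ 2) ^ 2 = 2 - x ^ 2 / g ^ 2 := Real.sq_sqrt hup.le
    have h1 : HasDerivAt (fun x : ℝ => 2 - x ^ 2 / g ^ 2) (-(2 * x / g ^ 2)) x := by
      have := (((hasDerivAt_pow 2 x).div_const (g ^ 2)).const_sub 2)
      simpa using this
    have h2 := h1.sqrt hup.ne'
    have h3 : HasDerivAt (fun x : ℝ => x / 2) (1 / 2) x := (hasDerivAt_id' x).div_const 2
    have h4 := h3.fun_mul h2
    have h5 : HasDerivAt (fun x : ℝ => x / (√2 * g)) (1 / (√2 * g)) x :=
      (hasDerivAt_id' x).div_const _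
    have hq : (x / (√2 * g)) ^ 2 = x ^ 2 / g ^ 2 / 2 := by
      rw [div_pow, mul_pow, h2s]; field_simp
    have hlt : (x / (√2 * g)) ^ 2 < 1 := by rw [hq]; linarith
    have hne1 : x / (√2 * g) ≠ -1 := by
      intro h; rw [h] at hlt; norm_num at hlt
    have hne2 : x / (√2 * g) ≠ 1 := by
      intro h; rw [h] at hlt; norm_num at hlt
    have h6 : HasDerivAt (fun x : ℝ => Real.arcsin (x / (√2 * g)))
        (1 / √(1 - (x / (√2 * g)) ^ 2) * (1 / (√2 * g))) x :=
      HasDerivAt.comp (h₂ := Real.arcsin) x (Real.hasDerivAt_arcsin hne1 hne2) h5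
    have h7 := (h4.fun_add (h6.const_mul g)).const_mul (1 / √g)
    refine h7.congr_deriv ?_
    have h8 : √(1 - (x / (√2 * g)) ^ 2) = √(2 - x ^ 2 / g ^ 2) / √2 := by
      rw [hq, ← Real.sqrt_div hup.le]
      congr 1; ring
    rw [h8]
    unfold F0
    have h9 : x ^ 2 = g ^ 2 * (2 - √(2 - x ^ 2 / g ^ 2) ^ 2) := by
      rw [hss]; field_simp; ring
    set s := √(2 - x ^ 2 / g ^ 2) with hs
    have h10 : x / 2 * (-(2 * x / g ^ 2) / (2 * s)) = -(x ^ 2) / (2 * g ^ 2 * s) := by
      field_simp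
    have h11 : 1 / 2 * s + x / 2 * (-(2 * x / g ^ 2) / (2 * s)) +
        g * (1 / (s / √2) * (1 / (√2 * g))) = s := by
      rw [h10]
      have h12 : g * (1 / (s / √2) * (1 / (√2 * g))) = 1 / s := by field_simp
      rw [h12, h9]
      field_simp
      ring
    rw [h11]
    ring
  rw [intervalIntegral.integral_eq_sub_of_hasDerivAt hder (F0_cont.intervalIntegrable _ _)]
  have harc : Real.arcsin (1 / (√2 * g)) = th := by
    have hq : (1 / (√2 * g)) ^ 2 = 1 / (2 * g ^ 2) := by
      rw [div_pow, mul_pow, h2s]; ring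
    have hlt : 1 / (2 * g ^ 2) < 1 := by
      have : 1 / (2 * g ^ 2) = (2 - g) / 2 := by rw [← inv_g2]; field_simp
      rw [this]; linarith [g_lo]
    rw [Real.arcsin_eq_arctan ⟨by have : 0 < 1 / (√2 * g) := by positivity
                                  linarith, by
      by_contra hcon
      push Not at hcon
      have : (1 : ℝ) ^ 2 ≤ (1 / (√2 * g)) ^ 2 := pow_le_pow_left₀ (by norm_num) hcon 2
      rw [hq] at this
      linarith⟩]
    unfold th
    congr 1
    rw [hq]
    have h1 : 1 - 1 / (2 * g ^ 2) = g ^ 2 * g / (2 * g ^ 2) := by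
      have : 2 * g ^ 2 - 1 = g ^ 2 * g := by
        have := g3
        have h2 := g_sq
        nlinarith
      field_simp
      linarith
    rw [h1]
    have h3 : √(g ^ 2 * g / (2 * g ^ 2)) = (g * √g) / (√2 * g) := by
      rw [Real.sqrt_div (by positivity), Real.sqrt_mul (by positivity), Real.sqrt_sq hg.le,
        Real.sqrt_mul (by norm_num), Real.sqrt_sq hg.le]
    rw [h3]
    field_simp
  have hG1 : G 1 = 1 / 2 + √g * th := by
    simp only [hG]
    rw [harc]
    have : (2 : ℝ) - 1 ^ 2 / g ^ 2 = g := by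
      have := inv_g2
      norm_num
      norm_num at this
      linarith
    rw [this]
    field_simp
    linear_combination (-2 * th) * hr2
  have hGm : G (-1) = -(1 / 2 + √g * th) := by
    simp only [hG]
    rw [neg_div (√2 * g) 1, Real.arcsin_neg, harc]
    have : (2 : ℝ) - (-1) ^ 2 / g ^ 2 = g := by
      have := inv_g2
      norm_num
      norm_num at this
      linarith
    rw [this]
    field_simp
    linear_combination (2 * th) * hr2
  rw [hG1, hGm]
  ring

/-- vertical part -/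
def AV : Set P := {p | p.1 ∈ Icc (-1 : ℝ) 1 ∧ |p.2| ≤ F0 p.1}

lemma AV_meas : MeasurableSet AV := by
  apply IsClosed.measurableSet
  exact (isClosed_Icc.preimage continuous_fst).inter
    (isClosed_le (by fun_prop) (F0_cont.comp continuous_fst))

lemma vol_AV : volume AV = ENNReal.ofReal (4 * √g * th + 2) := by
  have hI : ∫ x in (-1 : ℝ)..1, 2 * F0 x = 4 * √g * th + 2 := by
    rw [intervalIntegral.integral_const_mul, int_F0]; ring
  rw [← hI, Measure.volume_eq_prod, Measure.prod_apply AV_meas]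
  have h1 : ∀ x : ℝ, volume (Prod.mk x ⁻¹' AV) =
      (Icc (-1 : ℝ) 1).indicator (fun x => ENNReal.ofReal (2 * F0 x)) x := by
    intro x
    by_cases hx : x ∈ Icc (-1 : ℝ) 1
    · rw [indicator_of_mem hx]
      have : Prod.mk x ⁻¹' AV = Icc (-F0 x) (F0 x) := by
        ext y
        constructor
        · rintro ⟨_, h⟩; exact abs_le.1 h
        · intro h; exact ⟨hx, abs_le.2 h⟩
      rw [this, Real.volume_Icc]
      congr 1; ring
    · rw [indicator_of_notMem hx]
      have : Prod.mk x ⁻¹' AV = ∅ := by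
        ext y
        simp only [mem_empty_iff_false, iff_false]
        rintro ⟨h, _⟩; exact hx h
      rw [this, measure_empty]
  simp_rw [h1]
  rw [lintegral_indicator measurableSet_Icc]
  rw [← ofReal_integral_eq_lintegral_ofReal]
  · rw [intervalIntegral.integral_of_le (by norm_num), integral_Icc_eq_integral_Ioc]
  · exact (continuous_const.mul F0_cont).continuousOn.integrableOn_Icc
  · filter_upwards [ae_restrict_mem measurableSet_Icc] with x hx
    have := F0_one hx
    simp only [Pi.zero_apply]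
    linarith

lemma N0_union : N0 = AV ∪ Prod.swap ⁻¹' AV := by
  ext p
  constructor
  · rintro (⟨h1, h2⟩ | ⟨h1, h2⟩)
    · exact Or.inl ⟨abs_le.1 h1, (mem_F0 (abs_le.1 h1)).1 h2⟩
    · exact Or.inr ⟨abs_le.1 h1, (mem_F0 (abs_le.1 h1)).1 h2⟩
  · rintro (⟨h1, h2⟩ | ⟨h1, h2⟩)
    · exact Or.inl ⟨abs_le.2 h1, (mem_F0 h1).2 h2⟩
    · exact Or.inr ⟨abs_le.2 h1, (mem_F0 h1).2 h2⟩

lemma AV_inter : AV ∩ Prod.swap ⁻¹' AV = Icc (-1 : ℝ) 1 ×ˢ Icc (-1 : ℝ) 1 := by
  ext p
  constructor
  · rintro ⟨h1, h2⟩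
    exact ⟨h1.1, h2.1⟩
  · rintro ⟨h1, h2⟩
    exact ⟨⟨h1, (abs_le.2 h2).trans (F0_one h1)⟩, ⟨h2, (abs_le.2 h1).trans (F0_one h2)⟩⟩

lemma area_N0 : area N0 = 8 * (√g * th) := by
  have hth : 0 ≤ th := by
    unfold th
    have := g_pos
    have := r_pos
    exact (Real.arctan_pos.2 (by positivity)).le
  have hswap : volume (Prod.swap ⁻¹' AV : Set P) = volume AV := by
    have h : MeasurePreserving (Prod.swap : ℝ × ℝ → ℝ × ℝ) volume volume :=
      Measure.measurePreserving_swap
    exact h.measure_preimage AV_meas.nullMeasurableSet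
  have h1 := measure_union_add_inter (μ := volume) AV
    (measurable_swap AV_meas : MeasurableSet (Prod.swap ⁻¹' AV : Set P))
  rw [← N0_union, AV_inter, hswap, vol_AV, Measure.volume_eq_prod, Measure.prod_prod,
    Real.volume_Icc] at h1
  have h2 := congrArg ENNReal.toReal h1
  have hr := r_pos
  have h3 : 0 ≤ 4 * √g * th + 2 := by positivity
  have hfin : volume N0 ≠ ⊤ := N0_compact.measure_lt_top.ne
  rw [ENNReal.toReal_add (by rwa [← Measure.volume_eq_prod]) (by
      exact (ENNReal.mul_lt_top ENNReal.ofReal_lt_top ENNReal.ofReal_lt_top).ne),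
    ENNReal.toReal_add ENNReal.ofReal_ne_top ENNReal.ofReal_ne_top,
    ENNReal.toReal_mul, ENNReal.toReal_ofReal (by norm_num), ENNReal.toReal_ofReal h3] at h2
  unfold area
  rw [Measure.volume_eq_prod]
  linarith

/-! ### the integral of `1 / c0^2` -/

lemma c0_cont : ContinuousOn c0 (Icc (-1) 1) := by
  have : c0 = fun m => max (1 + |m|) (√(2 * g ^ 2 * (min |m| e) ^ 2 + 2 / g)) := by
    funext m
    rcases le_total |m| e with hm | hm
    · have h1 := one_add_le_c0 m
      have h2 := c0_sq_in hm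
      rw [min_eq_left hm, sq_abs, ← h2, max_eq_right h1]
    · rw [min_eq_right hm, c0_out hm]
      have h3 : √(2 * g ^ 2 * e ^ 2 + 2 / g) = 1 + e := by
        have he := e_lo
        have h4 := c0_out (m := e) (by rw [abs_of_pos (by linarith)])
        have h5 := c0_sq_in (m := e) (by rw [abs_of_pos (by linarith)])
        rw [abs_of_pos (by linarith)] at h4
        rw [← h5, h4]
      rw [h3, max_eq_left (by linarith)]
  rw [this]
  fun_prop

lemma int_c0 : (∫ m in (-1 : ℝ)..1, 1 / (c0 m) ^ 2) = (√g * th + 1) / g := by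
  have hg := g_pos
  have hr := r_pos
  have hr2 := r_sq
  have he := e_lo
  have he2 := e_hi
  have hpos : ∀ m : ℝ, 0 < c0 m := fun m => by
    have := one_add_le_c0 m
    have := abs_nonneg m
    linarith
  have hcont : ContinuousOn (fun m => 1 / (c0 m) ^ 2) (Icc (-1) 1) :=
    continuousOn_const.div (c0_cont.pow 2) (fun m _ => by have := hpos m; positivity)
  have hii : ∀ a b : ℝ, a ∈ Icc (-1 : ℝ) 1 → b ∈ Icc (-1 : ℝ) 1 →
      IntervalIntegrable (fun m => 1 / (c0 m) ^ 2) volume a b := fun a b ha hb =>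
    ContinuousOn.intervalIntegrable (hcont.mono (by
      intro x hx
      rcases le_total a b with h | h
      · rw [uIcc_of_le h] at hx; exact ⟨ha.1.trans hx.1, hx.2.trans hb.2⟩
      · rw [uIcc_of_ge h] at hx; exact ⟨hb.1.trans hx.1, hx.2.trans ha.2⟩))
  have hneg : (∫ m in (-1 : ℝ)..0, 1 / (c0 m) ^ 2) = ∫ m in (0 : ℝ)..1, 1 / (c0 m) ^ 2 := by
    have := intervalIntegral.integral_comp_neg (a := (0 : ℝ)) (b := 1) (fun m => 1 / (c0 m) ^ 2)
    simp only [c0_even, neg_zero] at this
    exact this.symm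
  have h1 : (∫ m in (0 : ℝ)..e, 1 / (c0 m) ^ 2) = th / (2 * √g) := by
    have hc : ∀ m ∈ uIcc 0 e, 1 / (c0 m) ^ 2 = 1 / (2 * g ^ 2 * m ^ 2 + 2 / g) := by
      intro m hm
      rw [uIcc_of_le (by linarith)] at hm
      rw [c0_sq_in (by rw [abs_of_nonneg hm.1]; exact hm.2), Real.sq_sqrt (by positivity)]
    rw [intervalIntegral.integral_congr hc]
    have hder : ∀ m ∈ uIcc 0 e, HasDerivAt (fun m => Real.arctan (g * √g * m) / (2 * √g))
        (1 / (2 * g ^ 2 * m ^ 2 + 2 / g)) m := by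
      intro m _
      have h3 : HasDerivAt (fun m : ℝ => g * √g * m) (g * √g) m := by
        simpa using (hasDerivAt_id' m).const_mul (g * √g)
      have h4 := ((Real.hasDerivAt_arctan (g * √g * m)).comp m h3).div_const (2 * √g)
      refine h4.congr_deriv ?_
      have h5 : (g * √g * m) ^ 2 = g ^ 3 * m ^ 2 := by
        rw [mul_pow, mul_pow, hr2]; ring
      rw [h5]
      field_simp
      ring
    rw [intervalIntegral.integral_eq_sub_of_hasDerivAt hder (by
      apply Continuous.intervalIntegrable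
      refine continuous_const.div (by fun_prop) (fun m => by positivity))]
    have h6 : g * √g * e = 1 / (g * √g) := by
      have : g ^ 3 * e = 1 := by rw [g3]; unfold e; linear_combination 4 * g_sq
      rw [eq_div_iff (by positivity)]
      calc g * √g * e * (g * √g) = g ^ 2 * √g ^ 2 * e := by ring
        _ = g ^ 3 * e := by rw [hr2]; ring
        _ = 1 := this
    simp only [h6, mul_zero, Real.arctan_zero, zero_div, sub_zero]
    rfl
  have h2 : (∫ m in e..1, 1 / (c0 m) ^ 2) = (g - 1) / 2 := by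
    have hc : ∀ m ∈ uIcc e 1, 1 / (c0 m) ^ 2 = 1 / (1 + m) ^ 2 := by
      intro m hm
      rw [uIcc_of_le (by linarith)] at hm
      have h0 : 0 ≤ m := by linarith [hm.1]
      rw [c0_out (by rw [abs_of_nonneg h0]; exact hm.1), abs_of_nonneg h0]
    rw [intervalIntegral.integral_congr hc]
    have hder : ∀ m ∈ uIcc e 1, HasDerivAt (fun m : ℝ => -1 / (1 + m)) (1 / (1 + m) ^ 2) m := by
      intro m hm
      rw [uIcc_of_le (by linarith)] at hm
      have hd : HasDerivAt (fun m : ℝ => 1 + m) 1 m := by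
        simpa using (hasDerivAt_id m).const_add 1
      have := (hasDerivAt_const m (-1 : ℝ)).div hd (by linarith [hm.1])
      refine this.congr_deriv ?_
      simp
    rw [intervalIntegral.integral_eq_sub_of_hasDerivAt hder (by
      apply ContinuousOn.intervalIntegrable
      rw [uIcc_of_le (by linarith)]
      refine continuousOn_const.div (by fun_prop) (fun m hm => ?_)
      have : 0 < 1 + m := by linarith [hm.1]
      positivity)]
    have e1 : 1 / (1 + e) = g / 2 := by
      rw [div_eq_div_iff (by linarith) (by norm_num)]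
      unfold e; linear_combination (-2) * g_sq
    have e2 : -1 / (1 + e) = -(g / 2) := by rw [neg_div, e1]
    rw [e2]
    ring
  have hI : ∀ t : ℝ, -1 ≤ t → t ≤ 1 → t ∈ Icc (-1 : ℝ) 1 := fun t h h' => ⟨h, h'⟩
  rw [← intervalIntegral.integral_add_adjacent_intervals
    (hii (-1) 0 (hI _ (by norm_num) (by norm_num)) (hI _ (by norm_num) (by norm_num)))
    (hii 0 1 (hI _ (by norm_num) (by norm_num)) (hI _ (by norm_num) (by norm_num))), hneg,
    ← intervalIntegral.integral_add_adjacent_intervals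
    (hii 0 e (hI _ (by norm_num) (by norm_num)) (hI _ (by linarith) (by linarith)))
    (hii e 1 (hI _ (by linarith) (by linarith)) (hI _ (by norm_num) (by norm_num))), h1, h2]
  have h7 : (√g * th + 1) / g = th / √g + (g - 1) := by
    rw [← inv_g]
    field_simp
    linear_combination th * hr2
  rw [h7]
  ring

/-- HT6 -/
theorem n0 : StmtN0 :=
  ⟨N0_nrm, area_N0, fun _ hm => ⟨cT_N0 hm, cR_N0 hm⟩, fun _ h => sub_N0 h, int_c0⟩

end Pool.Agent.R166.HT
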