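import Pool.Agent.R166.HT.Defs

set_option autoImplicit false

namespace Pool.Agent.R166.HT

open MeasureTheory Set

lemma g_sq : g ^ 2 = g + 1 := by
  have h : √5 ^ 2 = (5 : ℝ) := Real.sq_sqrt (by norm_num)
  unfold g; nlinarith

lemma g_lo : 1.618 < g := by
  have h : (2.236 : ℝ) < √5 := by
    rw [show (2.236 : ℝ) = √(2.236 ^ 2) by rw [Real.sqrt_sq (by norm_num)]]
    exact Real.sqrt_lt_sqrt (by norm_num) (by norm_num)
  unfold g; linarith

lemma g_hi : g < 1.6181 := by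
  have h : √5 < (2.2361 : ℝ) := by
    rw [show (2.2361 : ℝ) = √(2.2361 ^ 2) by rw [Real.sqrt_sq (by norm_num)]]
    exact Real.sqrt_lt_sqrt (by norm_num) (by norm_num)
  unfold g; linarith

lemma g_pos : 0 < g := by linarith [g_lo]

lemma r_pos : 0 < √g := Real.sqrt_pos.2 g_pos

lemma r_sq : √g ^ 2 = g := Real.sq_sqrt g_pos.le

lemma inv_g : 1 / g = g - 1 := by
  have := g_pos
  field_simp
  nlinarith [g_sq]

lemma inv_g2 : 1 / g ^ 2 = 2 - g := by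
  have := g_pos
  field_simp
  nlinarith [g_sq]

lemma inv_g3 : 1 / g ^ 3 = 2 * g - 3 := by
  have := g_pos
  field_simp
  have h3 : g ^ 3 = 2 * g + 1 := by
    have := g_sq
    calc g ^ 3 = g * g ^ 2 := by ring
      _ = g * (g + 1) := by rw [this]
      _ = g ^ 2 + g := by ring
      _ = 2 * g + 1 := by rw [this]; ring
  rw [h3]
  nlinarith [g_sq]

/-- the abscissa `1 / g^3` -/
noncomputable def e : ℝ := 2 * g - 3

lemma e_lo : 0.236 < e := by unfold e; linarith [g_lo]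
lemma e_hi : e < 0.2362 := by unfold e; linarith [g_hi]

/-- `(1+e)^2 = 4 g e` -/
lemma e_eq : (1 + e) ^ 2 = 4 * g * e := by
  unfold e; nlinarith [g_sq]

lemma lip_comp {Φ : ℝ × ℝ → ℝ} {c : ℝ → ℝ} {K : NNReal} {S : Set (ℝ × ℝ)} (hS : IsCompact S)
    (hΦ : ∀ p ∈ S, ContDiffAt ℝ 1 Φ p) {a b : ℝ} (hc : LipschitzOnWith K c (Icc a b))
    (hmem : ∀ m ∈ Icc a b, (m, c m) ∈ S) :
    ∃ K' : NNReal, LipschitzOnWith K' (fun m => Φ (m, c m)) (Icc a b) := by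
  have hloc : LocallyLipschitzOn S Φ := by
    intro p hp
    obtain ⟨K, t, ht, hl⟩ := (hΦ p hp).exists_lipschitzOnWith
    exact ⟨K, t, mem_nhdsWithin_of_mem_nhds ht, hl⟩
  obtain ⟨K1, h1⟩ := hloc.exists_lipschitzOnWith_of_compact hS
  have h2 : LipschitzOnWith (max 1 K) (fun m : ℝ => (m, c m)) (Icc a b) := by
    have : LipschitzOnWith 1 (fun m : ℝ => m) (Icc a b) := LipschitzOnWith.of_dist_le_mul (by
      intro x _ y _; simp)
    exact this.prodMk hc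
  exact ⟨K1 * max 1 K, h1.comp h2 hmem⟩

/-! ### the outer part -/

lemma outer_pt (a c q r g s : ℝ) (_ha : 1 ≤ a) (hr : 0 < r)
    (hg : r ^ 2 = g) (hs : s ^ 2 = c - a) :
    1 / c ^ 2 - (1 - q) ^ 2 / (4 * g) + (1 / a ^ 2 - 1 / c ^ 2 - (c - a) / 4) ≤
      1 / a ^ 2 - 1 / (4 * g) + q / (2 * g) - s * q / (2 * r) := by
  have h : 1 / a ^ 2 - 1 / (4 * g) + q / (2 * g) - s * q / (2 * r) -
      (1 / c ^ 2 - (1 - q) ^ 2 / (4 * g) + (1 / a ^ 2 - 1 / c ^ 2 - (c - a) / 4)) =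
      (q / (2 * r) - s / 2) ^ 2 := by
    rw [← hs, ← hg]
    field_simp
    ring
  nlinarith [sq_nonneg (q / (2 * r) - s / 2)]

lemma outer_nn (a c : ℝ) (ha : 1 ≤ a) (hac : a ≤ c) (hc : c ≤ 2) :
    0 ≤ 1 / a ^ 2 - 1 / c ^ 2 - (c - a) / 4 := by
  have hc0 : 0 < c := by linarith
  have ha0 : 0 < a := by linarith
  have h : 1 / a ^ 2 - 1 / c ^ 2 - (c - a) / 4 =
      (c - a) * (4 * (a + c) - a ^ 2 * c ^ 2) / (4 * a ^ 2 * c ^ 2) := by
    field_simp
    ring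
  rw [h]
  have h1 : a ^ 2 * c ^ 2 ≤ 4 * (a + c) := by
    have e1 : a * c ≤ 4 := by nlinarith
    have e2 : a * c ≤ a + c := by nlinarith
    have e3 : 0 < a * c := by positivity
    nlinarith
  have : 0 ≤ c - a := by linarith
  have : 0 ≤ 4 * (a + c) - a ^ 2 * c ^ 2 := by linarith
  positivity

lemma outer_pos (a c : ℝ) (ha : 1 ≤ a) (hac : a < c) (hc : c ≤ 2) :
    0 < 1 / a ^ 2 - 1 / c ^ 2 - (c - a) / 4 := by
  have hc0 : 0 < c := by linarith
  have ha0 : 0 < a := by linarith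
  have h : 1 / a ^ 2 - 1 / c ^ 2 - (c - a) / 4 =
      (c - a) * (4 * (a + c) - a ^ 2 * c ^ 2) / (4 * a ^ 2 * c ^ 2) := by
    field_simp
    ring
  rw [h]
  have h1 : a ^ 2 * c ^ 2 < 4 * (a + c) := by
    have e1 : a * c < 4 := by nlinarith
    have e2 : a * c ≤ a + c := by nlinarith
    have e3 : 0 < a * c := by positivity
    nlinarith
  have : 0 < c - a := by linarith
  have : 0 < 4 * (a + c) - a ^ 2 * c ^ 2 := by linarith
  positivity

/-- the calibrating function of the outer part -/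
noncomputable def WW (p : ℝ × ℝ) : ℝ :=
  -1 / (1 + p.1) - p.1 / (4 * g) - (p.2 - 1 - p.1) / (2 * g) +
    1 / (3 * √g) * (p.2 - 1 - p.1) ^ (3 / 2 : ℝ)

lemma WW_cd (p : ℝ × ℝ) (hp : 0 < 1 + p.1) : ContDiffAt ℝ 1 WW p := by
  unfold WW
  have h1 : ContDiffAt ℝ 1 (fun p : ℝ × ℝ => p.2 - 1 - p.1) p := by fun_prop
  have h2 : ContDiffAt ℝ 1 (fun p : ℝ × ℝ => (p.2 - 1 - p.1) ^ (3 / 2 : ℝ)) p := by
    have := Real.contDiffAt_rpow_const_of_le (x := p.2 - 1 - p.1) (p := 3 / 2) (n := 1)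
      (by norm_num)
    exact ContDiffAt.comp p this h1
  have h3 : ContDiffAt ℝ 1 (fun p : ℝ × ℝ => -1 / (1 + p.1)) p := by
    refine ContDiffAt.div (by fun_prop) (by fun_prop) hp.ne'
  have h4 : ContDiffAt ℝ 1 (fun p : ℝ × ℝ => p.1 / (4 * g)) p := by fun_prop
  have h5 : ContDiffAt ℝ 1 (fun p : ℝ × ℝ => (p.2 - 1 - p.1) / (2 * g)) p := by fun_prop
  exact ((h3.sub h4).sub h5).add (contDiffAt_const.mul h2)

lemma WW_deriv {c : ℝ → ℝ} {m c' : ℝ} (hm : 0 < 1 + m) (hc : HasDerivAt c c' m)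
    (h0 : 0 ≤ c m - 1 - m) :
    HasDerivAt (fun m => WW (m, c m)) (1 / (1 + m) ^ 2 - 1 / (4 * g) + (1 - c') / (2 * g) -
      √(c m - 1 - m) * (1 - c') / (2 * √g)) m := by
  unfold WW
  simp only
  have h1 : HasDerivAt (fun m => c m - 1 - m) (c' - 1) m :=
    (hc.sub_const 1).fun_sub (hasDerivAt_id' m)
  have h2 : HasDerivAt (fun m : ℝ => (c m - 1 - m) ^ (3 / 2 : ℝ))
      ((c' - 1) * (3 / 2) * (c m - 1 - m) ^ ((3 / 2 : ℝ) - 1)) m :=
    h1.rpow_const (Or.inr (by norm_num))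
  have h3 : HasDerivAt (fun m : ℝ => -1 / (1 + m)) (1 / (1 + m) ^ 2) m := by
    have hd : HasDerivAt (fun m : ℝ => 1 + m) 1 m := by
      simpa using (hasDerivAt_id m).const_add 1
    have := (hasDerivAt_const m (-1 : ℝ)).div hd hm.ne'
    refine this.congr_deriv ?_
    simp
  have h4 : HasDerivAt (fun m : ℝ => m / (4 * g)) (1 / (4 * g)) m :=
    (hasDerivAt_id m).div_const _
  have h5 := h1.div_const (2 * g)
  have h6 := ((h3.fun_sub h4).fun_sub h5).fun_add (h2.const_mul (1 / (3 * √g)))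
  refine h6.congr_deriv ?_
  have h7 : (c m - 1 - m) ^ ((3 / 2 : ℝ) - 1) = √(c m - 1 - m) := by
    rw [Real.sqrt_eq_rpow]; norm_num
  rw [h7]
  have := r_pos
  have := g_pos
  field_simp
  ring

end Pool.Agent.R166.HT
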