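import Pool.Agent.R166.HT.One1

set_option autoImplicit false

namespace Pool.Agent.R166.HT

open MeasureTheory Set

lemma deriv_bd {c : ℝ → ℝ} {K : NNReal} {a b : ℝ} (hc : LipschitzOnWith K c (Icc a b)) {m : ℝ}
    (hm : m ∈ Ioo a b) : |deriv c m| ≤ K := by
  have := norm_deriv_le_of_lipschitzOn (Icc_mem_nhds hm.1 hm.2) hc
  simpa using this

lemma int_sq {c : ℝ → ℝ} {K : NNReal} {a b : ℝ} (hab : a ≤ b)
    (hc : LipschitzOnWith K c (Icc a b)) :
    IntervalIntegrable (fun m => (deriv c m) ^ 2) volume a b := by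
  rw [intervalIntegrable_iff_integrableOn_Ioo_of_le hab]
  refine Measure.integrableOn_of_bounded (M := (K : ℝ) ^ 2) (by simp)
    ((measurable_deriv c).pow_const 2).aestronglyMeasurable ?_
  filter_upwards [ae_restrict_mem measurableSet_Ioo] with m hm
  have := deriv_bd hc hm
  rw [Real.norm_eq_abs, abs_of_nonneg (sq_nonneg _)]
  have h2 := abs_nonneg (deriv c m)
  rw [← sq_abs]
  exact pow_le_pow_left₀ h2 this 2

lemma ae_diff {c : ℝ → ℝ} {K : NNReal} {a b : ℝ} (hab : a ≤ b)
    (hc : LipschitzOnWith K c (Icc a b)) :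
    ∀ᵐ m, m ∈ Icc a b → DifferentiableAt ℝ c m := by
  have h : LipschitzOnWith K c (uIcc a b) := by rwa [uIcc_of_le hab]
  have := h.absolutelyContinuousOnInterval.ae_differentiableAt
  rwa [uIcc_of_le hab] at this

lemma ftc {c : ℝ → ℝ} {K : NNReal} {a b : ℝ} (hab : a ≤ b)
    (hc : LipschitzOnWith K c (Icc a b)) : ∫ m in a..b, deriv c m = c b - c a := by
  have h : LipschitzOnWith K c (uIcc a b) := by rwa [uIcc_of_le hab]
  exact h.absolutelyContinuousOnInterval.integral_deriv_eq_sub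

lemma int_deriv {c : ℝ → ℝ} {K : NNReal} {a b : ℝ} (hab : a ≤ b)
    (hc : LipschitzOnWith K c (Icc a b)) : IntervalIntegrable (deriv c) volume a b := by
  have h : LipschitzOnWith K c (uIcc a b) := by rwa [uIcc_of_le hab]
  exact h.absolutelyContinuousOnInterval.intervalIntegrable_deriv

lemma int_inv {c : ℝ → ℝ} {a b : ℝ} (hab : a ≤ b) (hc : ContinuousOn c (Icc a b))
    (h0 : ∀ m ∈ Icc a b, 0 < c m) : IntervalIntegrable (fun m => 1 / (c m) ^ 2) volume a b := by
  apply ContinuousOn.intervalIntegrable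
  rw [uIcc_of_le hab]
  exact continuousOn_const.div (hc.pow 2) (fun m hm => by have := h0 m hm; positivity)

lemma int_main {c : ℝ → ℝ} {K : NNReal} {a b : ℝ} (hab : a ≤ b)
    (hc : LipschitzOnWith K c (Icc a b)) (h0 : ∀ m ∈ Icc a b, 0 < c m) :
    IntervalIntegrable (fun m => 1 / (c m) ^ 2 - (deriv c m) ^ 2 / (4 * g)) volume a b :=
  (int_inv hab hc.continuousOn h0).sub ((int_sq hab hc).div_const _)

/-- the gap in the outer part -/
noncomputable def gap (c : ℝ → ℝ) (m : ℝ) : ℝ :=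
  1 / (1 + m) ^ 2 - 1 / (c m) ^ 2 - (c m - (1 + m)) / 4

lemma gap_cont {c : ℝ → ℝ} {a b : ℝ} (ha : 0 ≤ a) (hc : ContinuousOn c (Icc a b))
    (h0 : ∀ m ∈ Icc a b, 0 < c m) : ContinuousOn (gap c) (Icc a b) := by
  unfold gap
  refine ContinuousOn.sub (ContinuousOn.sub ?_ ?_) ?_
  · refine continuousOn_const.div (by fun_prop) (fun m hm => ?_)
    have : 0 < 1 + m := by linarith [hm.1]
    positivity
  · exact continuousOn_const.div (hc.pow 2) (fun m hm => by have := h0 m hm; positivity)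
  · exact (hc.sub (by fun_prop)).div_const _

lemma outer_int {c : ℝ → ℝ} {K : NNReal} (hc : LipschitzOnWith K c (Icc e 1))
    (hb : ∀ m ∈ Icc e 1, 1 + m ≤ c m ∧ c m ≤ 2) :
    (∫ m in e..1, (1 / (c m) ^ 2 - (deriv c m) ^ 2 / (4 * g))) + (∫ m in e..1, gap c m) ≤
      WW (1, 2) - WW (e, c e) := by
  have he0 := e_lo
  have he1 : e ≤ 1 := by linarith [e_hi]
  have hpos : ∀ m ∈ Icc e 1, 0 < c m := fun m hm => by linarith [(hb m hm).1, hm.1]
  have hc1 : c 1 = 2 := by
    have := hb 1 ⟨he1, le_refl 1⟩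
    linarith [this.1, this.2]
  -- the calibrating function is Lipschitz
  obtain ⟨K', hK'⟩ : ∃ K' : NNReal, LipschitzOnWith K' (fun m => WW (m, c m)) (Icc e 1) := by
    refine lip_comp (S := (Icc e 1) ×ˢ (Icc 1 2)) (isCompact_Icc.prod isCompact_Icc) ?_ hc ?_
    · intro p hp
      exact WW_cd p (by linarith [hp.1.1])
    · intro m hm
      exact ⟨hm, by linarith [(hb m hm).1, hm.1], (hb m hm).2⟩
  have hF := ftc he1 hK'
  simp only [hc1] at hF
  rw [← hF, ← intervalIntegral.integral_add (int_main he1 hc hpos)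
    (ContinuousOn.intervalIntegrable (by
      rw [uIcc_of_le he1]; exact gap_cont (by linarith) hc.continuousOn hpos))]
  refine intervalIntegral.integral_mono_ae_restrict he1
    ((int_main he1 hc hpos).add (ContinuousOn.intervalIntegrable (by
      rw [uIcc_of_le he1]; exact gap_cont (by linarith) hc.continuousOn hpos)))
    (int_deriv he1 hK') ?_
  have hd := ae_diff he1 hc
  filter_upwards [ae_restrict_mem measurableSet_Icc, ae_restrict_of_ae hd] with m hm hdm
  have hdm' := (hdm hm).hasDerivAt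
  have h0 : 0 ≤ c m - 1 - m := by linarith [(hb m hm).1]
  have hW := WW_deriv (by linarith [hm.1]) hdm' h0
  rw [hW.deriv]
  have h := outer_pt (1 + m) (c m) (1 - deriv c m) (√g) g (√(c m - 1 - m)) (by linarith [hm.1])
    r_pos r_sq (by rw [Real.sq_sqrt h0]; ring)
  have e1 : (1 - (1 - deriv c m)) = deriv c m := by ring
  rw [e1] at h
  unfold gap
  exact h

end Pool.Agent.R166.HT
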