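import Pool.Agent.R166.HT.One2

set_option autoImplicit false

namespace Pool.Agent.R166.HT

open MeasureTheory Set

/-- `ρ (m, c) = 4 √g / (c² + √(c⁴ - 16 g m²))` -/
noncomputable def rho (p : ℝ × ℝ) : ℝ := 4 * √g / (p.2 ^ 2 + √(p.2 ^ 4 - 16 * g * p.1 ^ 2))

lemma disc_pos {m c : ℝ} (hm0 : 0 ≤ m) (hm : m ≤ e) (hc : 1 + m ≤ c) :
    0 < c ^ 4 - 16 * g * m ^ 2 := by
  have hg := g_lo
  have h1 : 4 * g * m ≤ (1 + m) ^ 2 := by
    have h : (1 + m) ^ 2 - 4 * g * m = (e - m) * (2 * g + 1 - m) := by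
      unfold e; linear_combination (-4) * g_sq
    have : 0 ≤ (e - m) * (2 * g + 1 - m) :=
      mul_nonneg (by linarith) (by linarith [e_hi])
    linarith
  have h2 : (1 + m) ^ 2 ≤ c ^ 2 := by nlinarith
  have h3 : (4 * g * m) ^ 2 ≤ (c ^ 2) ^ 2 := by
    have : 0 ≤ 4 * g * m := by positivity
    exact pow_le_pow_left₀ this (h1.trans h2) 2
  have hc1 : 1 ≤ c := by linarith
  have h4 : 16 * g * m ^ 2 * g ≤ c ^ 4 := by nlinarith
  have h5 : 1 ≤ c ^ 4 := one_le_pow₀ hc1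
  have h6 : 0 ≤ 16 * g * m ^ 2 := by have := g_pos; positivity
  by_contra hcon
  have h7 : c ^ 4 ≤ 16 * g * m ^ 2 := by linarith
  nlinarith

lemma rho_cd (p : ℝ × ℝ) (hp : 0 < p.2 ^ 4 - 16 * g * p.1 ^ 2) : ContDiffAt ℝ 1 rho p := by
  unfold rho
  have h1 : ContDiffAt ℝ 1 (fun p : ℝ × ℝ => √(p.2 ^ 4 - 16 * g * p.1 ^ 2)) p :=
    ContDiffAt.sqrt (by fun_prop) hp.ne'
  have h2 : ContDiffAt ℝ 1 (fun p : ℝ × ℝ => p.2 ^ 2) p := by fun_prop
  refine contDiffAt_const.div (h2.add h1) ?_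
  have := Real.sqrt_pos.2 hp
  positivity

lemma rho_pos (p : ℝ × ℝ) (hp : 0 < p.2 ^ 4 - 16 * g * p.1 ^ 2) : 0 < rho p := by
  unfold rho
  have := Real.sqrt_pos.2 hp
  have := r_pos
  positivity

/-- the quadratic relation, and the discriminant -/
lemma rho_rel (p : ℝ × ℝ) (hp : 0 < p.2 ^ 4 - 16 * g * p.1 ^ 2) :
    2 * √g * (p.1 ^ 2 * rho p ^ 2 + 1) = rho p * p.2 ^ 2 ∧
    0 < p.2 ^ 2 - 4 * √g * p.1 ^ 2 * rho p := by
  have hs := Real.sqrt_pos.2 hp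
  have hss : √(p.2 ^ 4 - 16 * g * p.1 ^ 2) ^ 2 = p.2 ^ 4 - 16 * g * p.1 ^ 2 :=
    Real.sq_sqrt hp.le
  set s := √(p.2 ^ 4 - 16 * g * p.1 ^ 2) with hsdef
  have hr := r_pos
  have hr2 := r_sq
  have hD : 0 < p.2 ^ 2 + s := by positivity
  have hrho : rho p = 4 * √g / (p.2 ^ 2 + s) := rfl
  have e1 : p.2 ^ 2 - 4 * √g * p.1 ^ 2 * rho p = s := by
    rw [hrho]
    field_simp
    rw [← hr2] at hss
    nlinarith
  constructor
  · rw [hrho]
    field_simp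
    rw [← hr2] at hss
    nlinarith
  · rw [e1]; exact hs

/-- the calibrating function of the inner part -/
noncomputable def VV (p : ℝ × ℝ) : ℝ :=
  1 / √g * (Real.arctan (p.1 * rho p) - p.1 * rho p / 2)

lemma VV_cd (p : ℝ × ℝ) (hp : 0 < p.2 ^ 4 - 16 * g * p.1 ^ 2) : ContDiffAt ℝ 1 VV p := by
  unfold VV
  have h1 : ContDiffAt ℝ 1 (fun p : ℝ × ℝ => p.1 * rho p) p :=
    ContDiffAt.mul (by fun_prop) (rho_cd p hp)
  have h2 : ContDiffAt ℝ 1 (fun p : ℝ × ℝ => Real.arctan (p.1 * rho p)) p := h1.arctan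
  exact contDiffAt_const.mul (h2.sub (h1.div_const 2))

lemma rho_deriv_exists {c : ℝ → ℝ} {m c' : ℝ} (hc : HasDerivAt c c' m)
    (hp : 0 < c m ^ 4 - 16 * g * m ^ 2) :
    ∃ ρ' : ℝ, HasDerivAt (fun m => rho (m, c m)) ρ' m ∧
      ρ' * (c m ^ 2 - 4 * √g * m ^ 2 * rho (m, c m)) =
        4 * √g * m * rho (m, c m) ^ 2 - 2 * rho (m, c m) * c m * c' := by
  have hr := r_pos
  have hd : DifferentiableAt ℝ (fun m => rho (m, c m)) m := by
    have h1 : DifferentiableAt ℝ rho (m, c m) := (rho_cd (m, c m) hp).differentiableAt (by norm_num)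
    exact DifferentiableAt.comp (g := rho) (f := fun m => (m, c m)) m h1
      (differentiableAt_id.prodMk hc.differentiableAt)
  refine ⟨deriv (fun m => rho (m, c m)) m, hd.hasDerivAt, ?_⟩
  have hρ := hd.hasDerivAt
  set ρ' := deriv (fun m => rho (m, c m)) m
  -- the relation holds near `m`
  have hev : ∀ᶠ t in nhds m, 0 < c t ^ 4 - 16 * g * t ^ 2 := by
    have hcont : ContinuousAt (fun t => c t ^ 4 - 16 * g * t ^ 2) m := by
      have := hc.continuousAt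
      fun_prop
    exact hcont.eventually (lt_mem_nhds hp)
  have hrel : (fun t => 2 * √g * (t ^ 2 * rho (t, c t) ^ 2 + 1)) =ᶠ[nhds m]
      fun t => rho (t, c t) * c t ^ 2 := by
    filter_upwards [hev] with t ht
    exact (rho_rel (t, c t) ht).1
  have hL : HasDerivAt (fun t => 2 * √g * (t ^ 2 * rho (t, c t) ^ 2 + 1))
      (2 * √g * (2 * m * rho (m, c m) ^ 2 + m ^ 2 * (2 * rho (m, c m) * ρ'))) m := by
    have h1 : HasDerivAt (fun t : ℝ => t ^ 2) (2 * m) m := by simpa using hasDerivAt_pow 2 m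
    have h2 : HasDerivAt (fun t => rho (t, c t) ^ 2) (2 * rho (m, c m) * ρ') m := by
      simpa using hρ.fun_pow 2
    exact ((h1.fun_mul h2).add_const 1).const_mul _
  have hR : HasDerivAt (fun t => rho (t, c t) * c t ^ 2)
      (ρ' * c m ^ 2 + rho (m, c m) * (2 * c m * c')) m := by
    have h2 : HasDerivAt (fun t => c t ^ 2) (2 * c m * c') m := by
      simpa using hc.fun_pow 2
    exact hρ.fun_mul h2
  have := (hL.congr_of_eventuallyEq hrel.symm).unique hR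
  linarith

/-- the slope of the field -/
noncomputable def PP (p : ℝ × ℝ) : ℝ := 2 * (p.1 * rho p) * √g / p.2

lemma VV_alg {m c c' ρ ρ' r g : ℝ} (hr : 0 < r) (hg : r ^ 2 = g) (hc : 0 < c) (hρ : 0 < ρ)
    (h1 : 2 * r * (m ^ 2 * ρ ^ 2 + 1) = ρ * c ^ 2) (h2 : 0 < c ^ 2 - 4 * r * m ^ 2 * ρ)
    (h3 : ρ' * (c ^ 2 - 4 * r * m ^ 2 * ρ) = 4 * r * m * ρ ^ 2 - 2 * ρ * c * c') :
    1 / r * (1 / (1 + (m * ρ) ^ 2) * (1 * ρ + m * ρ') - (1 * ρ + m * ρ') / 2) =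
      1 / c ^ 2 - c' ^ 2 / (4 * g) + 1 / (4 * g) * (c' - 2 * (m * ρ) * r / c) ^ 2 := by
  subst hg
  have hD : (c ^ 2 - 4 * r * m ^ 2 * ρ) * ρ = 2 * r * (1 - m ^ 2 * ρ ^ 2) := by
    linear_combination -h1
  have hn : 0 < 1 - m ^ 2 * ρ ^ 2 := by
    have : 0 < 2 * r * (1 - m ^ 2 * ρ ^ 2) := by rw [← hD]; positivity
    by_contra hcon
    have h : 1 - m ^ 2 * ρ ^ 2 ≤ 0 := by linarith
    nlinarith
  have h4 : (1 - m ^ 2 * ρ ^ 2) * (ρ + m * ρ') =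
      ρ * (1 + m ^ 2 * ρ ^ 2) - m * ρ ^ 2 * c * c' / r := by
    have h5 : 2 * r * (1 - m ^ 2 * ρ ^ 2) * ρ' = ρ * (4 * r * m * ρ ^ 2 - 2 * ρ * c * c') := by
      rw [← hD, ← h3]; ring
    field_simp
    linear_combination (m / 2) * h5
  have h6 : 1 / (1 + (m * ρ) ^ 2) * (1 * ρ + m * ρ') - (1 * ρ + m * ρ') / 2 =
      (1 - m ^ 2 * ρ ^ 2) * (ρ + m * ρ') / (2 * (1 + m ^ 2 * ρ ^ 2)) := by
    have : 0 < 1 + (m * ρ) ^ 2 := by positivity
    have : 0 < 1 + m ^ 2 * ρ ^ 2 := by positivity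
    field_simp
    ring
  rw [h6, h4]
  have h7 : 0 < 1 + m ^ 2 * ρ ^ 2 := by positivity
  have h8 : ρ / (2 * r * (1 + m ^ 2 * ρ ^ 2)) = 1 / c ^ 2 := by
    rw [div_eq_div_iff (by positivity) (by positivity)]
    linear_combination -h1
  have h9 : 1 / r * ((ρ * (1 + m ^ 2 * ρ ^ 2) - m * ρ ^ 2 * c * c' / r) /
      (2 * (1 + m ^ 2 * ρ ^ 2))) =
      (ρ / (2 * r * (1 + m ^ 2 * ρ ^ 2))) * (1 + m ^ 2 * ρ ^ 2 - m * ρ * c * c' / r) := by
    field_simp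
  rw [h9, h8]
  field_simp
  ring

lemma VV_deriv {c : ℝ → ℝ} {m c' : ℝ} (hc : HasDerivAt c c' m) (hc0 : 0 < c m)
    (hp : 0 < c m ^ 4 - 16 * g * m ^ 2) :
    HasDerivAt (fun m => VV (m, c m))
      (1 / c m ^ 2 - c' ^ 2 / (4 * g) + 1 / (4 * g) * (c' - PP (m, c m)) ^ 2) m := by
  obtain ⟨ρ', hρ, hrel⟩ := rho_deriv_exists hc hp
  have h1 : HasDerivAt (fun m => m * rho (m, c m)) (1 * rho (m, c m) + m * ρ') m :=
    (hasDerivAt_id' m).fun_mul hρ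
  have h2 := (((Real.hasDerivAt_arctan (m * rho (m, c m))).comp m h1).fun_sub
    (h1.div_const 2)).const_mul (1 / √g)
  have h3 : HasDerivAt (fun m => VV (m, c m)) _ m := h2
  refine h3.congr_deriv ?_
  have hrr := rho_rel (m, c m) hp
  exact VV_alg r_pos r_sq hc0 (rho_pos _ hp) hrr.1 hrr.2 hrel

end Pool.Agent.R166.HT
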