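import Pool.Agent.R166.HT.One3

set_option autoImplicit false

namespace Pool.Agent.R166.HT

open MeasureTheory Set

lemma poly_ineq {x : ℝ} (hx0 : 0 ≤ x) (hx1 : x ≤ 1) :
    (1 - x) * (1 + x ^ 2 / 2) ^ 2 * (1 + (g - 1) * x ^ 2 + x * e) ≤ 1 := by
  have h1 : 1 + (g - 1) * x ^ 2 + x * e ≤ 1 + 0.62 * x ^ 2 + 0.24 * x := by
    have := g_hi
    have := e_hi
    nlinarith [sq_nonneg x]
  have h2 : 0 ≤ (1 - x) * (1 + x ^ 2 / 2) ^ 2 := by
    have : 0 ≤ 1 - x := by linarith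
    positivity
  refine (mul_le_mul_of_nonneg_left h1 h2).trans ?_
  have h3 : 1 - (1 - x) * (1 + x ^ 2 / 2) ^ 2 * (1 + 0.62 * x ^ 2 + 0.24 * x) =
      x * (19 / 25 - 69 / 50 * x + 69 / 50 * x ^ 2 - 63 / 100 * x ^ 3 + 81 / 100 * x ^ 4 -
        19 / 200 * x ^ 5 + 31 / 200 * x ^ 6) := by ring
  have h4 : 0 ≤ 19 / 25 - 69 / 50 * x + 69 / 50 * x ^ 2 - 63 / 100 * x ^ 3 + 81 / 100 * x ^ 4 -
        19 / 200 * x ^ 5 + 31 / 200 * x ^ 6 := by
    have a1 : x ^ 5 ≤ x ^ 4 := pow_le_pow_of_le_one hx0 hx1 (by norm_num)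
    have a2 : x ^ 3 ≤ (x ^ 2 + x ^ 4) / 2 := by nlinarith [sq_nonneg (x - x ^ 2)]
    have a3 : 0 ≤ x ^ 6 := by positivity
    have a4 : 0 ≤ x ^ 4 := by positivity
    have a5 : 0 ≤ 19 / 25 - 69 / 50 * x + 213 / 200 * x ^ 2 := by
      nlinarith [sq_nonneg (x - 138 / 213)]
    nlinarith
  nlinarith [mul_nonneg hx0 h4]

/-- relation for the slope -/
lemma PP_rel {m c : ℝ} (hc : 0 < c) (hp : 0 < c ^ 4 - 16 * g * m ^ 2) :
    m * PP (m, c) ^ 2 * c ^ 2 + 4 * g * m = PP (m, c) * c ^ 3 := by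
  have h := (rho_rel (m, c) hp).1
  simp only at h
  have hr := r_pos
  have hr2 := r_sq
  unfold PP
  simp only
  set ρ := rho (m, c)
  have : 4 * g * m = 4 * √g ^ 2 * m := by rw [hr2]
  rw [this]
  field_simp
  linear_combination (2 * m) * h

lemma PP_nonneg {m c : ℝ} (hm : 0 ≤ m) (hc : 0 < c) (hp : 0 < c ^ 4 - 16 * g * m ^ 2) :
    0 ≤ PP (m, c) := by
  unfold PP
  have := rho_pos (m, c) hp
  have := r_pos
  simp only
  positivity

lemma PP_lower {c : ℝ} (hc : 1 + e ≤ c) (_hc2 : c ≤ 2) :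
    1 - √g * √(c - 1 - e) ≤ PP (e, c) := by
  have he := e_lo
  have he2 := e_hi
  have hp : 0 < c ^ 4 - 16 * g * e ^ 2 := disc_pos (by linarith) le_rfl hc
  have hc0 : 0 < c := by linarith
  have hPn := PP_nonneg (m := e) (by linarith) hc0 hp
  set x := √g * √(c - 1 - e) with hx
  by_cases hx1 : 1 ≤ x
  · linarith
  push Not at hx1
  have hx0 : 0 ≤ x := by positivity
  by_contra hcon
  push Not at hcon
  have hrel := PP_rel hc0 hp
  set Pv := PP (e, c)
  have hx2 : x ^ 2 = g * (c - 1 - e) := by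
    rw [hx, mul_pow, r_sq, Real.sq_sqrt (by linarith)]
  have hceq : c = (1 + e) * (1 + x ^ 2 / 2) := by
    rw [hx2]
    have : (1 + e) * g = 2 := by unfold e; linear_combination 2 * g_sq
    linear_combination (-(c - 1 - e) / 2) * this
  have h1 : 0 < (1 - x - Pv) * (c - e * ((1 - x) + Pv)) * c ^ 2 := by
    have : 0 < 1 - x - Pv := by linarith
    have : 0 < c - e * ((1 - x) + Pv) := by nlinarith
    positivity
  have h2 : 4 * g * e < (1 - x) * c ^ 2 * (c - (1 - x) * e) := by nlinarith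
  have h3 : c - (1 - x) * e = 1 + (g - 1) * x ^ 2 + x * e := by
    have hgi := inv_g
    have : (g - 1) * x ^ 2 = c - 1 - e := by
      rw [hx2]
      have : (g - 1) * g = 1 := by linear_combination g_sq
      linear_combination (c - 1 - e) * this
    rw [this]; ring
  have h4 : (1 - x) * c ^ 2 * (c - (1 - x) * e) =
      (1 + e) ^ 2 * ((1 - x) * (1 + x ^ 2 / 2) ^ 2 * (1 + (g - 1) * x ^ 2 + x * e)) := by
    rw [h3]
    nth_rw 1 [hceq]
    ring
  have h5 := poly_ineq hx0 hx1.le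
  rw [h4] at h2
  rw [← e_eq] at h2
  nlinarith [sq_nonneg (1 + e)]

/-- the partial derivative of `VV` in the second variable -/
lemma VV_partial {m c : ℝ} (hc0 : 0 < c) (hp : 0 < c ^ 4 - 16 * g * m ^ 2) :
    HasDerivAt (fun t => VV (m, t)) (-PP (m, c) / (2 * g)) c := by
  have hd : DifferentiableAt ℝ VV (m, c) := (VV_cd (m, c) hp).differentiableAt (by norm_num)
  have hf := hd.hasFDerivAt
  set L := fderiv ℝ VV (m, c)
  have hcurve : ∀ q : ℝ, L (1, q) = 1 / c ^ 2 - q ^ 2 / (4 * g) +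
      1 / (4 * g) * (q - PP (m, c)) ^ 2 := by
    intro q
    have h1 : HasDerivAt (fun t : ℝ => c + q * (t - m)) q m := by
      simpa using (((hasDerivAt_id' m).sub_const m).const_mul q).const_add c
    have h2 : HasDerivAt (fun t : ℝ => VV (t, c + q * (t - m)))
        (1 / (c + q * (m - m)) ^ 2 - q ^ 2 / (4 * g) +
          1 / (4 * g) * (q - PP (m, c + q * (m - m))) ^ 2) m := by
      apply VV_deriv (c := fun t => c + q * (t - m)) h1
      · simpa using hc0
      · simpa using hp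
    have h3 : HasDerivAt (fun t : ℝ => VV (t, c + q * (t - m))) (L (1, q)) m := by
      have hf' : HasFDerivAt VV L (m, (fun t : ℝ => c + q * (t - m)) m) := by simpa using hf
      exact hf'.comp_hasDerivAt m ((hasDerivAt_id' m).prodMk h1)
    have := h3.unique h2
    simpa using this
  have h01 : L (0, 1) = -PP (m, c) / (2 * g) := by
    have : ((0, 1) : ℝ × ℝ) = (1, 1) - (1, 0) := by simp
    rw [this, map_sub, hcurve, hcurve]
    have := g_pos
    field_simp
    ring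
  rw [← h01]
  exact hf.comp_hasDerivAt c ((hasDerivAt_const c m).prodMk (hasDerivAt_id' c))

lemma WW_partial {c : ℝ} (_h0 : 1 + e ≤ c) :
    HasDerivAt (fun t => WW (e, t)) (-1 / (2 * g) + √(c - 1 - e) / (2 * √g)) c := by
  unfold WW
  simp only
  have h1 : HasDerivAt (fun t : ℝ => t - 1 - e) 1 c := by
    simpa using ((hasDerivAt_id' c).sub_const 1).sub_const e
  have h2 : HasDerivAt (fun t : ℝ => (t - 1 - e) ^ (3 / 2 : ℝ))
      (1 * (3 / 2) * (c - 1 - e) ^ ((3 / 2 : ℝ) - 1)) c :=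
    h1.rpow_const (Or.inr (by norm_num))
  have h6 := ((((hasDerivAt_const c (-1 / (1 + e))).fun_sub
    (hasDerivAt_const c (e / (4 * g)))).fun_sub (h1.div_const (2 * g))).fun_add
    (h2.const_mul (1 / (3 * √g))))
  refine h6.congr_deriv ?_
  have h7 : (c - 1 - e) ^ ((3 / 2 : ℝ) - 1) = √(c - 1 - e) := by
    rw [Real.sqrt_eq_rpow]; norm_num
  rw [h7]
  have := r_pos
  have := g_pos
  field_simp
  ring

lemma comp_e {c : ℝ} (hc : 1 + e ≤ c) (hc2 : c ≤ 2) :
    VV (e, c) - WW (e, c) ≤ VV (e, 1 + e) - WW (e, 1 + e) := by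
  have he := e_lo
  have he2 := e_hi
  have key : AntitoneOn (fun t => VV (e, t) - WW (e, t)) (Icc (1 + e) 2) := by
    have hder : ∀ t ∈ Icc (1 + e) 2, HasDerivAt (fun t => VV (e, t) - WW (e, t))
        (-PP (e, t) / (2 * g) - (-1 / (2 * g) + √(t - 1 - e) / (2 * √g))) t := by
      intro t ht
      exact (VV_partial (by linarith [ht.1]) (disc_pos (by linarith) le_rfl ht.1)).fun_sub
        (WW_partial ht.1)
    apply antitoneOn_of_deriv_nonpos (convex_Icc _ _)
    · intro t ht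
      exact (hder t ht).continuousAt.continuousWithinAt
    · intro t ht
      rw [interior_Icc] at ht
      exact (hder t (Ioo_subset_Icc_self ht)).differentiableAt.differentiableWithinAt
    · intro t ht
      rw [interior_Icc] at ht
      rw [(hder t (Ioo_subset_Icc_self ht)).deriv]
      have h := PP_lower (Ioo_subset_Icc_self ht).1 (Ioo_subset_Icc_self ht).2
      have hg := g_pos
      have hr := r_pos
      have hr2 := r_sq
      have e1 : √(t - 1 - e) / (2 * √g) = (√g * √(t - 1 - e)) / (2 * g) := by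
        rw [div_eq_div_iff (by positivity) (by positivity)]
        nth_rw 1 [← hr2]
        ring
      rw [e1]
      have e2 : -PP (e, t) / (2 * g) - (-1 / (2 * g) + √g * √(t - 1 - e) / (2 * g)) =
          (1 - √g * √(t - 1 - e) - PP (e, t)) / (2 * g) := by ring
      rw [e2]
      exact div_nonpos_of_nonpos_of_nonneg (by linarith) (by positivity)
  exact key ⟨le_rfl, by linarith⟩ ⟨hc, hc2⟩ hc

/-- the inner part -/
lemma inner_int {c : ℝ → ℝ} {K : NNReal} (hc : LipschitzOnWith K c (Icc 0 e))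
    (hb : ∀ m ∈ Icc 0 e, 1 + m ≤ c m ∧ c m ≤ 2) :
    (∫ m in (0 : ℝ)..e, (1 / (c m) ^ 2 - (deriv c m) ^ 2 / (4 * g))) +
      (∫ m in (0 : ℝ)..e, 1 / (4 * g) * (deriv c m - PP (m, c m)) ^ 2) = VV (e, c e) ∧
    IntervalIntegrable (fun m => 1 / (4 * g) * (deriv c m - PP (m, c m)) ^ 2) volume 0 e := by
  have he0 : (0 : ℝ) ≤ e := by linarith [e_lo]
  have hpos : ∀ m ∈ Icc 0 e, 0 < c m := fun m hm => by linarith [(hb m hm).1, hm.1]
  have hdisc : ∀ m ∈ Icc 0 e, 0 < c m ^ 4 - 16 * g * m ^ 2 := fun m hm =>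
    disc_pos hm.1 hm.2 (hb m hm).1
  obtain ⟨K', hK'⟩ : ∃ K' : NNReal, LipschitzOnWith K' (fun m => VV (m, c m)) (Icc 0 e) := by
    refine lip_comp (S := {p | p.1 ∈ Icc 0 e ∧ p.2 ∈ Icc 0 2 ∧ 1 + p.1 ≤ p.2}) ?_ ?_ hc ?_
    · apply IsCompact.of_isClosed_subset (isCompact_Icc.prod isCompact_Icc :
        IsCompact ((Icc 0 e) ×ˢ (Icc (0 : ℝ) 2)))
      · have h1 : IsClosed {p : ℝ × ℝ | p.1 ∈ Icc 0 e} := isClosed_Icc.preimage continuous_fst
        have h2 : IsClosed {p : ℝ × ℝ | p.2 ∈ Icc (0 : ℝ) 2} := isClosed_Icc.preimage continuous_snd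
        have h3 : IsClosed {p : ℝ × ℝ | 1 + p.1 ≤ p.2} :=
          isClosed_le (by fun_prop) (by fun_prop)
        exact h1.inter (h2.inter h3)
      · intro p hp
        exact ⟨hp.1, hp.2.1⟩
    · intro p hp
      exact VV_cd p (disc_pos hp.1.1 hp.1.2 hp.2.2)
    · intro m hm
      exact ⟨hm, ⟨(hpos m hm).le, (hb m hm).2⟩, (hb m hm).1⟩
  have hF := ftc he0 hK'
  have h00 : VV (0, c 0) = 0 := by unfold VV; simp
  have hI1 := int_main he0 hc hpos
  have hI2 := int_deriv he0 hK'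
  have hd := ae_diff he0 hc
  have hae : ∀ᵐ m, m ∈ uIoc 0 e → 1 / (4 * g) * (deriv c m - PP (m, c m)) ^ 2 =
      deriv (fun m => VV (m, c m)) m - (1 / (c m) ^ 2 - (deriv c m) ^ 2 / (4 * g)) := by
    filter_upwards [hd] with m hdm hm
    rw [uIoc_of_le he0] at hm
    have hm' : m ∈ Icc 0 e := ⟨hm.1.le, hm.2⟩
    rw [(VV_deriv (hdm hm').hasDerivAt (hpos m hm') (hdisc m hm')).deriv]
    ring
  have hI3 : IntervalIntegrable (fun m => 1 / (4 * g) * (deriv c m - PP (m, c m)) ^ 2)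
      volume 0 e := by
    have := hI2.sub hI1
    refine this.congr_ae ?_
    rw [Filter.EventuallyEq, ae_restrict_iff' measurableSet_uIoc]
    filter_upwards [hae] with m hm hm2
    exact (hm hm2).symm
  refine ⟨?_, hI3⟩
  rw [intervalIntegral.integral_congr_ae hae, intervalIntegral.integral_sub hI2 hI1, hF, h00]
  ring

end Pool.Agent.R166.HT
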