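import Pool.Agent.R166.HT.One4

set_option autoImplicit false

namespace Pool.Agent.R166.HT

open MeasureTheory Set

lemma e_inv : e = 1 / g ^ 3 := by unfold e; rw [inv_g3]

/-- `ρ (e, 1 + e) = g √g` -/
lemma rho_e : rho (e, 1 + e) = g * √g := by
  have he := e_lo
  have he2 := e_hi
  have hg := g_lo
  have hg2 := g_hi
  have hr := r_pos
  have hr2 := r_sq
  have hs : √((1 + e) ^ 4 - 16 * g * e ^ 2) = (1 + e) ^ 2 - 4 * √g * e ^ 2 * (g * √g) := by
    have h1 : 4 * √g * e ^ 2 * (g * √g) = 4 * g ^ 2 * e ^ 2 := by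
      linear_combination (4 * e ^ 2 * g) * hr2
    rw [h1]
    rw [Real.sqrt_eq_iff_mul_self_eq (disc_pos (by linarith) le_rfl le_rfl).le]
    · have h2 : (1 + e) ^ 2 = 4 * g * e := e_eq
      have h3 : e * (2 * g + 1) = 1 := by unfold e; linear_combination 4 * g_sq
      have h4 : g ^ 3 * e = 1 := by
        have : g ^ 3 = 2 * g + 1 := by linear_combination (g + 1) * g_sq
        rw [this]; linarith
      have h5 : (1 + e) ^ 4 = 16 * g ^ 2 * e ^ 2 := by
        calc (1 + e) ^ 4 = ((1 + e) ^ 2) ^ 2 := by ring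
          _ = (4 * g * e) ^ 2 := by rw [h2]
          _ = 16 * g ^ 2 * e ^ 2 := by ring
      rw [h2, h5]
      -- (4 g e - 4 g² e²)² = 16 g² e² - 16 g e²
      have h6 : (1 - g * e) ^ 2 * g ^ 2 = g ^ 2 - g := by
        unfold e; nlinarith [g_sq]
      linear_combination (-(16 * e ^ 2)) * h6
    · rw [e_eq]
      have : 4 * g ^ 2 * e ^ 2 = 4 * g * e * (g * e) := by ring
      rw [this]
      have h1 : g * e ≤ 1 := by nlinarith
      have h2 : 0 < 4 * g * e := by have := g_pos; positivity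
      nlinarith
  unfold rho
  simp only
  rw [hs]
  have hpos : 0 < (1 + e) ^ 2 + ((1 + e) ^ 2 - 4 * √g * e ^ 2 * (g * √g)) := by
    have h1 : 4 * √g * e ^ 2 * (g * √g) = 4 * g ^ 2 * e ^ 2 := by
      linear_combination (4 * e ^ 2 * g) * hr2
    rw [h1, e_eq]
    have : g * e < 1 := by nlinarith
    have h2 : 0 < 4 * g * e := by have := g_pos; positivity
    nlinarith
  rw [div_eq_iff hpos.ne']
  have h1 : 4 * √g * e ^ 2 * (g * √g) = 4 * g ^ 2 * e ^ 2 := by
    linear_combination (4 * e ^ 2 * g) * hr2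
  rw [h1, e_eq]
  have h4 : g * (4 * g * e + (4 * g * e - 4 * g ^ 2 * e ^ 2)) = 4 := by
    unfold e; linear_combination (-16 * g ^ 3 + 32 * g ^ 2 - 4 * g + 4) * g_sq
  linear_combination (-√g) * h4

lemma VV_e : VV (e, 1 + e) = 1 / √g * (th - 1 / (g * √g) / 2) := by
  unfold VV th
  simp only
  rw [rho_e]
  have h : e * (g * √g) = 1 / (g * √g) := by
    rw [e_inv]
    have := g_pos
    have := r_pos
    have hr2 := r_sq
    rw [eq_div_iff (by positivity)]
    field_simp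
    rw [hr2]
  rw [h]

lemma WW_diff : WW (1, 2) - WW (e, 1 + e) = 1 / (2 * g ^ 2) := by
  unfold WW
  simp only
  have h1 : (2 - 1 - 1 : ℝ) = 0 := by norm_num
  have h2 : (1 + e - 1 - e : ℝ) = 0 := by ring
  rw [h1, h2, Real.zero_rpow (by norm_num)]
  have hg := g_pos
  have he := e_lo
  have e1 : 1 / (1 + e) = g / 2 := by
    rw [div_eq_div_iff (by linarith) (by norm_num)]
    unfold e; linear_combination (-2) * g_sq
  have e2 : -1 / (1 + e) = -(g / 2) := by rw [neg_div, e1]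
  have e3 : 1 / (2 * g ^ 2) = (2 - g) / 2 := by
    rw [← inv_g2]; field_simp
  have e4 : 1 / (4 * g) = (g - 1) / 4 := by
    rw [← inv_g]; field_simp
  have e5 : e / (4 * g) = e * ((g - 1) / 4) := by rw [← e4]; ring
  rw [e2, e3, e4, e5]
  unfold e
  linear_combination (1 / 2) * g_sq

/-- the value: `V(e,1+e) + W(1,2) - W(e,1+e) = th / √g` -/
lemma value_eq : VV (e, 1 + e) + (WW (1, 2) - WW (e, 1 + e)) = th / √g := by
  rw [VV_e, WW_diff]
  have hg := g_pos
  have hr := r_pos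
  have hr2 := r_sq
  have : 1 / (2 * g ^ 2) = 1 / √g * (1 / (g * √g) / 2) := by
    field_simp
    rw [hr2]
  rw [this]; ring

/-- the half inequality -/
lemma half {c : ℝ → ℝ} {K : NNReal} (hc : LipschitzOnWith K c (Icc 0 1))
    (hb : ∀ m ∈ Icc (0 : ℝ) 1, 1 + m ≤ c m ∧ c m ≤ 2) :
    (∫ m in (0 : ℝ)..1, (1 / (c m) ^ 2 - (deriv c m) ^ 2 / (4 * g))) ≤ th / √g ∧
    ((∫ m in (0 : ℝ)..1, (1 / (c m) ^ 2 - (deriv c m) ^ 2 / (4 * g))) = th / √g →
      ∀ m ∈ Icc (0 : ℝ) 1, c m = c0 m) := by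
  have he := e_lo
  have he2 := e_hi
  have he0 : (0 : ℝ) ≤ e := by linarith
  have he1 : e ≤ 1 := by linarith
  have hcin : LipschitzOnWith K c (Icc 0 e) := hc.mono (Icc_subset_Icc le_rfl he1)
  have hcout : LipschitzOnWith K c (Icc e 1) := hc.mono (Icc_subset_Icc he0 le_rfl)
  have hbin : ∀ m ∈ Icc 0 e, 1 + m ≤ c m ∧ c m ≤ 2 := fun m hm => hb m ⟨hm.1, hm.2.trans he1⟩
  have hbout : ∀ m ∈ Icc e 1, 1 + m ≤ c m ∧ c m ≤ 2 := fun m hm => hb m ⟨he0.trans hm.1, hm.2⟩
  have hpin : ∀ m ∈ Icc 0 e, 0 < c m := fun m hm => by linarith [(hbin m hm).1, hm.1]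
  have hpout : ∀ m ∈ Icc e 1, 0 < c m := fun m hm => by linarith [(hbout m hm).1, hm.1]
  have hsplit : (∫ m in (0 : ℝ)..1, (1 / (c m) ^ 2 - (deriv c m) ^ 2 / (4 * g))) =
      (∫ m in (0 : ℝ)..e, (1 / (c m) ^ 2 - (deriv c m) ^ 2 / (4 * g))) +
      ∫ m in e..1, (1 / (c m) ^ 2 - (deriv c m) ^ 2 / (4 * g)) :=
    (intervalIntegral.integral_add_adjacent_intervals (int_main he0 hcin hpin)
      (int_main he1 hcout hpout)).symm
  obtain ⟨hI, hII⟩ := inner_int hcin hbin
  have hO := outer_int hcout hbout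
  have hCe := comp_e (hbout e ⟨le_rfl, he1⟩).1 (hbout e ⟨le_rfl, he1⟩).2
  have hv := value_eq
  have hgapnn : ∀ m ∈ Icc e 1, 0 ≤ gap c m := fun m hm =>
    outer_nn _ _ (by linarith [hm.1]) (hbout m hm).1 (hbout m hm).2
  have hgap0 : 0 ≤ ∫ m in e..1, gap c m := intervalIntegral.integral_nonneg he1 hgapnn
  have hsqnn : 0 ≤ ∫ m in (0 : ℝ)..e, 1 / (4 * g) * (deriv c m - PP (m, c m)) ^ 2 :=
    intervalIntegral.integral_nonneg he0 (fun m _ => by have := g_pos; positivity)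
  refine ⟨by linarith, fun heq => ?_⟩
  have hg0 : (∫ m in e..1, gap c m) = 0 := by linarith
  have hs0 : (∫ m in (0 : ℝ)..e, 1 / (4 * g) * (deriv c m - PP (m, c m)) ^ 2) = 0 := by linarith
  -- outer part
  have hgc := gap_cont he0 hcout.continuousOn hpout
  have hout : ∀ m ∈ Icc e 1, c m = 1 + m := by
    intro m hm
    have hz : gap c m = 0 := by
      by_contra hne
      have hp : 0 < gap c m := lt_of_le_of_ne (hgapnn m hm) (Ne.symm hne)
      have := intervalIntegral.integral_pos (by linarith : e < 1) hgc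
        (fun x hx => hgapnn x ⟨hx.1.le, hx.2⟩) ⟨m, hm, hp⟩
      linarith
    by_contra hne
    have hlt : 1 + m < c m := lt_of_le_of_ne (hbout m hm).1 (Ne.symm hne)
    have := outer_pos (1 + m) (c m) (by linarith [hm.1]) hlt (hbout m hm).2
    unfold gap at hz
    linarith
  -- inner part
  have hdisc : ∀ m ∈ Icc 0 e, 0 < c m ^ 4 - 16 * g * m ^ 2 := fun m hm =>
    disc_pos hm.1 hm.2 (hbin m hm).1
  obtain ⟨K', hK'⟩ : ∃ K' : NNReal, LipschitzOnWith K' (fun m => rho (m, c m)) (Icc 0 e) := by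
    refine lip_comp (S := {p | p.1 ∈ Icc 0 e ∧ p.2 ∈ Icc 0 2 ∧ 1 + p.1 ≤ p.2}) ?_ ?_ hcin ?_
    · apply IsCompact.of_isClosed_subset (isCompact_Icc.prod isCompact_Icc :
        IsCompact ((Icc 0 e) ×ˢ (Icc (0 : ℝ) 2)))
      · have h1 : IsClosed {p : ℝ × ℝ | p.1 ∈ Icc 0 e} := isClosed_Icc.preimage continuous_fst
        have h2 : IsClosed {p : ℝ × ℝ | p.2 ∈ Icc (0 : ℝ) 2} := isClosed_Icc.preimage continuous_snd
        have h3 : IsClosed {p : ℝ × ℝ | 1 + p.1 ≤ p.2} :=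
          isClosed_le (by fun_prop) (by fun_prop)
        exact h1.inter (h2.inter h3)
      · intro p hp
        exact ⟨hp.1, hp.2.1⟩
    · intro p hp
      exact rho_cd p (disc_pos hp.1.1 hp.1.2 hp.2.2)
    · intro m hm
      exact ⟨hm, ⟨(hpin m hm).le, (hbin m hm).2⟩, (hbin m hm).1⟩
  have hzero : ∀ᵐ m, m ∈ uIcc 0 e → HasDerivAt (fun m => rho (m, c m)) 0 m := by
    have h1 := (intervalIntegral.integral_eq_zero_iff_of_le_of_nonneg_ae he0
      (ae_restrict_of_forall_mem measurableSet_Ioc (fun m _ => by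
        have := g_pos
        show 0 ≤ 1 / (4 * g) * (deriv c m - PP (m, c m)) ^ 2
        positivity)) hII).1 hs0
    rw [Filter.EventuallyEq, ae_restrict_iff' measurableSet_Ioc] at h1
    have h0 : ∀ᵐ m : ℝ, m ≠ 0 := by
      rw [ae_iff]
      simp
    filter_upwards [h1, ae_diff he0 hcin, h0] with m hm1 hm2 hm3 hm
    rw [uIcc_of_le he0] at hm
    have hm' : m ∈ Ioc 0 e := ⟨lt_of_le_of_ne hm.1 (Ne.symm hm3), hm.2⟩
    have h2 := hm1 hm'
    simp only [Pi.zero_apply] at h2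
    have hg := g_pos
    have h3 : deriv c m = PP (m, c m) := by
      have : (deriv c m - PP (m, c m)) ^ 2 = 0 := by
        rcases mul_eq_zero.1 h2 with h | h
        · exfalso
          have : 0 < 1 / (4 * g) := by positivity
          linarith
        · exact h
      have := pow_eq_zero_iff (two_ne_zero) |>.1 this
      linarith
    obtain ⟨ρ', hρ, hrel⟩ := rho_deriv_exists (hm2 hm).hasDerivAt (hdisc m hm)
    have hrr := (rho_rel (m, c m) (hdisc m hm)).2
    simp only at hrr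
    have hcm := hpin m hm
    have h4 : ρ' * (c m ^ 2 - 4 * √g * m ^ 2 * rho (m, c m)) = 0 := by
      rw [hrel, h3]
      unfold PP
      simp only
      field_simp
      ring
    have h5 : ρ' = 0 := by
      rcases mul_eq_zero.1 h4 with h | h
      · exact h
      · exfalso; linarith
    rw [h5] at hρ
    exact hρ
  have hK'' : LipschitzOnWith K' (fun m => rho (m, c m)) (uIcc 0 e) := by rwa [uIcc_of_le he0]
  obtain ⟨C, hC⟩ := hK''.absolutelyContinuousOnInterval.const_of_ae_hasDerivAt_zero hzero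
  rw [uIcc_of_le he0] at hC
  have hce : c e = 1 + e := hout e ⟨le_rfl, he1⟩
  have hCe' := hC e ⟨he0, le_rfl⟩
  simp only [hce, rho_e] at hCe'
  intro m hm
  by_cases hme : m ≤ e
  · have hmi : m ∈ Icc 0 e := ⟨hm.1, hme⟩
    have h1 := hC m hmi
    have h2 := (rho_rel (m, c m) (hdisc m hmi)).1
    simp only at h2
    rw [h1, ← hCe'] at h2
    have hr := r_pos
    have hg := g_pos
    have hr2 := r_sq
    have h3 : c m ^ 2 = 2 * g ^ 2 * m ^ 2 + 2 / g := by
      have h4 : 2 * √g * (m ^ 2 * (g * √g) ^ 2 + 1) = g * √g * c m ^ 2 := h2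
      have h5 : 2 * (m ^ 2 * (g * √g) ^ 2 + 1) = g * c m ^ 2 := by
        have : √g * (2 * (m ^ 2 * (g * √g) ^ 2 + 1)) = √g * (g * c m ^ 2) := by
          linear_combination h4
        exact mul_left_cancel₀ hr.ne' this
      have h6 : (g * √g) ^ 2 = g ^ 3 := by
        rw [mul_pow, hr2]; ring
      rw [h6] at h5
      field_simp
      linarith
    unfold c0
    rw [if_pos (by rw [abs_of_nonneg hm.1, ← e_inv]; exact hme), ← h3,
      Real.sqrt_sq (hpin m hmi).le]
  · push Not at hme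
    unfold c0
    rw [if_neg (by rw [abs_of_nonneg hm.1, ← e_inv]; exact not_le.2 hme),
      abs_of_nonneg hm.1, hout m ⟨hme.le, hm.2⟩]

lemma c0_even (m : ℝ) : c0 (-m) = c0 m := by
  unfold c0; simp

/-- HT5 -/
theorem one : StmtOne := by
  intro c hc hb
  have hcont := hc.continuousOn
  have hR : LipschitzOnWith 1 c (Icc 0 1) := hc.mono (Icc_subset_Icc (by norm_num) le_rfl)
  have hL : LipschitzOnWith 1 (fun m => c (-m)) (Icc 0 1) := by
    apply LipschitzOnWith.of_dist_le_mul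
    intro x hx y hy
    have := hc.dist_le_mul (-x) ⟨by linarith [hx.2], by linarith [hx.1]⟩ (-y)
      ⟨by linarith [hy.2], by linarith [hy.1]⟩
    simpa [dist_neg_neg] using this
  have hbR : ∀ m ∈ Icc (0 : ℝ) 1, 1 + m ≤ c m ∧ c m ≤ 2 := by
    intro m hm
    have := hb m ⟨by linarith [hm.1], hm.2⟩
    rwa [abs_of_nonneg hm.1] at this
  have hbL : ∀ m ∈ Icc (0 : ℝ) 1, 1 + m ≤ c (-m) ∧ c (-m) ≤ 2 := by
    intro m hm
    have := hb (-m) ⟨by linarith [hm.2], by linarith [hm.1]⟩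
    rwa [abs_neg, abs_of_nonneg hm.1] at this
  have hpos : ∀ m ∈ Icc (-1 : ℝ) 1, 0 < c m := fun m hm => by
    have := (hb m hm).1
    have := abs_nonneg m
    linarith
  obtain ⟨hR1, hR2⟩ := half hR hbR
  obtain ⟨hL1, hL2⟩ := half hL hbL
  have hLeq : (∫ m in (0 : ℝ)..1, (1 / (c (-m)) ^ 2 -
      (deriv (fun m => c (-m)) m) ^ 2 / (4 * g))) =
      ∫ m in (-1 : ℝ)..0, (1 / (c m) ^ 2 - (deriv c m) ^ 2 / (4 * g)) := by
    have h1 : ∀ m : ℝ, 1 / (c (-m)) ^ 2 - (deriv (fun m => c (-m)) m) ^ 2 / (4 * g) =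
        (fun t => 1 / (c t) ^ 2 - (deriv c t) ^ 2 / (4 * g)) (-m) := by
      intro m
      have : deriv (fun m => c (-m)) m = - deriv c (-m) := deriv_comp_neg c m
      rw [this]
      ring
    simp_rw [h1]
    rw [intervalIntegral.integral_comp_neg (fun t => 1 / (c t) ^ 2 - (deriv c t) ^ 2 / (4 * g))]
    simp
  have hsplit : (∫ m in (-1 : ℝ)..1, (1 / (c m) ^ 2 - (deriv c m) ^ 2 / (4 * g))) =
      (∫ m in (-1 : ℝ)..0, (1 / (c m) ^ 2 - (deriv c m) ^ 2 / (4 * g))) +
      ∫ m in (0 : ℝ)..1, (1 / (c m) ^ 2 - (deriv c m) ^ 2 / (4 * g)) := by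
    refine (intervalIntegral.integral_add_adjacent_intervals ?_ ?_).symm
    · exact int_main (by norm_num) (hc.mono (Icc_subset_Icc le_rfl (by norm_num)))
        (fun m hm => hpos m ⟨hm.1, by linarith [hm.2]⟩)
    · exact int_main (by norm_num) hR (fun m hm => hpos m ⟨by linarith [hm.1], hm.2⟩)
  rw [hLeq] at hL1 hL2
  have h2 : 2 * th / √g = th / √g + th / √g := by ring
  rw [hsplit, h2]
  refine ⟨by linarith, fun heq => ?_⟩
  have hRe := hR2 (by linarith)
  have hLe := hL2 (by linarith)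
  intro m hm
  by_cases h0 : 0 ≤ m
  · exact hRe m ⟨h0, hm.2⟩
  · push Not at h0
    have := hLe (-m) ⟨by linarith, by linarith [hm.1]⟩
    simp only [neg_neg] at this
    rw [this, c0_even]

end Pool.Agent.R166.HT
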