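import Pool.Agent.R166.HT.Defs

/-!
# HT3: the area of the polar body from the support function (helper916)
-/

set_option autoImplicit false

namespace Pool.Agent.R166.HT.Polar

open MeasureTheory Set

/-- sector -/
def Sec (c : ℝ → ℝ) : Set P := {y | |y.1| < y.2 ∧ y.2 * c (y.1 / y.2) ≤ 1}

theorem meas_Sec (c : ℝ → ℝ) (hc : Continuous c) : MeasurableSet (Sec c) := by
  have h1 : MeasurableSet {y : P | |y.1| < y.2} :=
    (isOpen_lt (by fun_prop) (by fun_prop)).measurableSet
  have h2 : MeasurableSet {y : P | y.2 * c (y.1 / y.2) ≤ 1} := by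
    apply measurableSet_le _ measurable_const
    exact measurable_snd.mul (hc.measurable.comp (measurable_fst.div measurable_snd))
  exact h1.inter h2

theorem vol_Sec (c : ℝ → ℝ) (hc : Continuous c) (h1 : ∀ m ∈ Icc (-1 : ℝ) 1, 1 ≤ c m) :
    volume (Sec c) = ENNReal.ofReal ((1 / 2) * ∫ m in (-1 : ℝ)..1, 1 / (c m) ^ 2) := by
  set W : Set (ℝ × ℝ) := {p | (-1 < p.1 ∧ p.1 < 1) ∧ 0 < p.2 ∧ p.2 * c p.1 ≤ 1} with hW
  have hWm : MeasurableSet W := by
    have a1 : MeasurableSet {p : ℝ × ℝ | -1 < p.1} :=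
      (isOpen_lt (by fun_prop) (by fun_prop)).measurableSet
    have a2 : MeasurableSet {p : ℝ × ℝ | p.1 < 1} :=
      (isOpen_lt (by fun_prop) (by fun_prop)).measurableSet
    have a3 : MeasurableSet {p : ℝ × ℝ | 0 < p.2} :=
      (isOpen_lt (by fun_prop) (by fun_prop)).measurableSet
    have a4 : MeasurableSet {p : ℝ × ℝ | p.2 * c p.1 ≤ 1} :=
      (isClosed_le (by fun_prop) (by fun_prop)).measurableSet
    exact (a1.inter a2).inter (a3.inter a4)
  set f : ℝ → ℝ → ENNReal := fun m s => W.indicator (fun p => ENNReal.ofReal p.2) (m, s) with hf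
  have hfm : Measurable (Function.uncurry f) := by
    have : Function.uncurry f = W.indicator (fun p => ENNReal.ofReal p.2) := by
      ext p; rfl
    rw [this]
    exact (ENNReal.measurable_ofReal.comp measurable_snd).indicator hWm
  -- first computation
  have hA : volume (Sec c) = ∫⁻ s, ∫⁻ m, f m s := by
    rw [Measure.volume_eq_prod, Measure.prod_apply_symm (meas_Sec c hc)]
    apply lintegral_congr
    intro s
    by_cases hs : 0 < s
    · have e1 : (fun x => (x, s)) ⁻¹' Sec c = (fun x => x * s⁻¹) ⁻¹' {m | (m, s) ∈ W} := by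
        ext x
        simp only [Sec, hW, mem_preimage, mem_ofPred_eq]
        rw [← div_eq_mul_inv]
        constructor
        · rintro ⟨h2, h3⟩
          rw [abs_lt] at h2
          refine ⟨⟨?_, ?_⟩, hs, h3⟩
          · rw [lt_div_iff₀ hs]; linarith
          · rw [div_lt_iff₀ hs]; linarith
        · rintro ⟨⟨h2, h3⟩, _, h4⟩
          refine ⟨?_, h4⟩
          rw [lt_div_iff₀ hs] at h2
          rw [div_lt_iff₀ hs] at h3
          rw [abs_lt]; constructor <;> linarith
      rw [e1, Real.volume_preimage_mul_right (inv_ne_zero hs.ne'), inv_inv, abs_of_pos hs]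
      have e2 : ∀ m, f m s = ({m | (m, s) ∈ W} : Set ℝ).indicator
          (fun _ => ENNReal.ofReal s) m := by
        intro m
        simp only [hf]
        by_cases hm : (m, s) ∈ W
        · rw [indicator_of_mem hm, indicator_of_mem (by exact hm)]
        · rw [indicator_of_notMem hm, indicator_of_notMem (by exact hm)]
      simp_rw [e2]
      rw [lintegral_indicator_const]
      exact measurable_prodMk_right hWm
    · have e1 : (fun x => (x, s)) ⁻¹' Sec c = ∅ := by
        ext x
        simp only [Sec, mem_preimage, mem_ofPred_eq, mem_empty_iff_false, iff_false, not_and]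
        intro h2
        exact absurd (lt_of_le_of_lt (abs_nonneg x) h2) hs
      have e2 : ∀ m, f m s = 0 := by
        intro m
        simp only [hf]
        apply indicator_of_notMem
        rintro ⟨_, h2, _⟩
        exact hs h2
      rw [e1]
      simp [e2]
  rw [hA, ← lintegral_lintegral_swap hfm.aemeasurable]
  -- second computation
  have hB : ∀ m, ∫⁻ s, f m s = (Ioo (-1 : ℝ) 1).indicator
      (fun m => ENNReal.ofReal (1 / 2 * (1 / (c m) ^ 2))) m := by
    intro m
    by_cases hm : m ∈ Ioo (-1 : ℝ) 1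
    · rw [indicator_of_mem hm]
      have hc1 : 1 ≤ c m := h1 m ⟨hm.1.le, hm.2.le⟩
      have hc0 : 0 < c m := by linarith
      have e2 : ∀ s, f m s = (Ioc (0 : ℝ) (1 / c m)).indicator (fun s => ENNReal.ofReal s) s := by
        intro s
        simp only [hf]
        by_cases hs : s ∈ Ioc (0 : ℝ) (1 / c m)
        · have : (m, s) ∈ W := ⟨⟨hm.1, hm.2⟩, hs.1, by
            have := hs.2
            rw [le_div_iff₀ hc0] at this
            exact this⟩
          rw [indicator_of_mem this, indicator_of_mem hs]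
        · have : (m, s) ∉ W := by
            rintro ⟨_, h2, h3⟩
            exact hs ⟨h2, by rw [le_div_iff₀ hc0]; exact h3⟩
          rw [indicator_of_notMem this, indicator_of_notMem hs]
      simp_rw [e2]
      rw [lintegral_indicator measurableSet_Ioc]
      have e3 : ∫⁻ s in Ioc (0 : ℝ) (1 / c m), ENNReal.ofReal s
          = ENNReal.ofReal (∫ s in Ioc (0 : ℝ) (1 / c m), s) := by
        rw [ofReal_integral_eq_lintegral_ofReal]
        · exact (continuous_id.integrableOn_Ioc)
        · filter_upwards [ae_restrict_mem measurableSet_Ioc] with s hs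
          exact hs.1.le
      rw [e3, ← intervalIntegral.integral_of_le (by positivity), integral_id]
      congr 1
      field_simp
      ring
    · rw [indicator_of_notMem hm]
      have e2 : ∀ s, f m s = 0 := by
        intro s
        simp only [hf]
        apply indicator_of_notMem
        rintro ⟨h2, _, _⟩
        exact hm h2
      simp [e2]
  simp_rw [hB]
  rw [lintegral_indicator measurableSet_Ioo]
  have hci : ContinuousOn (fun m => 1 / 2 * (1 / (c m) ^ 2)) (Icc (-1 : ℝ) 1) := by
    apply ContinuousOn.mul continuousOn_const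
    apply ContinuousOn.div continuousOn_const (hc.continuousOn.pow 2)
    intro m hm
    have := h1 m hm
    have h4 : 0 < c m := by linarith
    exact pow_ne_zero 2 h4.ne'
  rw [← ofReal_integral_eq_lintegral_ofReal]
  · rw [← integral_Ioc_eq_integral_Ioo, ← intervalIntegral.integral_of_le (by norm_num),
      intervalIntegral.integral_const_mul]
  · exact hci.integrableOn_Icc.mono_set Ioo_subset_Icc_self
  · filter_upwards [ae_restrict_mem measurableSet_Ioo] with s hs
    have h3 : (0 : ℝ) ≤ 1 / 2 * (1 / (c s) ^ 2) :=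
      mul_nonneg (by norm_num) (div_nonneg zero_le_one (sq_nonneg _))
    exact h3

theorem bdd (N : Set P) (hN : Nrm N) (m : ℝ) :
    BddAbove ((fun x : P => x.2 - m * x.1) '' N) := by
  apply (hN.1.2.1.image (by fun_prop)).bddAbove

theorem bddR (N : Set P) (hN : Nrm N) (m : ℝ) :
    BddAbove ((fun x : P => x.1 + m * x.2) '' N) := by
  apply (hN.1.2.1.image (by fun_prop)).bddAbove

theorem le_cT (N : Set P) (hN : Nrm N) (m : ℝ) (x : P) (hx : x ∈ N) :
    x.2 - m * x.1 ≤ cT N m := le_csSup (bdd N hN m) ⟨x, hx, rfl⟩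

theorem le_cR (N : Set P) (hN : Nrm N) (m : ℝ) (x : P) (hx : x ∈ N) :
    x.1 + m * x.2 ≤ cR N m := le_csSup (bddR N hN m) ⟨x, hx, rfl⟩

theorem one_le_cT (N : Set P) (hN : Nrm N) (m : ℝ) : 1 ≤ cT N m := by
  have h1 := le_cT N hN m (1, 1) hN.2.2.1
  have h2 := le_cT N hN m (-1, 1) hN.2.2.2.1
  simp only at h1 h2
  linarith

theorem one_le_cR (N : Set P) (hN : Nrm N) (m : ℝ) : 1 ≤ cR N m := by
  have h1 := le_cR N hN m (1, 1) hN.2.2.1
  have h2 := le_cR N hN m (-(-1, 1)) (hN.2.1 _ hN.2.2.2.1)
  simp only [Prod.fst_neg, Prod.snd_neg] at h1 h2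
  linarith

theorem cont_cT (N : Set P) (hN : Nrm N) : Continuous (cT N) := by
  have key : ∀ m m', cT N m ≤ cT N m' + 2 * |m - m'| := by
    intro m m'
    apply csSup_le (Set.Nonempty.image _ ⟨_, hN.2.2.1⟩)
    rintro _ ⟨x, hx, rfl⟩
    have h1 := le_cT N hN m' x hx
    have h2 := hN.2.2.2.2 x hx
    have h3 : |x.1| ≤ 2 := by have := abs_nonneg x.2; linarith
    have h4 : (m' - m) * x.1 ≤ |m - m'| * 2 := by
      calc (m' - m) * x.1 ≤ |(m' - m) * x.1| := le_abs_self _
        _ = |m - m'| * |x.1| := by rw [abs_mul, abs_sub_comm]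
        _ ≤ |m - m'| * 2 := mul_le_mul_of_nonneg_left h3 (abs_nonneg _)
    simp only
    linarith
  have hL : LipschitzWith 2 (cT N) := by
    apply LipschitzWith.of_dist_le_mul
    intro a b
    rw [Real.dist_eq, Real.dist_eq, abs_le]
    have h1 := key a b
    have h2 := key b a
    rw [abs_sub_comm b a] at h2
    have h3 : ((2 : NNReal) : ℝ) = 2 := by norm_num
    rw [h3]
    constructor <;> linarith
  exact hL.continuous

theorem cont_cR (N : Set P) (hN : Nrm N) : Continuous (cR N) := by
  have key : ∀ m m', cR N m ≤ cR N m' + 2 * |m - m'| := by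
    intro m m'
    apply csSup_le (Set.Nonempty.image _ ⟨_, hN.2.2.1⟩)
    rintro _ ⟨x, hx, rfl⟩
    have h1 := le_cR N hN m' x hx
    have h2 := hN.2.2.2.2 x hx
    have h3 : |x.2| ≤ 2 := by have := abs_nonneg x.1; linarith
    have h4 : (m - m') * x.2 ≤ |m - m'| * 2 := by
      calc (m - m') * x.2 ≤ |(m - m') * x.2| := le_abs_self _
        _ = |m - m'| * |x.2| := by rw [abs_mul]
        _ ≤ |m - m'| * 2 := mul_le_mul_of_nonneg_left h3 (abs_nonneg _)
    simp only
    linarith
  have hL : LipschitzWith 2 (cR N) := by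
    apply LipschitzWith.of_dist_le_mul
    intro a b
    rw [Real.dist_eq, Real.dist_eq, abs_le]
    have h1 := key a b
    have h2 := key b a
    rw [abs_sub_comm b a] at h2
    have h3 : ((2 : NNReal) : ℝ) = 2 := by norm_num
    rw [h3]
    constructor <;> linarith
  exact hL.continuous

theorem top_iff (N : Set P) (hN : Nrm N) (y : P) (hy : 0 < y.2) :
    y ∈ polar N ↔ y.2 * cT N (-(y.1 / y.2)) ≤ 1 := by
  constructor
  · intro h
    rw [mul_comm, ← le_div_iff₀ hy]
    apply csSup_le (Set.Nonempty.image _ ⟨_, hN.2.2.1⟩)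
    rintro _ ⟨x, hx, rfl⟩
    have := h x hx
    simp only
    rw [le_div_iff₀ hy]
    have e : (x.2 - -(y.1 / y.2) * x.1) * y.2 = x.1 * y.1 + x.2 * y.2 := by
      field_simp
      ring
    rw [e]; exact this
  · intro h x hx
    have h1 := le_cT N hN (-(y.1 / y.2)) x hx
    have h2 := mul_le_mul_of_nonneg_left h1 hy.le
    have e : y.2 * (x.2 - -(y.1 / y.2) * x.1) = x.1 * y.1 + x.2 * y.2 := by
      field_simp
      ring
    rw [e] at h2
    linarith

theorem right_iff (N : Set P) (hN : Nrm N) (y : P) (hy : 0 < y.1) :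
    y ∈ polar N ↔ y.1 * cR N (y.2 / y.1) ≤ 1 := by
  constructor
  · intro h
    rw [mul_comm, ← le_div_iff₀ hy]
    apply csSup_le (Set.Nonempty.image _ ⟨_, hN.2.2.1⟩)
    rintro _ ⟨x, hx, rfl⟩
    have := h x hx
    simp only
    rw [le_div_iff₀ hy]
    have e : (x.1 + (y.2 / y.1) * x.2) * y.1 = x.1 * y.1 + x.2 * y.2 := by
      field_simp
    rw [e]; exact this
  · intro h x hx
    have h1 := le_cR N hN (y.2 / y.1) x hx
    have h2 := mul_le_mul_of_nonneg_left h1 hy.le
    have e : y.1 * (x.1 + (y.2 / y.1) * x.2) = x.1 * y.1 + x.2 * y.2 := by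
      field_simp
    rw [e] at h2
    linarith

theorem neg_polar (N : Set P) (hN : Nrm N) (y : P) : -y ∈ polar N ↔ y ∈ polar N := by
  constructor
  · intro h x hx
    have := h (-x) (hN.2.1 x hx)
    simp only [Prod.fst_neg, Prod.snd_neg] at this
    linarith
  · intro h x hx
    have := h (-x) (hN.2.1 x hx)
    simp only [Prod.fst_neg, Prod.snd_neg] at this ⊢
    linarith

theorem null_diag : volume {y : P | |y.1| = |y.2|} = 0 := by
  have hm : MeasurableSet {y : P | |y.1| = |y.2|} :=
    (isClosed_eq (by fun_prop) (by fun_prop)).measurableSet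
  rw [Measure.volume_eq_prod, Measure.prod_apply hm]
  have : ∀ x : ℝ, volume (Prod.mk x ⁻¹' {y : P | |y.1| = |y.2|}) = 0 := by
    intro x
    apply measure_mono_null (t := {x, -x})
    · intro z hz
      simp only [mem_preimage, mem_ofPred_eq] at hz
      rcases abs_eq_abs.mp hz with h | h
      · left; exact h.symm
      · right; simp only [mem_singleton_iff]; linarith
    · exact (Set.toFinite _).measure_zero _
  rw [lintegral_congr this, lintegral_zero]

theorem polar_meas (N : Set P) : MeasurableSet (polar N) := by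
  have : IsClosed (polar N) := by
    have e : polar N = ⋂ x ∈ N, {y : P | x.1 * y.1 + x.2 * y.2 ≤ 1} := by
      ext y; simp [polar]
    rw [e]
    exact isClosed_biInter fun x _ => isClosed_le (by fun_prop) (by fun_prop)
  exact this.measurableSet

end Pool.Agent.R166.HT.Polar

namespace Pool.Agent.R166.HT

open MeasureTheory Set Polar

theorem polarArea : StmtPolar := by
  intro N hN
  set T : Set P := Sec (fun m => cT N (-m)) with hT
  set R : Set P := Sec (cR N) with hR
  have cT' : Continuous (fun m => cT N (-m)) := (cont_cT N hN).comp continuous_neg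
  have vT := vol_Sec (fun m => cT N (-m)) cT' (fun m _ => one_le_cT N hN _)
  have vR := vol_Sec (cR N) (cont_cR N hN) (fun m _ => one_le_cR N hN _)
  have mT : MeasurableSet T := meas_Sec _ cT'
  have mR : MeasurableSet R := meas_Sec _ (cont_cR N hN)
  have eT : polar N ∩ {y : P | |y.1| < y.2} = T := by
    ext y
    simp only [hT, Sec, mem_inter_iff, mem_ofPred_eq]
    constructor
    · rintro ⟨h1, h2⟩
      have := lt_of_le_of_lt (abs_nonneg _) h2
      exact ⟨h2, (top_iff N hN y this).mp h1⟩
    · rintro ⟨h2, h1⟩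
      have := lt_of_le_of_lt (abs_nonneg _) h2
      exact ⟨(top_iff N hN y this).mpr h1, h2⟩
  have eR : polar N ∩ {y : P | |y.2| < y.1} = Prod.swap ⁻¹' R := by
    ext y
    simp only [hR, Sec, mem_inter_iff, mem_ofPred_eq, mem_preimage, Prod.fst_swap, Prod.snd_swap]
    constructor
    · rintro ⟨h1, h2⟩
      have := lt_of_le_of_lt (abs_nonneg _) h2
      exact ⟨h2, (right_iff N hN y this).mp h1⟩
    · rintro ⟨h2, h1⟩
      have := lt_of_le_of_lt (abs_nonneg _) h2
      exact ⟨(right_iff N hN y this).mpr h1, h2⟩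
  have eT' : polar N ∩ {y : P | |y.1| < -y.2} = Neg.neg ⁻¹' T := by
    rw [← eT]
    ext y
    simp only [mem_inter_iff, mem_ofPred_eq, mem_preimage, Prod.fst_neg, Prod.snd_neg, abs_neg,
      neg_polar N hN]
  have eR' : polar N ∩ {y : P | |y.2| < -y.1} = Neg.neg ⁻¹' (Prod.swap ⁻¹' R) := by
    rw [← eR]
    ext y
    simp only [mem_inter_iff, mem_ofPred_eq, mem_preimage, Prod.fst_neg, Prod.snd_neg, abs_neg,
      neg_polar N hN]
  have mSR : MeasurableSet (Prod.swap ⁻¹' R : Set P) := measurable_swap mR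
  have vSR : volume (Prod.swap ⁻¹' R : Set P) = volume R := by
    have := (Measure.measurePreserving_swap (μ := (volume : Measure ℝ))
      (ν := (volume : Measure ℝ))).measure_preimage mR.nullMeasurableSet
    rw [Measure.volume_eq_prod]
    exact this
  have vT' : volume (Neg.neg ⁻¹' T : Set P) = volume T := Measure.measure_preimage_neg _ _
  have vR' : volume (Neg.neg ⁻¹' (Prod.swap ⁻¹' R) : Set P) = volume R := by
    rw [Measure.measure_preimage_neg, vSR]
  have mT' : MeasurableSet (Neg.neg ⁻¹' T : Set P) := measurable_neg mT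
  have mR' : MeasurableSet (Neg.neg ⁻¹' (Prod.swap ⁻¹' R) : Set P) := measurable_neg mSR
  -- decomposition
  have hdec : polar N =ᵐ[volume] ((T ∪ Neg.neg ⁻¹' T) ∪
      (Prod.swap ⁻¹' R ∪ Neg.neg ⁻¹' (Prod.swap ⁻¹' R)) : Set P) := by
    have hn : ∀ᵐ y : P ∂volume, ¬ (|y.1| = |y.2|) := by
      rw [ae_iff]
      simpa using null_diag
    filter_upwards [hn] with y hy
    apply propext
    show y ∈ polar N ↔ y ∈ ((T ∪ Neg.neg ⁻¹' T) ∪
      (Prod.swap ⁻¹' R ∪ Neg.neg ⁻¹' (Prod.swap ⁻¹' R)) : Set P)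
    rw [← eR', ← eR, ← eT', ← eT]
    simp only [mem_union, mem_inter_iff, mem_ofPred_eq]
    constructor
    · intro h
      rcases lt_or_gt_of_ne hy with h1 | h1
      · rcases le_total 0 y.2 with h2 | h2
        · rw [abs_of_nonneg h2] at h1; exact Or.inl (Or.inl ⟨h, h1⟩)
        · rw [abs_of_nonpos h2] at h1; exact Or.inl (Or.inr ⟨h, h1⟩)
      · rcases le_total 0 y.1 with h2 | h2
        · rw [abs_of_nonneg h2] at h1; exact Or.inr (Or.inl ⟨h, h1⟩)
        · rw [abs_of_nonpos h2] at h1; exact Or.inr (Or.inr ⟨h, h1⟩)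
    · rintro ((h | h) | (h | h)) <;> exact h.1
  have d1 : Disjoint T (Neg.neg ⁻¹' T) := by
    rw [← eT', ← eT, Set.disjoint_left]
    rintro y ⟨_, h1⟩ ⟨_, h2⟩
    simp only [mem_ofPred_eq] at h1 h2
    have := abs_nonneg y.1
    linarith
  have d2 : Disjoint (Prod.swap ⁻¹' R : Set P) (Neg.neg ⁻¹' (Prod.swap ⁻¹' R)) := by
    rw [← eR', ← eR, Set.disjoint_left]
    rintro y ⟨_, h1⟩ ⟨_, h2⟩
    simp only [mem_ofPred_eq] at h1 h2
    have := abs_nonneg y.2
    linarith
  have d3 : Disjoint (T ∪ Neg.neg ⁻¹' T)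
      (Prod.swap ⁻¹' R ∪ Neg.neg ⁻¹' (Prod.swap ⁻¹' R) : Set P) := by
    rw [← eR', ← eR, ← eT', ← eT, Set.disjoint_left]
    rintro y hy1 hy2
    simp only [mem_union, mem_inter_iff, mem_ofPred_eq] at hy1 hy2
    have a1 := le_abs_self y.1
    have a2 := neg_abs_le y.1
    have b1 := le_abs_self y.2
    have b2 := neg_abs_le y.2
    rcases hy1 with ⟨_, h1⟩ | ⟨_, h1⟩ <;> rcases hy2 with ⟨_, h2⟩ | ⟨_, h2⟩ <;> linarith
  have hvol : volume (polar N) = (volume T + volume T) + (volume R + volume R) := by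
    rw [measure_congr hdec, measure_union d3 (mSR.union mR'), measure_union d1 mT',
      measure_union d2 mR', vT', vR', vSR]
  have iT : 0 ≤ (1 / 2) * ∫ m in (-1 : ℝ)..1, 1 / (cT N (-m)) ^ 2 := by
    apply mul_nonneg (by norm_num)
    apply intervalIntegral.integral_nonneg (by norm_num)
    intro m _; positivity
  have iR : 0 ≤ (1 / 2) * ∫ m in (-1 : ℝ)..1, 1 / (cR N m) ^ 2 := by
    apply mul_nonneg (by norm_num)
    apply intervalIntegral.integral_nonneg (by norm_num)
    intro m _; positivity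
  have sub : ∫ m in (-1 : ℝ)..1, 1 / (cT N (-m)) ^ 2 = ∫ m in (-1 : ℝ)..1, 1 / (cT N m) ^ 2 := by
    have := intervalIntegral.integral_comp_neg (a := -1) (b := 1)
      (fun m => 1 / (cT N m) ^ 2)
    simpa using this
  unfold area
  rw [hvol, vT, vR, ← ENNReal.ofReal_add iT iT, ← ENNReal.ofReal_add iR iR,
    ← ENNReal.ofReal_add (by linarith) (by linarith), ENNReal.toReal_ofReal (by linarith), sub]
  ring

end Pool.Agent.R166.HT
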